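import Mathlib
import Pool.Agent.P.MP_8707bd_ag.Row

/-!
Reductions of polynomials over Hahn series and the rule of signs with multiplicities
(helper file only).
-/

namespace Pool.Agent.P.MP_8707bd_ag.Irr

open Polynomial Row

section cw
variable {R A : Type*} [CommRing R] [CommRing A] (φ : A →+ R)

/-- A linear form applied to every coefficient. -/
noncomputable def cw (P : A[X]) : R[X] := P.sum fun n a => monomial n (φ a)

lemma cw_coeff (P : A[X]) (n : ℕ) : (cw φ P).coeff n = φ (P.coeff n) := by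
  classical
  rw [cw, Polynomial.sum_def, Polynomial.finsetSum_coeff]
  simp only [Polynomial.coeff_monomial]
  rw [Finset.sum_ite_eq']
  split_ifs with h
  · rfl
  · rw [Polynomial.notMem_support_iff.1 h, map_zero]

lemma cw_add (P Q : A[X]) : cw φ (P + Q) = cw φ P + cw φ Q := by
  ext n; simp [cw_coeff]

lemma cw_sum {ι : Type*} (s : Finset ι) (P : ι → A[X]) :
    cw φ (∑ i ∈ s, P i) = ∑ i ∈ s, cw φ (P i) := by
  ext n; simp [cw_coeff, Polynomial.finsetSum_coeff]

variable (f : R →+* A) (hφ : ∀ r a, φ (f r * a) = r * φ a)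

include hφ in
lemma cw_mul (p : R[X]) (P : A[X]) : cw φ (p.map f * P) = p * cw φ P := by
  ext n
  rw [cw_coeff, Polynomial.coeff_mul, Polynomial.coeff_mul, map_sum]
  refine Finset.sum_congr rfl fun x _ => ?_
  rw [cw_coeff, Polynomial.coeff_map, hφ]

lemma cw_C (a : A) : cw φ (C a) = C (φ a) := by
  ext n
  rw [cw_coeff, Polynomial.coeff_C, Polynomial.coeff_C]
  split_ifs <;> simp

include hφ in
lemma cw_comp (p : R[X]) (P : A[X]) : cw φ (P.comp (p.map f)) = (cw φ P).comp p := by
  induction P using Polynomial.induction_on' with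
  | add P Q hP hQ => rw [Polynomial.add_comp, cw_add, cw_add, Polynomial.add_comp, hP, hQ]
  | monomial n a =>
    have h1 : cw φ (monomial n a) = monomial n (φ a) := by
      ext k
      rw [cw_coeff, Polynomial.coeff_monomial, Polynomial.coeff_monomial]
      split_ifs <;> simp
    rw [h1, Polynomial.monomial_comp, Polynomial.monomial_comp, mul_comm, ← Polynomial.map_pow,
      cw_mul φ f hφ, cw_C, mul_comm]

include hφ in
lemma cw_dvd (p : R[X]) (P : A[X]) (h : p.map f ∣ P) : p ∣ cw φ P := by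
  obtain ⟨S, rfl⟩ := h
  rw [cw_mul φ f hφ]
  exact Dvd.intro _ rfl

end cw

lemma descartes_real (Q : ℝ[X]) (T : Finset ℕ) (hT : Q.support ⊆ T) {ι : Type*} [Fintype ι]
    (y : ι → ℝ) (ν : ι → ℕ) (hy : ∀ i, 0 < ν i → 0 < y i)
    (hinj : ∀ i i', 0 < ν i → 0 < ν i' → y i = y i' → i = i')
    (hdvd : ∀ i, (X - C (y i)) ^ ν i ∣ Q) (hcard : T.card ≤ ∑ i, ν i) : Q = 0 := by
  classical
  by_contra hQ0
  have hroots : ∑ i, ν i ≤ Q.roots.countP (0 < ·) := by
    rw [Multiset.countP_eq_card_filter]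
    set s := Q.roots.filter (0 < ·) with hs
    set U : Finset ι := Finset.univ.filter fun i => 0 < ν i with hU
    have h1 : ∑ i, ν i = ∑ i ∈ U, ν i := by
      rw [hU, Finset.sum_filter]
      refine Finset.sum_congr rfl fun i _ => ?_
      split_ifs <;> omega
    rw [h1, ← Multiset.sum_count_eq_card (s := s.toFinset ∪ U.image y) (m := s)
      (fun a ha => Finset.mem_union_left _ (Multiset.mem_toFinset.2 ha))]
    refine le_trans ?_ (Finset.sum_le_sum_of_subset Finset.subset_union_right)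
    rw [Finset.sum_image (fun a ha b hb h =>
      hinj a b (Finset.mem_filter.1 ha).2 (Finset.mem_filter.1 hb).2 h)]
    refine Finset.sum_le_sum fun i hi => ?_
    rw [hs, Multiset.count_filter_of_pos (hy i (Finset.mem_filter.1 hi).2), Polynomial.count_roots]
    exact (Polynomial.le_rootMultiplicity_iff hQ0).2 (hdvd i)
  have h5 := Polynomial.roots_countP_pos_le_signVariations Q
  have h6 := signVariations_lt_card _ Q hQ0 rfl
  have h7 := Finset.card_le_card hT
  omega

/-- The rule of signs with multiplicities. -/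
lemma descartes (Q : ℂ[X]) (T : Finset ℕ) (hT : Q.support ⊆ T) {ι : Type*} [Fintype ι]
    (y : ι → ℕ) (ν : ι → ℕ) (hy : ∀ i, 0 < ν i → 0 < y i)
    (hinj : ∀ i i', 0 < ν i → 0 < ν i' → y i = y i' → i = i')
    (hdvd : ∀ i, (X - C (y i : ℂ)) ^ ν i ∣ Q) (hcard : T.card ≤ ∑ i, ν i) : Q = 0 := by
  have key : ∀ φ : ℂ →+ ℝ, (∀ r a, φ (Complex.ofRealHom r * a) = r * φ a) → cw φ Q = 0 := by
    intro φ hφ
    refine descartes_real _ T (fun n hn => hT ?_) (fun i => (y i : ℝ)) ν
      (fun i hi => by exact_mod_cast hy i hi)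
      (fun i i' hi hi' h => hinj i i' hi hi' (by exact_mod_cast h))
      (fun i => cw_dvd φ _ hφ _ _ (by simpa using hdvd i)) hcard
    rw [Polynomial.mem_support_iff] at hn ⊢
    intro h
    rw [cw_coeff, h, map_zero] at hn
    exact hn rfl
  ext n
  have h1 := congrArg (fun P => P.coeff n) (key Complex.reAddGroupHom (by simp))
  have h2 := congrArg (fun P => P.coeff n) (key Complex.imAddGroupHom (by simp))
  simp only [cw_coeff, Polynomial.coeff_zero] at h1 h2
  exact Complex.ext h1 h2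

lemma euler_dvd {F τ : Type*} [Field F] [CharZero F] (T : Finset τ) (e : τ → ℕ) (w : τ → F)
    (Y : F) (hY : Y ≠ 0) (L : ℕ)
    (h0 : ∀ l < L, ∑ t ∈ T, ((e t : F)) ^ l • (w t * Y ^ e t) = 0) :
    (X - C Y) ^ L ∣ ∑ t ∈ T, C (w t) * X ^ e t := by
  set Q : F[X] := ∑ t ∈ T, C (w t) * X ^ e t with hQ
  by_cases hQ0 : Q = 0
  · rw [hQ0]; exact dvd_zero _
  rcases Nat.eq_zero_or_pos L with h | h
  · rw [h, pow_zero]; exact one_dvd _
  have h1 : L - 1 < Q.rootMultiplicity Y := by
    refine Polynomial.lt_rootMultiplicity_of_isRoot_iterate_derivative hQ0 fun m hm => ?_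
    have h2 := poly_comb (K := F) (V := F) T (fun k => (e k : F)) (fun k => w k * Y ^ e k)
      L h0 (descPochhammer F m) (by rw [descPochhammer_natDegree]; omega)
    have h3 : Y ^ m * (derivative^[m] Q).eval Y = 0 := by
      rw [← h2, hQ, Polynomial.iterate_derivative_sum, Polynomial.eval_finsetSum,
        Finset.mul_sum]
      refine Finset.sum_congr rfl fun k _ => ?_
      rw [Polynomial.iterate_derivative_C_mul, Polynomial.iterate_derivative_X_pow_eq_natCast_mul,
        descPochhammer_eval_eq_descFactorial]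
      simp only [eval_mul, eval_C, eval_natCast, eval_pow, eval_X, smul_eq_mul]
      by_cases hmk : m ≤ e k
      · have : Y ^ e k = Y ^ m * Y ^ (e k - m) := by
          rw [← pow_add]; congr 1; omega
        rw [this]; ring
      · rw [Nat.descFactorial_of_lt (by omega)]; simp
    exact (mul_eq_zero.1 h3).resolve_left (pow_ne_zero _ hY)
  exact (Polynomial.le_rootMultiplicity_iff hQ0).1 (by omega)

/-- The coefficient of `t ^ γ`. -/
noncomputable def cf (γ : ℝ) : HL →+ ℂ where
  toFun x := x.coeff γ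
  map_add' x y := by simp
  map_zero' := by simp

lemma cf_apply (γ : ℝ) (x : HL) : cf γ x = x.coeff γ := rfl

lemma cf_C (γ : ℝ) (r : ℂ) (x : HL) : cf γ (HahnSeries.C r * x) = r * cf γ x := by
  rw [cf_apply, cf_apply, HahnSeries.C_mul_eq_smul, HahnSeries.coeff_smul, smul_eq_mul]

/-- The power `t ^ a`. -/
noncomputable def tp (a : ℝ) : HL := HahnSeries.single a (1 : ℂ)

lemma tp_add (a b : ℝ) : tp (a + b) = tp a * tp b := by
  simp [tp, HahnSeries.single_mul_single]

lemma tp_pow (a : ℝ) (n : ℕ) : tp a ^ n = tp (a * n) := by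
  simp [tp, HahnSeries.single_pow, mul_comm]

lemma tp_ne (a : ℝ) : tp a ≠ 0 := by
  simp [tp]

lemma coeff_tp_mul (a γ : ℝ) (x : HL) : (tp a * x).coeff γ = x.coeff (γ - a) := by
  have h2 := HahnSeries.coeff_single_mul_add (r := (1 : ℂ)) (x := x) (a := γ - a) (b := a)
  rw [sub_add_cancel, one_mul] at h2
  exact h2

/-- No terms below `γ`. -/
def Low (γ : ℝ) (x : HL) : Prop := ∀ γ' < γ, x.coeff γ' = 0

lemma Low.mul {γ γ' : ℝ} {x y : HL} (hx : Low γ x) (hy : Low γ' y) : Low (γ + γ') (x * y) := by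
  intro g hg
  rw [HahnSeries.coeff_mul]
  refine Finset.sum_eq_zero fun ij hij => ?_
  have h1 := (Finset.mem_antidiagonal.1 hij).2.2
  rcases lt_or_ge ij.1 γ with h | h
  · rw [hx _ h, zero_mul]
  · rw [hy _ (by linarith), mul_zero]

lemma low_tp (a : ℝ) : Low a (tp a) := fun g hg => by
  simp [tp, hg.ne]

lemma Low.mono {γ γ' : ℝ} {x : HL} (hx : Low γ x) (h : γ' ≤ γ) : Low γ' x :=
  fun g hg => hx g (by linarith)

/-- No terms below `γ` in any coefficient. -/
def LowP (γ : ℝ) (P : HL[X]) : Prop := ∀ n, Low γ (P.coeff n)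

lemma LowP.mul {γ γ' : ℝ} {P Q : HL[X]} (hP : LowP γ P) (hQ : LowP γ' Q) :
    LowP (γ + γ') (P * Q) := by
  intro n g hg
  rw [Polynomial.coeff_mul, HahnSeries.coeff_sum]
  exact Finset.sum_eq_zero fun x _ => (hP _).mul (hQ _) g hg

lemma lowP_C {γ : ℝ} {x : HL} (hx : Low γ x) : LowP γ (C x) := by
  intro n g hg
  rw [Polynomial.coeff_C]
  split_ifs
  · exact hx g hg
  · rfl

lemma LowP.pow {γ : ℝ} {P : HL[X]} (hP : LowP γ P) (n : ℕ) : LowP (γ * n) (P ^ n) := by
  induction n with
  | zero =>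
    have h := lowP_C (low_tp 0)
    simpa [tp] using h
  | succ n ih =>
    have h := ih.mul hP
    rw [pow_succ]
    convert h using 1
    push_cast
    ring

lemma LowP.cw_eq {γ g : ℝ} {P : HL[X]} (hP : LowP γ P) (hg : g < γ) : cw (cf g) P = 0 := by
  ext n
  rw [cw_coeff]
  exact hP n g hg

lemma cw_tp (a γ : ℝ) (P : HL[X]) : cw (cf γ) (C (tp a) * P) = cw (cf (γ - a)) P := by
  ext n
  rw [cw_coeff, cw_coeff, Polynomial.coeff_C_mul]
  exact coeff_tp_mul _ _ _

/-- Passing to a smaller disc. -/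
lemma child_coeff (P : HL[X]) (a : HL) (η η' : ℝ) (s : ℕ) (n : ℕ) (γ : ℝ) :
    ((P.comp (C (a + tp η * s) + C (tp η') * X)).coeff n).coeff (γ + (η' - η) * n) =
      ((cw (cf γ) (P.comp (C a + C (tp η) * X))).comp (X + C (s : ℂ))).coeff n := by
  have h1 : (C (a + tp η * s) + C (tp η') * X : HL[X]) =
      ((C a + C (tp η) * X).comp ((X + C (s : ℂ)).map HahnSeries.C)).comp
        (C (tp (η' - η)) * X) := by
    have h2 : tp η' = tp η * tp (η' - η) := by rw [← tp_add]; congr 1; ring
    rw [h2]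
    simp only [Polynomial.map_add, Polynomial.map_X, map_natCast,
      Polynomial.map_natCast, add_comp, mul_comp, C_comp, X_comp, natCast_comp, map_add, map_mul]
    ring
  rw [h1, ← Polynomial.comp_assoc, ← Polynomial.comp_assoc, Polynomial.comp_C_mul_X_coeff,
    ← cw_comp _ _ (cf_C γ), cw_coeff, tp_pow, mul_comm _ (tp _), coeff_tp_mul, add_sub_cancel_right, cf_apply]

end Pool.Agent.P.MP_8707bd_ag.Irr
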