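import Mathlib
import Pool.Agent.P.MP_8707bd_ag.Irr.TreeA

/-!
The valuation argument on a tree of discs (helper file only).
-/

namespace Pool.Agent.P.MP_8707bd_ag.Irr

open Polynomial Row

/-- The polynomial of row `j`. -/
noncomputable def rowP (d δ J : ℕ) (c : Idx d δ J → HL) (j : Fin (J + 1)) : HL[X] :=
  ∑ ba : (Σ b : Fin δ, Fin (d + 1 - j * δ - b)), C (c ⟨j, ba⟩) * X ^ (δ * ba.2 + ba.1)

lemma expo_inj' (d δ j0 : ℕ) : Function.Injective
    fun ba : (Σ b : Fin δ, Fin (d + 1 - j0 * δ - b)) => δ * (ba.2 : ℕ) + (ba.1 : ℕ) := by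
  rintro ⟨b, a⟩ ⟨b', a'⟩ hab
  simp only at hab
  have hb := b.2
  have hb' := b'.2
  have h1 : (b : ℕ) = b' := by
    have := congrArg (· % δ) hab
    simpa [Nat.mul_add_mod, Nat.mod_eq_of_lt hb, Nat.mod_eq_of_lt hb'] using this
  have h2 : b = b' := Fin.ext h1
  subst h2
  have h3 : (a : ℕ) = a' := by
    have : δ * (a : ℕ) = δ * a' := by omega
    exact Nat.eq_of_mul_eq_mul_left (by omega) this
  rw [Fin.ext h3]

lemma rowP_coeff (d δ J : ℕ) (c : Idx d δ J → HL) (j : Fin (J + 1))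
    (ba : (Σ b : Fin δ, Fin (d + 1 - j * δ - b))) :
    (rowP d δ J c j).coeff (δ * ba.2 + ba.1) = c ⟨j, ba⟩ := by
  rw [rowP, Polynomial.finsetSum_coeff, Finset.sum_eq_single ba]
  · simp
  · intro b _ hb
    have : δ * (ba.2 : ℕ) + ba.1 ≠ δ * b.2 + b.1 := fun h => hb (expo_inj' d δ j h).symm
    simp [Polynomial.coeff_X_pow, this]
  · intro h; exact absurd (Finset.mem_univ _) h

lemma rowP_support (d δ J : ℕ) (c : Idx d δ J → HL) (j : Fin (J + 1)) (n : ℕ)
    (hn : (rowP d δ J c j).coeff n ≠ 0) :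
    ∃ ba : (Σ b : Fin δ, Fin (d + 1 - j * δ - b)), c ⟨j, ba⟩ ≠ 0 ∧ n = δ * ba.2 + ba.1 := by
  rw [rowP, Polynomial.finsetSum_coeff] at hn
  obtain ⟨ba, -, h⟩ := Finset.exists_ne_zero_of_sum_ne_zero hn
  refine ⟨ba, fun h0 => h (by simp [h0]), ?_⟩
  by_contra h1
  exact h (by simp [Polynomial.coeff_X_pow, h1])

lemma point_dvd (d δ J μ : ℕ) (c : Idx d δ J → HL) (a : HL) (η η0 h H ω : ℝ) (y : ℕ)
    (π π0 : ℕ → ℝ) (ha : Low η0 a) (hη : η0 ≤ η) (hY : a + tp η * y ≠ 0)
    (hpos : 0 < h + H - δ * η0)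
    (hH : ∀ j j0 : Fin (J + 1), h * j0 + π j0 - (h * j + π0 j) < h + H - δ * η0)
    (hc : ∀ k l, k + l < μ → ∑ σ : Idx d δ J, MvPolynomial.aeval
      ![tp (h + H) + (a + tp η * y) ^ δ, a + tp η * y, 1]
        (op δ k l (Bas d δ σ.1 σ.2.1 σ.2.2)) * c σ = 0)
    (hlow : ∀ j : Fin (J + 1),
      LowP (ω + π j - H * j) ((rowP d δ J c j).comp (C a + C (tp η) * X)))
    (hlow0 : ∀ σ : Idx d δ J,
      Low (ω + π0 σ.1 - H * σ.1 - η0 * ((δ * σ.2.2 + σ.2.1 : ℕ) : ℝ)) (c σ))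
    (j0 : Fin (J + 1)) :
    (X - C (y : ℂ)) ^ (μ - rk J π h j0) ∣
      cw (cf (ω + π j0 - H * j0)) ((rowP d δ J c j0).comp (C a + C (tp η) * X)) := by
  classical
  rcases Nat.eq_zero_or_pos (μ - rk J π h j0) with hL | hL
  · rw [hL, pow_zero]; exact one_dvd _
  set ch : Finset ℕ := (Finset.range (J + 1)).filter
    fun j' : ℕ => j' ≠ j0 ∧ h * j' + π j' ≤ h * j0 + π j0 with hch
  have hrk : rk J π h j0 = ch.card := rfl
  set q : ℂ[X] := ∏ j' ∈ ch, (X - C (j' : ℂ)) with hq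
  have hqdeg : q.natDegree = ch.card := by
    rw [hq, Polynomial.natDegree_finsetProd_X_sub_C_eq_card]
  have hq0 : ∀ j' ∈ ch, q.eval (j' : ℂ) = 0 := by
    intro j' hj'
    rw [hq, Polynomial.eval_prod]
    exact Finset.prod_eq_zero hj' (by simp)
  have hq1 : q.eval ((j0 : ℕ) : ℂ) ≠ 0 := by
    rw [hq, Polynomial.eval_prod]
    refine Finset.prod_ne_zero_iff.2 fun j' hj' => ?_
    have hne : j' ≠ j0 := (Finset.mem_filter.1 hj').2.1
    simp only [Polynomial.eval_sub, Polynomial.eval_X, Polynomial.eval_C]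
    rw [sub_ne_zero]
    exact fun h => hne (Nat.cast_injective (R := ℂ) h).symm
  set Y : HL := a + tp η * y with hYd
  set z : HL := tp (h + H) with hz
  set T := (Finset.univ : Finset (Idx d δ J)).sigma fun σ => Finset.range ((σ.2.2 : ℕ) + 1)
    with hT
  set e : (Σ _ : Idx d δ J, ℕ) → ℕ := fun t => δ * ((t.1.2.2 : ℕ) - t.2) + t.1.2.1 with he
  set w : (Σ _ : Idx d δ J, ℕ) → HL := fun t =>
    HahnSeries.C (q.eval (((t.1.1 : ℕ) + t.2 : ℕ) : ℂ) * ((t.1.2.2 : ℕ).choose t.2 : ℕ)) *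
      (z ^ ((t.1.1 : ℕ) + t.2) * c t.1) with hw
  have h1 : (X - C Y) ^ (μ - rk J π h j0) ∣ ∑ t ∈ T, C (w t) * X ^ e t := by
    have : CharZero HL := charZero_of_injective_ringHom (HahnSeries.C : ℂ →+* HL).injective
    refine euler_dvd T e w Y hY _ fun l hl => ?_
    have key := poly_comb (K := HL) (V := HL) T
      (fun t => (((t.1.1 : ℕ) + t.2 : ℕ) : HL))
      (fun t => ((e t : HL) ^ l * (((t.1.2.2 : ℕ).choose t.2 : ℕ) : HL)) *
        (z ^ ((t.1.1 : ℕ) + t.2) * Y ^ e t * c t.1))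
      (ch.card + 1) (by
        intro k hk
        rw [← hc k l (by omega), hT, Finset.sum_sigma]
        refine Finset.sum_congr rfl fun σ _ => ?_
        rw [aeval_op_Bas, Finset.sum_mul]
        refine Finset.sum_congr rfl fun s _ => ?_
        simp only [he, smul_eq_mul, nsmul_eq_mul]
        push_cast
        ring) (q.map HahnSeries.C) (by
          have := Polynomial.natDegree_map_le (f := (HahnSeries.C : ℂ →+* HL)) (p := q)
          omega)
    rw [← key]
    refine Finset.sum_congr rfl fun t _ => ?_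
    have h2 : (q.map (HahnSeries.C : ℂ →+* HL)).eval (((t.1.1 : ℕ) + t.2 : ℕ) : HL) =
        HahnSeries.C (q.eval (((t.1.1 : ℕ) + t.2 : ℕ) : ℂ)) := by
      rw [← map_natCast (HahnSeries.C : ℂ →+* HL), Polynomial.eval_map, Polynomial.eval₂_at_apply]
    simp only [h2, hw, smul_eq_mul, map_mul, map_natCast]
    ring
  set A : HL[X] := C a + C (tp η) * X with hA
  have h2 : ((X - C (y : ℂ)) ^ (μ - rk J π h j0)).map HahnSeries.C ∣
      (∑ t ∈ T, C (w t) * X ^ e t).comp A := by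
    obtain ⟨S, hS⟩ := h1
    rw [hS, Polynomial.mul_comp, Polynomial.pow_comp]
    have h3 : (X - C Y).comp A = C (tp η) * (X - C (y : ℂ)).map HahnSeries.C := by
      simp only [hA, hYd, Polynomial.map_sub, Polynomial.map_X, map_natCast,
        Polynomial.map_natCast, sub_comp, X_comp, C_comp, map_add, map_mul, add_comp, mul_comp,
        natCast_comp]
      ring
    rw [h3, mul_pow, Polynomial.map_pow]
    exact ⟨C (tp η) ^ (μ - rk J π h j0) * S.comp A, by ring⟩
  have h4 := cw_dvd (cf (ω + π j0 + h * j0)) _ (cf_C _) _ _ h2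
  have hAlow : LowP η0 A := by
    intro n g hg
    rw [hA, Polynomial.coeff_add, HahnSeries.coeff_add, lowP_C ha n g hg, Polynomial.coeff_C_mul,
      Polynomial.coeff_X]
    split_ifs
    · rw [mul_one, (low_tp η).mono hη g hg, add_zero]
    · simp
  have h5 : ∀ (r : ℂ) (u : HL) (P : HL[X]) (γ : ℝ),
      cw (cf γ) (C (HahnSeries.C r * u) * P) = C r * cw (cf γ) (C u * P) := by
    intro r u P γ
    rw [← cw_mul _ _ (cf_C γ), Polynomial.map_C, map_mul, mul_assoc]
  have h6 : cw (cf (ω + π j0 + h * j0)) ((∑ t ∈ T, C (w t) * X ^ e t).comp A) =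
      C (q.eval ((j0 : ℕ) : ℂ)) * cw (cf (ω + π j0 - H * j0)) ((rowP d δ J c j0).comp A) := by
    rw [Polynomial.sum_comp, cw_sum, hT, Finset.sum_sigma]
    have step1 : ∀ σ ∈ (Finset.univ : Finset (Idx d δ J)),
        ∑ s ∈ Finset.range ((σ.2.2 : ℕ) + 1), cw (cf (ω + π j0 + h * j0))
          ((C (w ⟨σ, s⟩) * X ^ e ⟨σ, s⟩).comp A) =
        C (q.eval ((σ.1 : ℕ) : ℂ)) * cw (cf (ω + π j0 + h * j0 - (h + H) * σ.1))
          ((C (c σ) * X ^ (δ * σ.2.2 + σ.2.1)).comp A) := by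
      intro σ _
      rw [Finset.sum_eq_single 0]
      · simp only [hw, he, Polynomial.mul_comp, C_comp, pow_comp, X_comp, h5, hz, tp_pow]
        rw [map_mul C (tp _), mul_assoc (C (tp _)), cw_tp]
        simp
      · intro s hs0 hs
        have hs1 : (1 : ℝ) ≤ s := by exact_mod_cast Nat.one_le_iff_ne_zero.2 hs
        have hs2 : s ≤ (σ.2.2 : ℕ) := by have := Finset.mem_range.1 hs0; omega
        simp only [hw, he, Polynomial.mul_comp, C_comp, pow_comp, X_comp, h5, hz, tp_pow]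
        rw [((lowP_C ((low_tp _).mul (hlow0 σ))).mul (hAlow.pow _)).cw_eq (by
          have h1 := hH σ.1 j0
          have h2 : h + H - δ * η0 ≤ s * (h + H - δ * η0) := le_mul_of_one_le_left hpos.le hs1
          push_cast [Nat.cast_sub hs2]
          nlinarith), mul_zero]
      · intro h0; exact absurd (Finset.mem_range.2 (Nat.succ_pos _)) h0
    rw [Finset.sum_congr rfl step1, Fintype.sum_sigma]
    have step2 : ∀ j : Fin (J + 1), ∑ ba : (Σ b : Fin δ, Fin (d + 1 - j * δ - b)),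
        C (q.eval ((j : ℕ) : ℂ)) * cw (cf (ω + π j0 + h * j0 - (h + H) * j))
          ((C (c ⟨j, ba⟩) * X ^ (δ * ba.2 + ba.1)).comp A) =
        C (q.eval ((j : ℕ) : ℂ)) * cw (cf (ω + π j0 + h * j0 - (h + H) * j))
          ((rowP d δ J c j).comp A) := by
      intro j
      rw [← Finset.mul_sum, rowP, Polynomial.sum_comp, cw_sum]
    rw [Finset.sum_congr rfl fun j _ => step2 j, Finset.sum_eq_single j0]
    · congr 3
      ring
    · intro j _ hj
      by_cases hle : h * j + π j ≤ h * j0 + π j0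
      · rw [hq0 _ (Finset.mem_filter.2
          ⟨Finset.mem_range.2 j.2, fun h => hj (Fin.ext h), hle⟩), map_zero, zero_mul]
      · rw [(hlow j).cw_eq (by push Not at hle; nlinarith), mul_zero]
    · intro h0; exact absurd (Finset.mem_univ _) h0
  rw [h6] at h4
  exact (Polynomial.isUnit_C.2 (Ne.isUnit hq1)).dvd_mul_left.1 h4

lemma exists_centre {K : Type} [Finite K] (rt : K) (par : K → K) (η : K → ℝ)
    (hη : ∀ k ≠ rt, η (par k) < η k) (s : K → ℕ) : ∃ a : K → HL, a rt = 0 ∧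
      (∀ k ≠ rt, a k = a (par k) + tp (η (par k)) * s k) ∧
      ∀ k, η rt ≤ η k ∧ Low (η rt) (a k) ∧ ∀ γ, η k ≤ γ → (a k).coeff γ = 0 := by
  classical
  have wf : WellFounded fun x y : K => η x < η y :=
    haveI : IsTrans K fun x y => η x < η y := ⟨fun _ _ _ => lt_trans⟩
    haveI : Std.Irrefl fun x y : K => η x < η y := ⟨fun _ => lt_irrefl _⟩
    Finite.wellFounded_of_trans_of_irrefl _
  set a : K → HL := wf.fix fun k f =>
    if h : k = rt then 0 else f (par k) (hη k h) + tp (η (par k)) * s k with ha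
  have h0 : a rt = 0 := by rw [ha, wf.fix_eq, dif_pos rfl]
  have h1 : ∀ k ≠ rt, a k = a (par k) + tp (η (par k)) * s k := by
    intro k hk
    rw [ha, wf.fix_eq, dif_neg hk]
  refine ⟨a, h0, h1, fun k => ?_⟩
  induction k using wf.induction with
  | _ k ih =>
    by_cases hk : k = rt
    · subst hk
      rw [h0]
      exact ⟨le_rfl, fun _ _ => rfl, fun _ _ => rfl⟩
    obtain ⟨i1, i2, i3⟩ := ih _ (hη k hk)
    have i4 := hη k hk
    have i5 : ∀ γ, γ ≠ η (par k) → (tp (η (par k)) * (s k : HL)).coeff γ = 0 := by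
      intro γ hγ
      rw [coeff_tp_mul, ← map_natCast (HahnSeries.C : ℂ →+* HL), HahnSeries.C_apply,
        HahnSeries.coeff_single_of_ne (sub_ne_zero.2 hγ)]
    rw [h1 k hk]
    refine ⟨by linarith, fun γ hγ => ?_, fun γ hγ => ?_⟩
    · rw [HahnSeries.coeff_add, i2 γ hγ, i5 γ (by linarith [hγ] : γ < η (par k)).ne, add_zero]
    · rw [HahnSeries.coeff_add, i3 γ (by linarith),
        i5 γ (by linarith : η (par k) < γ).ne', add_zero]

end Pool.Agent.P.MP_8707bd_ag.Irr
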