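import Mathlib
import Pool.Agent.P.MP_8707bd_ag.Irr.TreeB

/-!
The criterion with a tree of layers, discrete form (helper file only).
-/

namespace Pool.Agent.P.MP_8707bd_ag.Irr

open Polynomial Row

/-- The number of conditions which the children and the points of the vertex `k` impose on
row `j`. -/
noncomputable def tot {r : ℕ} {K : Type} [Fintype K] [DecidableEq K] (J : ℕ) (μ : Fin r → ℕ)
    (rt : K) (par : K → K) (G : K → ℕ → ℝ) (lo : K → ℕ → ℕ) (ph : Fin r → K) (h : Fin r → ℝ)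
    (k : K) (j : ℕ) : ℕ :=
  ∑ w, (if w ≠ rt ∧ par w = k then lo w j else 0) +
    ∑ i, if ph i = k then μ i - rk J (G k) (h i) j else 0

lemma comp_lin_ne {P : HL[X]} (hP : P ≠ 0) (a : HL) (η : ℝ) :
    P.comp (C a + C (tp η) * X) ≠ 0 := by
  intro h
  rcases Polynomial.comp_eq_zero_iff.1 h with h1 | ⟨-, h1⟩
  · exact hP h1
  · have := congrArg (fun Q : HL[X] => Q.coeff 1) h1
    simp [Polynomial.coeff_C, tp_ne] at this

lemma tree_inj (r d δ J : ℕ) (μ : Fin r → ℕ) {K : Type} [Fintype K] [DecidableEq K] (rt : K)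
    (par : K → K) (G : K → ℕ → ℝ) (η : K → ℝ) (lo : K → ℕ → ℕ)
    (hlo : ∀ k ≠ rt, ∀ j ≤ J, ∀ α : ℕ, (α ≤ δ * d ∨ α < lo k j) →
      (α < lo k j ↔ G (par k) j - η (par k) * α < G k j - η k * α))
    (hη : ∀ k ≠ rt, η (par k) < η k) (ph : Fin r → K) (h : Fin r → ℝ) (H : ℝ)
    (hpos : ∀ i, 0 < h i + H - δ * η rt)
    (hH : ∀ i, ∀ j j0 : Fin (J + 1),
      h i * j0 + G (ph i) j0 - (h i * j + G rt j) < h i + H - δ * η rt)
    (s : K → ℕ) (hs : Function.Injective s) (hs0 : ∀ k, 0 < s k) (y : Fin r → ℕ)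
    (hy : Function.Injective y) (hys : ∀ i k, s k < y i) (a : K → HL) (a0 : a rt = 0)
    (a1 : ∀ k ≠ rt, a k = a (par k) + tp (η (par k)) * s k)
    (a2 : ∀ k, η rt ≤ η k ∧ Low (η rt) (a k) ∧ ∀ γ, η k ≤ γ → (a k).coeff γ = 0)
    (S : (j : Fin (J + 1)) → Finset (Σ b : Fin δ, Fin (d + 1 - j * δ - b)))
    (hrt : ∀ j : Fin (J + 1), (S j)ᶜ.card ≤ tot J μ rt par G lo ph h rt j)
    (hcov : ∀ j ≤ J, ∀ k ≠ rt, lo k j ≤ tot J μ rt par G lo ph h k j)
    (c : Idx d δ J → HL) (hcS : ∀ σ : Idx d δ J, σ.2 ∈ S σ.1 → c σ = 0)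
    (hc : ∀ i k l, k + l < μ i → ∑ σ : Idx d δ J, MvPolynomial.aeval
      ![tp (h i + H) + (a (ph i) + tp (η (ph i)) * y i) ^ δ, a (ph i) + tp (η (ph i)) * y i, 1]
        (op δ k l (Bas d δ σ.1 σ.2.1 σ.2.2)) * c σ = 0) : c = 0 := by
  classical
  by_contra hne
  set R : K → Fin (J + 1) → HL[X] :=
    fun k j => (rowP d δ J c j).comp (C (a k) + C (tp (η k)) * X) with hR
  have hex : ((Finset.univ : Finset (K × Fin (J + 1))).sigma
      fun kj => (R kj.1 kj.2).support).Nonempty := by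
    obtain ⟨⟨j, ba⟩, hσ⟩ := Function.ne_iff.1 hne
    have h1 : rowP d δ J c j ≠ 0 := fun h0 => hσ (by
      rw [← rowP_coeff d δ J c j ba, h0]; rfl)
    obtain ⟨n, hn⟩ := Polynomial.support_nonempty.2 (comp_lin_ne h1 (a rt) (η rt))
    exact ⟨⟨(rt, j), n⟩, Finset.mem_sigma.2 ⟨Finset.mem_univ _, hn⟩⟩
  obtain ⟨t0, ht0, hmin⟩ := Finset.exists_min_image _
    (fun t : (Σ _ : K × Fin (J + 1), ℕ) =>
      ((R t.1.1 t.1.2).coeff t.2).order - (G t.1.1 t.1.2 - H * t.1.2)) hex
  set ω : ℝ := ((R t0.1.1 t0.1.2).coeff t0.2).order - (G t0.1.1 t0.1.2 - H * t0.1.2) with hω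
  have hlow : ∀ k (j : Fin (J + 1)), LowP (ω + G k j - H * j) (R k j) := by
    intro k j n γ hγ
    by_cases h0 : (R k j).coeff n = 0
    · rw [h0]; rfl
    · have := hmin ⟨(k, j), n⟩
        (Finset.mem_sigma.2 ⟨Finset.mem_univ _, Polynomial.mem_support_iff.2 h0⟩)
      exact HahnSeries.coeff_eq_zero_of_lt_order (by simp only at this; linarith)
  set Q : K → Fin (J + 1) → ℂ[X] := fun k j => cw (cf (ω + G k j - H * j)) (R k j) with hQ
  have hex2 : ((Finset.univ : Finset (K × Fin (J + 1))).filter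
      fun kj => Q kj.1 kj.2 ≠ 0).Nonempty := by
    refine ⟨t0.1, Finset.mem_filter.2 ⟨Finset.mem_univ _, fun h0 => ?_⟩⟩
    have h1 := congrArg (fun P : ℂ[X] => P.coeff t0.2) h0
    simp only [hQ, cw_coeff, cf_apply, Polynomial.coeff_zero] at h1
    rw [show ω + G t0.1.1 t0.1.2 - H * t0.1.2 = ((R t0.1.1 t0.1.2).coeff t0.2).order by
      rw [hω]; ring] at h1
    exact Polynomial.mem_support_iff.1 (Finset.mem_sigma.1 ht0).2
      (HahnSeries.coeff_order_eq_zero.1 h1)
  obtain ⟨⟨k0, j0⟩, hk0, hmin2⟩ := Finset.exists_min_image _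
    (fun kj : K × Fin (J + 1) => η kj.1) hex2
  have hQ0 : Q k0 j0 ≠ 0 := (Finset.mem_filter.1 hk0).2
  have hj0 : (j0 : ℕ) ≤ J := by have := j0.2; omega
  have hroot : ∀ (j : Fin (J + 1)) (n : ℕ),
      (R rt j).coeff n = (rowP d δ J c j).coeff n * tp (η rt * n) := by
    intro j n
    simp only [hR, a0, map_zero, zero_add]
    rw [Polynomial.comp_C_mul_X_coeff, tp_pow]
  have hlow0 : ∀ σ : Idx d δ J,
      Low (ω + G rt σ.1 - H * σ.1 - η rt * ((δ * σ.2.2 + σ.2.1 : ℕ) : ℝ)) (c σ) := by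
    rintro ⟨j, ba⟩ γ hγ
    have h1 := hlow rt j (δ * ba.2 + ba.1) (γ + η rt * ((δ * ba.2 + ba.1 : ℕ) : ℝ))
      (by simp only at hγ; linarith)
    rwa [hroot, rowP_coeff, mul_comm, coeff_tp_mul, add_sub_cancel_right] at h1
  have hchild : ∀ w ≠ rt, ∀ (j : Fin (J + 1)) (n : ℕ) (γ : ℝ),
      ((R w j).coeff n).coeff (γ + (η w - η (par w)) * n) =
        ((cw (cf γ) (R (par w) j)).comp (X + C (s w : ℂ))).coeff n := by
    intro w hw j n γ
    simp only [hR, a1 w hw]
    exact child_coeff _ _ _ _ _ _ _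
  have hT : ∃ T : Finset ℕ, (Q k0 j0).support ⊆ T ∧ T.card ≤ tot J μ rt par G lo ph h k0 j0 := by
    by_cases hk : k0 = rt
    · subst hk
      refine ⟨(S j0)ᶜ.image fun ba => δ * (ba.2 : ℕ) + (ba.1 : ℕ), fun n hn => ?_,
        Finset.card_image_le.trans (hrt j0)⟩
      have h1 : (rowP d δ J c j0).coeff n ≠ 0 := by
        intro h0
        refine Polynomial.mem_support_iff.1 hn ?_
        simp only [hQ, cw_coeff]
        rw [hroot, h0, zero_mul, map_zero]
      obtain ⟨ba, h2, h3⟩ := rowP_support d δ J c j0 n h1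
      exact Finset.mem_image.2 ⟨ba, Finset.mem_compl.2 fun h4 => h2 (hcS ⟨j0, ba⟩ h4), h3.symm⟩
    · refine ⟨Finset.range (lo k0 j0), fun n hn => ?_, by
        rw [Finset.card_range]; exact hcov j0 hj0 k0 hk⟩
      have hn' := Polynomial.mem_support_iff.1 hn
      have hdeg : n ≤ δ * d := by
        have h1 : (R k0 j0).coeff n ≠ 0 := fun h0 => hn' (by
          simp only [hQ, cw_coeff]; rw [h0, map_zero])
        have h2 := Polynomial.le_natDegree_of_ne_zero h1
        have h3 : (R k0 j0).natDegree ≤ (rowP d δ J c j0).natDegree * 1 :=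
          Polynomial.natDegree_comp_le.trans (Nat.mul_le_mul_left _ (by
            rw [add_comm]; exact Polynomial.natDegree_linear_le))
        have h4 : (rowP d δ J c j0).natDegree ≤ δ * d := by
          rw [Polynomial.natDegree_le_iff_coeff_eq_zero]
          intro N hN
          by_contra h5
          obtain ⟨ba, -, h6⟩ := rowP_support d δ J c j0 N h5
          have h7 := ba.2.2
          have h8 := ba.1.2
          have h9 := Nat.mul_le_mul_left δ (show (ba.2 : ℕ) + (ba.1 : ℕ) ≤ d by omega)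
          have h10 : (ba.1 : ℕ) ≤ δ * ba.1 := Nat.le_mul_of_pos_left _ (by omega)
          nlinarith
        omega
      rw [Finset.mem_range, hlo k0 hk j0 hj0 n (Or.inl hdeg)]
      by_contra hcon
      push Not at hcon
      apply hn'
      simp only [hQ, cw_coeff, cf_apply]
      have h1 := hchild k0 hk j0 n (ω + G k0 j0 - H * j0 - (η k0 - η (par k0)) * n)
      rw [sub_add_cancel] at h1
      rw [h1]
      have h2 : cw (cf (ω + G k0 j0 - H * j0 - (η k0 - η (par k0)) * n)) (R (par k0) j0) = 0 := by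
        rcases hcon.lt_or_eq with h3 | h3
        · exact (hlow _ _).cw_eq (by linarith)
        · by_contra h4
          have h5 := hmin2 (par k0, j0) (Finset.mem_filter.2 ⟨Finset.mem_univ _, by
            simp only [hQ]
            rwa [show ω + G (par k0) j0 - H * j0 =
              ω + G k0 j0 - H * j0 - (η k0 - η (par k0)) * n by linarith]⟩)
          exact absurd (hη k0 hk) (not_lt.2 h5)
      rw [h2, Polynomial.zero_comp, Polynomial.coeff_zero]
  obtain ⟨T, hT1, hT2⟩ := hT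
  refine hQ0 (descartes _ T hT1 (ι := K ⊕ Fin r) (Sum.elim s y)
    (Sum.elim (fun w => if w ≠ rt ∧ par w = k0 then lo w j0 else 0)
      (fun i => if ph i = k0 then μ i - rk J (G k0) (h i) j0 else 0)) ?_ ?_ ?_ ?_)
  · rintro (w | i) -
    · exact hs0 w
    · exact lt_of_le_of_lt (Nat.zero_le _) (hys i rt)
  · rintro (w | i) (w' | i') - - h1
    · exact congrArg _ (hs h1)
    · exact absurd h1 (hys i' w).ne
    · exact absurd h1 (hys i w').ne'
    · exact congrArg _ (hy h1)
  · rintro (w | i)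
    · simp only [Sum.elim_inl]
      split_ifs with hw
      · obtain ⟨hw1, hw2⟩ := hw
        have h1 : X ^ lo w j0 ∣ (Q k0 j0).comp (X + C (s w : ℂ)) := by
          rw [Polynomial.X_pow_dvd_iff]
          intro n hn
          have h2 := (hlo w hw1 j0 hj0 n (Or.inr hn)).1 hn
          simp only [hQ]
          rw [← hw2, ← hchild w hw1]
          exact hlow w j0 n _ (by linarith)
        obtain ⟨U, hU⟩ := h1
        refine ⟨U.comp (X - C (s w : ℂ)), ?_⟩
        have h3 := congrArg (fun P : ℂ[X] => P.comp (X - C (s w : ℂ))) hU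
        simpa [Polynomial.comp_assoc] using h3
      · rw [pow_zero]; exact one_dvd _
    · simp only [Sum.elim_inr]
      split_ifs with hi
      · subst hi
        refine point_dvd d δ J (μ i) c _ _ (η rt) (h i) H ω (y i) (G (ph i)) (G rt)
          (a2 _).2.1 (a2 _).1 (fun h0 => ?_) (hpos i) (hH i) (hc i) (hlow _) hlow0 j0
        have h1 := congrArg (fun x : HL => x.coeff (η (ph i))) h0
        simp only [HahnSeries.coeff_add, (a2 _).2.2 _ le_rfl, coeff_tp_mul, sub_self,
          zero_add, HahnSeries.coeff_zero] at h1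
        rw [← map_natCast (HahnSeries.C : ℂ →+* HL), HahnSeries.C_apply,
          HahnSeries.coeff_single_same] at h1
        have h2 := hys i rt
        have h3 : y i = 0 := by exact_mod_cast h1
        omega
      · rw [pow_zero]; exact one_dvd _
  · rw [Fintype.sum_sum_type]
    exact hT2

/-- The upper bound for the dimension given by a tree of layers. -/
theorem tree_bound (r d δ J : ℕ) (hδ : 0 < δ) (hJ : d < (J + 1) * δ) (μ : Fin r → ℕ)
    {K : Type} [Fintype K] [DecidableEq K] (rt : K)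
    (par : K → K) (G : K → ℕ → ℝ) (η : K → ℝ) (lo : K → ℕ → ℕ)
    (hlo : ∀ k ≠ rt, ∀ j ≤ J, ∀ α : ℕ, (α ≤ δ * d ∨ α < lo k j) →
      (α < lo k j ↔ G (par k) j - η (par k) * α < G k j - η k * α))
    (hη : ∀ k ≠ rt, η (par k) < η k) (ph : Fin r → K) (h : Fin r → ℝ)
    (hcov : ∀ j ≤ J, ∀ k ≠ rt, lo k j ≤ tot J μ rt par G lo ph h k j) :
    ∃ Φ : MvPolynomial (Fin r × Fin 3) ℂ, Φ ≠ 0 ∧ ∀ p : Fin r → Fin 3 → ℂ,
      MvPolynomial.eval (fun ij : Fin r × Fin 3 => p ij.1 ij.2) Φ ≠ 0 →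
      Module.finrank ℂ (fat p μ d) ≤
        ∑ j ∈ Finset.range (J + 1), (rowLen d δ j - tot J μ rt par G lo ph h rt j) := by
  classical
  obtain ⟨H0, hH0⟩ := Finite.exists_le fun t : Fin r × Fin (J + 1) × Fin (J + 1) =>
    max 0 (h t.1 * t.2.2 + G (ph t.1) t.2.2 - (h t.1 * t.2.1 + G rt t.2.1)) - h t.1 + δ * η rt
  have hcard : ∀ j : Fin (J + 1),
      Fintype.card (Σ b : Fin δ, Fin (d + 1 - j * δ - b)) = rowLen d δ j := by
    intro j
    rw [Fintype.card_sigma, rowLen, ← Fin.sum_univ_eq_sum_range (fun b => d + 1 - j * δ - b)]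
    simp
  have hSex : ∀ j : Fin (J + 1), ∃ S : Finset (Σ b : Fin δ, Fin (d + 1 - j * δ - b)),
      S.card = rowLen d δ j - tot J μ rt par G lo ph h rt j := by
    intro j
    obtain ⟨S, _, hS⟩ := Finset.exists_subset_card_eq
      (s := (Finset.univ : Finset (Σ b : Fin δ, Fin (d + 1 - j * δ - b))))
      (n := rowLen d δ j - tot J μ rt par G lo ph h rt j) (by
        rw [Finset.card_univ, hcard]; omega)
    exact ⟨S, hS⟩
  choose S hS using hSex
  set s : K → ℕ := fun k => (Fintype.equivFin K k : ℕ) + 1 with hs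
  obtain ⟨a, a0, a1, a2⟩ := exists_centre rt par η hη s
  set y : Fin r → ℕ := fun i => Fintype.card K + 1 + i with hy
  set P : Fin r → Fin 3 → HL := fun i => ![tp (h i + (H0 + 1)) +
    (a (ph i) + tp (η (ph i)) * y i) ^ δ, a (ph i) + tp (η (ph i)) * y i, 1] with hP
  obtain ⟨f, hf⟩ := exists_minor ((condMat r d δ J μ S).map
    (MvPolynomial.aeval (fun ij : Fin r × Fin 3 => P ij.1 ij.2))) (by
      intro c hc
      rw [condMat_mulVec] at hc
      refine tree_inj r d δ J μ rt par G η lo hlo hη ph h (H0 + 1) (fun i => ?_)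
        (fun i j j0 => ?_) s (fun k k' hk => ?_) (fun k => Nat.succ_pos _) y
        (fun i i' hi => Fin.ext (by simpa [hy] using hi)) (fun i k => ?_) a a0 a1 a2 S
        (fun j => ?_) hcov c hc.1 hc.2
      · have := hH0 (i, 0, 0)
        simp only at this
        linarith [le_max_left 0 (h i * ((0 : Fin (J + 1)) : ℕ) + G (ph i) (0 : Fin (J + 1)) -
          (h i * ((0 : Fin (J + 1)) : ℕ) + G rt (0 : Fin (J + 1))))]
      · have := hH0 (i, j, j0)
        simp only at this
        linarith [le_max_right 0 (h i * j0 + G (ph i) j0 - (h i * j + G rt j))]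
      · exact (Fintype.equivFin K).injective (Fin.ext (by simpa [hs] using hk))
      · have := (Fintype.equivFin K k).2
        simp only [hs, hy]
        omega
      · rw [Finset.card_compl, hcard, hS]
        omega)
  refine ⟨((condMat r d δ J μ S).submatrix f id).det, fun h0 => hf ?_, fun p hp => ?_⟩
  · have := AlgHom.map_det
      (MvPolynomial.aeval (fun ij : Fin r × Fin 3 => P ij.1 ij.2))
      ((condMat r d δ J μ S).submatrix f id)
    rw [h0, map_zero] at this
    exact this.symm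
  · have h1 : (((condMat r d δ J μ S).map
        (MvPolynomial.aeval (fun ij : Fin r × Fin 3 => p ij.1 ij.2))).submatrix f id).det ≠ 0 := by
      have := AlgHom.map_det
        (MvPolynomial.aeval (fun ij : Fin r × Fin 3 => p ij.1 ij.2))
        ((condMat r d δ J μ S).submatrix f id)
      intro h2
      exact hp (this.trans h2)
    have h3 := finrank_le_of_inj r d δ J hδ hJ μ S p (fun c hc1 hc2 =>
      inj_of_minor _ f h1 c ((condMat_mulVec r d δ J μ S p c).2 ⟨hc1, hc2⟩))
    rw [← Fin.sum_univ_eq_sum_range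
      (fun j => rowLen d δ j - tot J μ rt par G lo ph h rt j) (J + 1)]
    exact h3.trans (Finset.sum_congr rfl fun j _ => hS j).le

end Pool.Agent.P.MP_8707bd_ag.Irr
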