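import Mathlib
import Pool.Agent.P.MP_8707bd_ag.Row

/-!
The valuation argument with layers: both coordinates of the special points have a valuation,
and every row of monomials is split in layers, each treated by its own group of points
(helper file only).
-/

namespace Pool.Agent.P.MP_8707bd_ag.Irr

open MvPolynomial Row

lemma coeff_term (a η : ℝ) (n α : ℕ) (y : ℂ) (x : HL) (γ : ℝ) :
    ((HahnSeries.single a (1 : ℂ) : HL) ^ n * (HahnSeries.single η y : HL) ^ α * x).coeff γ =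
      y ^ α * x.coeff (γ - (n * a + α * η)) := by
  rw [HahnSeries.single_pow, HahnSeries.single_pow, HahnSeries.single_mul_single, one_pow,
    one_mul, nsmul_eq_mul, nsmul_eq_mul]
  have h2 := HahnSeries.coeff_single_mul_add (r := y ^ α) (x := x) (a := γ - (n * a + α * η))
    (b := n * a + α * η)
  rw [sub_add_cancel] at h2
  exact h2

/-- The special points. -/
noncomputable def spPt (δ : ℕ) {r : ℕ} (a η : Fin r → ℝ) (i : Fin r) : Fin 3 → HL :=
  ![HahnSeries.single (a i) (1 : ℂ) +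
      (HahnSeries.single (η i) (((i : ℕ) + 1 : ℕ) : ℂ) : HL) ^ δ,
    HahnSeries.single (η i) (((i : ℕ) + 1 : ℕ) : ℂ), 1]

lemma leading_eq (r d δ J m : ℕ) (ψ : Idx d δ J → ℝ) (π : ℕ → ℝ) (h η : Fin r → ℝ) (H : ℝ)
    (i : Fin r)
    (hψ : ∀ σ : Idx d δ J, π σ.1 ≤ ψ σ + η i * ((δ * σ.2.2 + σ.2.1 : ℕ) : ℝ))
    (hH : ∀ j j0 : Fin (J + 1), h i * j0 + π j0 - (h i * j + π j) < h i + H - δ * η i)
    (c : Idx d δ J → HL)
    (hc : ∀ k l, k + l < m →
      ∑ σ : Idx d δ J, MvPolynomial.aeval (spPt δ (fun i => h i + H) η i)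
        (op δ k l (Bas d δ σ.1 σ.2.1 σ.2.2)) * c σ = 0)
    (ω : ℝ) (hlow : ∀ σ : Idx d δ J, ∀ γ, γ < ω + (ψ σ - H * σ.1) → (c σ).coeff γ = 0)
    (j0 : Fin (J + 1)) (l : ℕ) (hl : l < m - rk J π (h i) j0) :
    ∑ ba : (Σ b : Fin δ, Fin (d + 1 - j0 * δ - b)),
      ((((δ * ba.2 + ba.1) ^ l * ((i : ℕ) + 1) ^ (δ * ba.2 + ba.1) : ℕ) : ℂ)) *
        (c ⟨j0, ba⟩).coeff (ω + (π j0 - η i * ((δ * ba.2 + ba.1 : ℕ) : ℝ) - H * j0)) = 0 := by
  classical
  set ch : Finset ℕ := (Finset.range (J + 1)).filter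
    fun j' : ℕ => j' ≠ j0 ∧ h i * j' + π j' ≤ h i * j0 + π j0 with hch
  have hrk : rk J π (h i) j0 = ch.card := rfl
  set q : Polynomial ℂ := ∏ j' ∈ ch, (Polynomial.X - Polynomial.C (j' : ℂ)) with hq
  have hqdeg : q.natDegree = ch.card := by
    rw [hq, Polynomial.natDegree_finsetProd_X_sub_C_eq_card]
  have hq0 : ∀ j' ∈ ch, q.eval (j' : ℂ) = 0 := by
    intro j' hj'
    rw [hq, Polynomial.eval_prod]
    exact Finset.prod_eq_zero hj' (by simp)
  have hq1 : q.eval ((j0 : ℕ) : ℂ) ≠ 0 := by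
    rw [hq, Polynomial.eval_prod]
    refine Finset.prod_ne_zero_iff.2 fun j' hj' => ?_
    have hne : j' ≠ j0 := (Finset.mem_filter.1 hj').2.1
    simp only [Polynomial.eval_sub, Polynomial.eval_X, Polynomial.eval_C]
    rw [sub_ne_zero]
    exact fun h => hne (Nat.cast_injective (R := ℂ) h).symm
  set z : HL := HahnSeries.single (h i + H) (1 : ℂ) with hz
  set y : ℕ := (i : ℕ) + 1 with hy
  set Y : HL := HahnSeries.single (η i) ((y : ℕ) : ℂ) with hY
  have key := poly_comb (K := ℂ) (V := HL)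
    ((Finset.univ : Finset (Idx d δ J)).sigma fun σ => Finset.range ((σ.2.2 : ℕ) + 1))
    (fun t => (((t.1.1 : ℕ) + t.2 : ℕ) : ℂ))
    (fun t => (((δ * ((t.1.2.2 : ℕ) - t.2) + t.1.2.1 : ℕ) : ℂ) ^ l *
        (((t.1.2.2 : ℕ).choose t.2 : ℕ) : ℂ)) •
      (z ^ ((t.1.1 : ℕ) + t.2) * Y ^ (δ * ((t.1.2.2 : ℕ) - t.2) + t.1.2.1) * c t.1))
    (ch.card + 1) (by
      intro k hk
      rw [← hc k l (by omega), Finset.sum_sigma]
      refine Finset.sum_congr rfl fun σ _ => ?_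
      unfold spPt
      rw [aeval_op_Bas, Finset.sum_mul]
      refine Finset.sum_congr rfl fun s _ => ?_
      rw [smul_smul, smul_mul_assoc, ← Nat.cast_smul_eq_nsmul ℂ]
      congr 1
      push_cast
      ring) q (by omega)
  have key2 := congrArg (fun x : HL => x.coeff (ω + (h i * j0 + π j0))) key
  simp only [HahnSeries.coeff_sum, HahnSeries.coeff_smul, HahnSeries.coeff_zero, smul_eq_mul,
    hz, hY, coeff_term] at key2
  rw [Finset.sum_sigma] at key2
  have hpos : 0 < h i + H - δ * η i := by simpa using hH j0 j0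
  have step1 : ∀ σ ∈ (Finset.univ : Finset (Idx d δ J)),
      ∑ s ∈ Finset.range ((σ.2.2 : ℕ) + 1),
        q.eval (((σ.1 : ℕ) + s : ℕ) : ℂ) *
          ((((δ * ((σ.2.2 : ℕ) - s) + σ.2.1 : ℕ) : ℂ) ^ l * (((σ.2.2 : ℕ).choose s : ℕ) : ℂ)) *
            ((y : ℂ) ^ (δ * ((σ.2.2 : ℕ) - s) + σ.2.1) *
              (c σ).coeff (ω + (h i * j0 + π j0) - ((((σ.1 : ℕ) + s : ℕ) : ℝ) * (h i + H) +
                ((δ * ((σ.2.2 : ℕ) - s) + σ.2.1 : ℕ) : ℝ) * η i)))) =
      q.eval ((σ.1 : ℕ) : ℂ) *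
          ((((δ * (σ.2.2 : ℕ) + σ.2.1 : ℕ) : ℂ) ^ l) *
            ((y : ℂ) ^ (δ * (σ.2.2 : ℕ) + σ.2.1) *
              (c σ).coeff (ω + (h i * j0 + π j0) - (((σ.1 : ℕ) : ℝ) * (h i + H) +
                ((δ * (σ.2.2 : ℕ) + σ.2.1 : ℕ) : ℝ) * η i)))) := by
    intro σ _
    rw [Finset.sum_eq_single 0]
    · simp
    · intro s hs0 hs
      have hs1 : (1 : ℝ) ≤ s := by exact_mod_cast Nat.one_le_iff_ne_zero.2 hs
      have hs2 : s ≤ (σ.2.2 : ℕ) := by have := Finset.mem_range.1 hs0; omega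
      rw [hlow σ _ (by
        have h1 := hH σ.1 j0
        have h2 : h i + H - δ * η i ≤ s * (h i + H - δ * η i) :=
          le_mul_of_one_le_left hpos.le hs1
        have h3 := hψ σ
        push_cast [Nat.cast_sub hs2] at h3 ⊢
        nlinarith)]
      simp
    · intro h0; exact absurd (Finset.mem_range.2 (Nat.succ_pos _)) h0
  have key3 := (Finset.sum_congr rfl step1).symm.trans key2
  rw [Fintype.sum_sigma, Finset.sum_eq_single j0] at key3
  · simp only at key3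
    rw [← Finset.mul_sum] at key3
    have key4 := (mul_eq_zero.1 key3).resolve_left hq1
    rw [← key4]
    refine Finset.sum_congr rfl fun ba _ => ?_
    rw [show ω + (h i * j0 + π j0) - (((j0 : ℕ) : ℝ) * (h i + H) +
        ((δ * (ba.2 : ℕ) + ba.1 : ℕ) : ℝ) * η i) =
        ω + (π j0 - η i * ((δ * ba.2 + ba.1 : ℕ) : ℝ) - H * j0) by ring]
    push_cast
    ring
  · intro j _ hj
    refine Finset.sum_eq_zero fun ba _ => ?_
    by_cases hle : h i * j + π j ≤ h i * j0 + π j0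
    · have : (j : ℕ) ∈ ch := Finset.mem_filter.2
        ⟨Finset.mem_range.2 j.2, fun h => hj (Fin.ext h), hle⟩
      simp only
      rw [hq0 _ this, zero_mul]
    · rw [hlow ⟨j, ba⟩ _ (by
        push Not at hle
        have h3 := hψ ⟨j, ba⟩
        simp only at h3 ⊢
        nlinarith)]
      simp
  · intro h0; exact absurd (Finset.mem_univ _) h0

lemma expo_inj (d δ j0 : ℕ) : Function.Injective
    fun ba : (Σ b : Fin δ, Fin (d + 1 - j0 * δ - b)) => δ * (ba.2 : ℕ) + (ba.1 : ℕ) := by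
  rintro ⟨b, a⟩ ⟨b', a'⟩ hab
  simp only at hab
  have hb := b.2
  have hb' := b'.2
  have h1 : (b : ℕ) = b' := by
    have := congrArg (· % δ) hab
    simpa [Nat.mul_add_mod, Nat.mod_eq_of_lt hb, Nat.mod_eq_of_lt hb'] using this
  have h2 : b = b' := Fin.ext h1
  subst h2
  have h3 : (a : ℕ) = a' := by
    have : δ * (a : ℕ) = δ * a' := by omega
    exact Nat.eq_of_mul_eq_mul_left (by omega) this
  rw [Fin.ext h3]

/-- The exponents of row `j` which belong to layer `k`. -/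
noncomputable def layer (d δ : ℕ) {K : Type} (G : K → ℕ → ℝ) (η : K → ℝ) (k : K) (j : ℕ) :
    Finset ℕ := by
  classical
  exact (Finset.range (δ * d + 1)).filter fun α : ℕ => α + δ * δ * j ≤ δ * d ∧
    ∀ k', G k' j - η k' * α ≤ G k j - η k * α

lemma hahn_inj (r d δ J m : ℕ) {K : Type} [Fintype K] [Nonempty K] [DecidableEq K]
    (ph : Fin r → K) (G : K → ℕ → ℝ) (η : K → ℝ) (h : Fin r → ℝ) (H : ℝ)
    (hH : ∀ i, ∀ j j0 : Fin (J + 1),
      h i * j0 + G (ph i) j0 - (h i * j + G (ph i) j) < h i + H - δ * η (ph i))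
    (hcov : ∀ j ≤ J, ∀ k, (layer d δ G η k j).card ≤
      ∑ i, if ph i = k then m - rk J (G k) (h i) j else 0)
    (c : Idx d δ J → HL)
    (hc : ∀ i k l, k + l < m →
      ∑ σ : Idx d δ J, MvPolynomial.aeval (spPt δ (fun i => h i + H) (fun i => η (ph i)) i)
        (op δ k l (Bas d δ σ.1 σ.2.1 σ.2.2)) * c σ = 0) : c = 0 := by
  classical
  by_contra hne
  have hk : ∀ σ : Idx d δ J, ∃ k : K, ∀ k',
      G k' σ.1 - η k' * ((δ * σ.2.2 + σ.2.1 : ℕ) : ℝ) ≤
        G k σ.1 - η k * ((δ * σ.2.2 + σ.2.1 : ℕ) : ℝ) := by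
    intro σ
    obtain ⟨k, -, hk⟩ := Finset.exists_max_image (Finset.univ : Finset K)
      (fun k => G k σ.1 - η k * ((δ * σ.2.2 + σ.2.1 : ℕ) : ℝ)) Finset.univ_nonempty
    exact ⟨k, fun k' => hk k' (Finset.mem_univ _)⟩
  choose κ hκ using hk
  set ψ : Idx d δ J → ℝ :=
    fun σ => G (κ σ) σ.1 - η (κ σ) * ((δ * σ.2.2 + σ.2.1 : ℕ) : ℝ) with hψ
  have hex : ((Finset.univ : Finset (Idx d δ J)).filter fun σ => c σ ≠ 0).Nonempty := by
    obtain ⟨σ, hσ⟩ := Function.ne_iff.1 hne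
    exact ⟨σ, Finset.mem_filter.2 ⟨Finset.mem_univ _, hσ⟩⟩
  obtain ⟨σ0, hσ0, hmin⟩ := Finset.exists_min_image _
    (fun σ : Idx d δ J => (c σ).order - (ψ σ - H * σ.1)) hex
  set ω : ℝ := (c σ0).order - (ψ σ0 - H * σ0.1) with hω
  have hlow : ∀ σ : Idx d δ J, ∀ γ, γ < ω + (ψ σ - H * σ.1) → (c σ).coeff γ = 0 := by
    intro σ γ hγ
    by_cases h0 : c σ = 0
    · rw [h0]; simp
    · have := hmin σ (Finset.mem_filter.2 ⟨Finset.mem_univ _, h0⟩)
      exact HahnSeries.coeff_eq_zero_of_lt_order (by linarith)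
  have hc0 : c σ0 ≠ 0 := (Finset.mem_filter.1 hσ0).2
  obtain ⟨j0, ba0⟩ := σ0
  set k0 : K := κ ⟨j0, ba0⟩ with hk0
  set T : Finset (Σ b : Fin δ, Fin (d + 1 - j0 * δ - b)) := Finset.univ.filter fun ba =>
    G k0 j0 - η k0 * ((δ * ba.2 + ba.1 : ℕ) : ℝ) = ψ ⟨j0, ba⟩ with hT
  have hcard : T.card ≤ (layer d δ G η k0 j0).card := by
    refine Finset.card_le_card_of_injOn (fun ba => δ * (ba.2 : ℕ) + (ba.1 : ℕ)) ?_
      (expo_inj d δ j0).injOn
    intro ba hba
    have h1 : G k0 j0 - η k0 * ((δ * ba.2 + ba.1 : ℕ) : ℝ) = ψ ⟨j0, ba⟩ :=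
      (Finset.mem_filter.1 (Finset.mem_coe.1 hba)).2
    have h2 := ba.2.2
    have h3 := ba.1.2
    have h4 : δ * (ba.2 : ℕ) + (ba.1 : ℕ) + δ * δ * j0 ≤ δ * d := by
      have h5 : (ba.2 : ℕ) + (ba.1 : ℕ) + j0 * δ ≤ d := by omega
      have h6 := Nat.mul_le_mul_left δ h5
      have h7 : (ba.1 : ℕ) ≤ δ * ba.1 := Nat.le_mul_of_pos_left _ (by omega)
      nlinarith
    simp only [layer, Finset.coe_filter, Finset.mem_range, Set.mem_ofPred_eq]
    refine ⟨by omega, h4, fun k' => ?_⟩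
    rw [h1]
    exact hκ ⟨j0, ba⟩ k'
  have hzero := vander T (fun ba => δ * ba.2 + ba.1) (expo_inj d δ j0).injOn
    (fun ba => (c ⟨j0, ba⟩).coeff (ω + (ψ ⟨j0, ba⟩ - H * j0))) (fun i : Fin r => (i : ℕ) + 1)
    (fun i => Nat.succ_pos _) (fun a b hab => Fin.ext (by simpa using hab))
    (fun i => if ph i = k0 then m - rk J (G k0) (h i) j0 else 0)
    (hcard.trans (hcov j0 (by have := j0.2; omega) k0)) (by
      intro i l hl
      have hik : ph i = k0 := by
        by_contra hik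
        simp [hik] at hl
      simp only [hik, if_true] at hl
      have h1 := leading_eq r d δ J m ψ (G k0) h (fun i => η (ph i)) H i
        (fun σ => by
          have := hκ σ k0
          simp only [hik, hψ]
          linarith)
        (fun j j0 => by simpa only [hik] using hH i j j0) c (hc i) ω hlow j0 l hl
      rw [← h1, ← Finset.sum_subset (Finset.subset_univ T)]
      · refine Finset.sum_congr rfl fun ba hba => ?_
        have h2 : G k0 j0 - η k0 * ((δ * ba.2 + ba.1 : ℕ) : ℝ) = ψ ⟨j0, ba⟩ :=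
          (Finset.mem_filter.1 hba).2
        simp only [hik]
        rw [h2]
      · intro ba _ hba
        have h2 : G k0 j0 - η k0 * ((δ * ba.2 + ba.1 : ℕ) : ℝ) ≠ ψ ⟨j0, ba⟩ := fun h0 =>
          hba (Finset.mem_filter.2 ⟨Finset.mem_univ _, h0⟩)
        have h3 : G k0 j0 - η k0 * ((δ * ba.2 + ba.1 : ℕ) : ℝ) ≤ ψ ⟨j0, ba⟩ := hκ ⟨j0, ba⟩ k0
        have h4 := lt_of_le_of_ne h3 h2
        rw [hlow ⟨j0, ba⟩ _ (by
          simp only [hik]
          linarith)]
        simp) ba0 (Finset.mem_filter.2 ⟨Finset.mem_univ _, rfl⟩)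
  simp only [hω, sub_add_cancel] at hzero
  exact hc0 (HahnSeries.coeff_order_eq_zero.1 hzero)

/-- The layered criterion for an empty linear system. -/
theorem layered (r d δ J m : ℕ) (hδ : 0 < δ) (hJ : d < (J + 1) * δ) {K : Type} [Fintype K]
    [Nonempty K] [DecidableEq K] (ph : Fin r → K) (G : K → ℕ → ℝ) (η : K → ℝ) (h : Fin r → ℝ)
    (hcov : ∀ j ≤ J, ∀ k, (layer d δ G η k j).card ≤
      ∑ i, if ph i = k then m - rk J (G k) (h i) j else 0) :
    ∃ Φ : MvPolynomial (Fin r × Fin 3) ℂ, Φ ≠ 0 ∧ ∀ p : Fin r → Fin 3 → ℂ,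
      MvPolynomial.eval (fun ij : Fin r × Fin 3 => p ij.1 ij.2) Φ ≠ 0 →
      fat p (fun _ => m) d = ⊥ := by
  classical
  obtain ⟨H0, hH0⟩ := Finite.exists_le fun t : Fin r × Fin (J + 1) × Fin (J + 1) =>
    h t.1 * t.2.2 + G (ph t.1) t.2.2 - (h t.1 * t.2.1 + G (ph t.1) t.2.1) - h t.1 +
      δ * η (ph t.1)
  have hH : ∀ i, ∀ j j0 : Fin (J + 1),
      h i * j0 + G (ph i) j0 - (h i * j + G (ph i) j) < h i + (H0 + 1) - δ * η (ph i) := by
    intro i j j0
    have := hH0 (i, j, j0)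
    simp only at this
    linarith
  set S : (j : Fin (J + 1)) → Finset (Σ b : Fin δ, Fin (d + 1 - j * δ - b)) := fun _ => ∅
    with hS
  obtain ⟨f, hf⟩ := exists_minor ((condMat r d δ J (fun _ => m) S).map
    (MvPolynomial.aeval (fun ij : Fin r × Fin 3 =>
      spPt δ (fun i => h i + (H0 + 1)) (fun i => η (ph i)) ij.1 ij.2))) (by
      intro c hc
      rw [condMat_mulVec] at hc
      exact hahn_inj r d δ J m ph G η h (H0 + 1) hH hcov c hc.2)
  refine ⟨((condMat r d δ J (fun _ => m) S).submatrix f id).det, fun h0 => hf ?_,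
    fun p hp => ?_⟩
  · have := AlgHom.map_det
      (MvPolynomial.aeval (fun ij : Fin r × Fin 3 =>
        spPt δ (fun i => h i + (H0 + 1)) (fun i => η (ph i)) ij.1 ij.2))
      ((condMat r d δ J (fun _ => m) S).submatrix f id)
    rw [h0, map_zero] at this
    exact this.symm
  · have h1 : (((condMat r d δ J (fun _ => m) S).map
        (MvPolynomial.aeval (fun ij : Fin r × Fin 3 => p ij.1 ij.2))).submatrix f id).det ≠ 0 := by
      have := AlgHom.map_det
        (MvPolynomial.aeval (fun ij : Fin r × Fin 3 => p ij.1 ij.2))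
        ((condMat r d δ J (fun _ => m) S).submatrix f id)
      intro h2
      exact hp (this.trans h2)
    have h3 := finrank_le_of_inj r d δ J hδ hJ (fun _ => m) S p (fun c hc1 hc2 =>
      inj_of_minor _ f h1 c ((condMat_mulVec r d δ J (fun _ => m) S p c).2 ⟨hc1, hc2⟩))
    have h4 : Module.finrank ℂ (fat p (fun _ => m) d) = 0 := by
      simpa [hS] using h3
    have : Module.Finite ℂ (fat p (fun _ => m) d) := by
      have h5 : fat p (fun _ => m) d ≤
          Submodule.span ℂ (Set.range fun σ : Idx d δ J => Bas d δ σ.1 σ.2.1 σ.2.2) :=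
        le_trans inf_le_left (homog_le_span d δ J hδ hJ)
      have : Module.Finite ℂ (Submodule.span ℂ
          (Set.range fun σ : Idx d δ J => Bas d δ σ.1 σ.2.1 σ.2.2)) :=
        Module.Finite.span_of_finite ℂ (Set.finite_range _)
      exact Submodule.finiteDimensional_of_le h5
    exact Submodule.finrank_eq_zero.1 h4

end Pool.Agent.P.MP_8707bd_ag.Irr
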