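import Mathlib
import Pool.Agent.P.MP_8707bd_ag.Irr.Layer

/-!
Lexicographic prices and the continuum form of the layered criterion (helper file only).
-/

namespace Pool.Agent.P.MP_8707bd_ag.Irr

open Filter Topology

/-- The lexicographic order on real vectors. -/
def LexLe {p : ℕ} (a b : Fin p → ℝ) : Prop := ∀ i, (∀ j, j < i → a j = b j) → a i ≤ b i

lemma lex_ev {p : ℕ} (a b : Fin p → ℝ) : ∀ᶠ ε in 𝓝[>] (0 : ℝ),
    ∑ i : Fin p, ε ^ (i : ℕ) * a i ≤ ∑ i : Fin p, ε ^ (i : ℕ) * b i → LexLe a b := by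
  by_cases hab : LexLe a b
  · exact Eventually.of_forall fun _ _ => hab
  unfold LexLe at hab
  push Not at hab
  obtain ⟨i, hi, hlt⟩ := hab
  set φ : ℝ → ℝ := fun ε => ∑ j : Fin p, if j < i then 0 else ε ^ ((j : ℕ) - i) * (a j - b j)
    with hφ
  have hc : Continuous φ := by
    refine continuous_finsetSum _ fun j _ => ?_
    split_ifs
    · exact continuous_const
    · fun_prop
  have h0 : φ 0 = a i - b i := by
    simp only [hφ]
    rw [Finset.sum_eq_single i]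
    · simp
    · intro j _ hj
      split_ifs with h
      · rfl
      · have : (i : ℕ) < j := by
          have h1 : (j : ℕ) ≠ i := fun h => hj (Fin.ext h)
          have h2 : ¬ (j : ℕ) < i := h
          omega
        rw [zero_pow (by omega), zero_mul]
    · intro h; exact absurd (Finset.mem_univ _) h
  have h1 : ∀ᶠ ε in 𝓝 (0 : ℝ), 0 < φ ε :=
    hc.continuousAt.eventually (lt_mem_nhds (by rw [h0]; linarith))
  filter_upwards [nhdsWithin_le_nhds h1, self_mem_nhdsWithin] with ε h2 h3 h4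
  exfalso
  have h5 : ε ^ (i : ℕ) * φ ε =
      ∑ j : Fin p, ε ^ (j : ℕ) * a j - ∑ j : Fin p, ε ^ (j : ℕ) * b j := by
    simp only [hφ]
    rw [Finset.mul_sum, ← Finset.sum_sub_distrib]
    refine Finset.sum_congr rfl fun j _ => ?_
    split_ifs with h
    · rw [hi j h]; ring
    · have h6 : (i : ℕ) ≤ j := not_lt.1 h
      rw [← mul_assoc, ← pow_add, Nat.add_sub_cancel' h6]; ring
  have h6 : 0 < ε ^ (i : ℕ) * φ ε := mul_pos (pow_pos h3 _) h2
  linarith

/-- The set described by `R` lies in an interval of length `len`. -/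
def Cov (R : ℝ → Prop) (len : ℝ) : Prop := 0 ≤ len ∧ ∃ lo, ∀ y, R y → lo ≤ y ∧ y ≤ lo + len

lemma Cov.mono {R R' : ℝ → Prop} {len : ℝ} (h : Cov R len) (hR : ∀ y, R' y → R y) :
    Cov R' len := by
  obtain ⟨h0, lo, h1⟩ := h
  exact ⟨h0, lo, fun y hy => h1 y (hR y hy)⟩

lemma cov_of {R : ℝ → Prop} {len : ℝ} (lo hi : ℝ) (h0 : lo ≤ hi) (h1 : len = hi - lo)
    (h : ∀ y, R y → lo ≤ y ∧ y ≤ hi) : Cov R len :=
  ⟨by linarith, lo, fun y hy => ⟨(h y hy).1, by linarith [(h y hy).2]⟩⟩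

lemma card_le_of_cov {R : ℝ → Prop} {len M : ℝ} (hM : 0 < M) (h : Cov R len) (s : Finset ℕ)
    (hs : ∀ j ∈ s, R (j / M)) : (s.card : ℝ) ≤ M * len + 1 := by
  obtain ⟨h0, lo, h1⟩ := h
  rcases s.eq_empty_or_nonempty with rfl | hne
  · simp only [Finset.card_empty, Nat.cast_zero]
    positivity
  have ha := h1 _ (hs _ (s.min'_mem hne))
  have hb := h1 _ (hs _ (s.max'_mem hne))
  have hle : s.min' hne ≤ s.max' hne := s.min'_le _ (s.max'_mem hne)
  have h2 : s.card ≤ s.max' hne + 1 - s.min' hne := by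
    rw [← Nat.card_Icc]
    exact Finset.card_le_card fun j hj => Finset.mem_Icc.2 ⟨s.min'_le _ hj, s.le_max' _ hj⟩
  have h3 : (s.card : ℝ) ≤ (s.max' hne : ℝ) + 1 - s.min' hne := by
    have : ((s.max' hne + 1 - s.min' hne : ℕ) : ℝ) = (s.max' hne : ℝ) + 1 - s.min' hne := by
      rw [Nat.cast_sub (by omega)]; push_cast; ring
    rw [← this]
    exact_mod_cast h2
  have h4 := ha.1
  have h5 := hb.2
  rw [le_div_iff₀ hM] at h4
  rw [div_le_iff₀ hM] at h5
  nlinarith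

lemma LexLe.of_smul {p : ℕ} {a b : Fin p → ℝ} {M : ℝ} (hM : 0 < M)
    (h : LexLe (fun i => M * a i) (fun i => M * b i)) : LexLe a b := by
  intro i hi
  have := h i fun j hj => by simp only [hi j hj]
  exact le_of_mul_le_mul_left this hM

/-- Heights of the column over `x` which belong to layer `k`. -/
def LayerRel {p : ℕ} {K : Type} (κ L : ℝ) (g : K → ℝ → Fin p → ℝ) (η : K → Fin p → ℝ) (k : K)
    (x y : ℝ) : Prop :=
  0 ≤ y ∧ y ≤ κ * (L - x) ∧
    ∀ k', LexLe (fun i => g k' x i - η k' i * y) (fun i => g k x i - η k i * y)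

/-- Rows which are not more expensive than the row `x`. -/
def RankRel {p : ℕ} (g : ℝ → Fin p → ℝ) (h : Fin p → ℝ) (x x' : ℝ) : Prop :=
  0 ≤ x' ∧ LexLe (fun i => h i * x' + g x' i) (fun i => h i * x + g x i)

/-- The continuum form of the layered criterion. -/
theorem cont_layered (δ : ℕ) (hδ : 0 < δ) (L : ℝ) {p n : ℕ} {K : Type} [Fintype K] [Nonempty K]
    [DecidableEq K] (N : Fin n → ℕ) (ph : Fin n → K) (g : K → ℝ → Fin p → ℝ)
    (η : K → Fin p → ℝ) (h : Fin n → Fin p → ℝ)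
    (hcov : ∀ x, 0 ≤ x → x ≤ L → ∃ ℓ : Fin n → ℝ,
      (∀ t, ℓ t ≤ 0 ∨ Cov (RankRel (g (ph t)) (h t) x) (1 - ℓ t)) ∧
      ∀ k, (∀ y, ¬ LayerRel ((δ : ℝ) ^ 2) L g η k x y) ∨
        (Cov (LayerRel ((δ : ℝ) ^ 2) L g η k x) (∑ t, if ph t = k then N t * ℓ t else 0) ∧
          ∃ t, ph t = k ∧ 1 ≤ N t ∧ Cov (RankRel (g (ph t)) (h t) x) (1 - ℓ t)))
    (m d : ℕ) (hm : 2 < m) (hd : (d : ℝ) ≤ δ * L * (m - 2)) :
    ∃ Φ : MvPolynomial (Fin (∑ t, N t) × Fin 3) ℂ, Φ ≠ 0 ∧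
      ∀ q : Fin (∑ t, N t) → Fin 3 → ℂ,
      MvPolynomial.eval (fun ij : Fin (∑ t, N t) × Fin 3 => q ij.1 ij.2) Φ ≠ 0 →
      fat q (fun _ => m) d = ⊥ := by
  classical
  set M : ℝ := m - 2 with hMdef
  have hM : 0 < M := by
    have : (2 : ℝ) < m := by exact_mod_cast hm
    linarith
  have hδ' : (0 : ℝ) < δ := by exact_mod_cast hδ
  set J : ℕ := d / δ with hJ
  have e1 : ∀ᶠ ε in 𝓝[>] (0 : ℝ), ∀ s : K × K × Fin (J + 1) × Fin (δ * d + 1),
      ∑ i : Fin p, ε ^ (i : ℕ) * (M * (g s.1 ((s.2.2.1 : ℕ) / M) i - η s.1 i * ((s.2.2.2 : ℕ) / M)))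
        ≤ ∑ i : Fin p, ε ^ (i : ℕ) *
          (M * (g s.2.1 ((s.2.2.1 : ℕ) / M) i - η s.2.1 i * ((s.2.2.2 : ℕ) / M))) →
      LexLe (fun i => M * (g s.1 ((s.2.2.1 : ℕ) / M) i - η s.1 i * ((s.2.2.2 : ℕ) / M)))
        (fun i => M * (g s.2.1 ((s.2.2.1 : ℕ) / M) i - η s.2.1 i * ((s.2.2.2 : ℕ) / M))) :=
    eventually_all.2 fun s => lex_ev _ _
  have e2 : ∀ᶠ ε in 𝓝[>] (0 : ℝ), ∀ s : Fin n × Fin (J + 1) × Fin (J + 1),
      ∑ i : Fin p, ε ^ (i : ℕ) *
          (M * (h s.1 i * ((s.2.1 : ℕ) / M) + g (ph s.1) ((s.2.1 : ℕ) / M) i))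
        ≤ ∑ i : Fin p, ε ^ (i : ℕ) *
          (M * (h s.1 i * ((s.2.2 : ℕ) / M) + g (ph s.1) ((s.2.2 : ℕ) / M) i)) →
      LexLe (fun i => M * (h s.1 i * ((s.2.1 : ℕ) / M) + g (ph s.1) ((s.2.1 : ℕ) / M) i))
        (fun i => M * (h s.1 i * ((s.2.2 : ℕ) / M) + g (ph s.1) ((s.2.2 : ℕ) / M) i)) :=
    eventually_all.2 fun s => lex_ev _ _
  obtain ⟨ε, hε1, hε2⟩ := (e1.and e2).exists
  set G : K → ℕ → ℝ := fun k j => ∑ i : Fin p, ε ^ (i : ℕ) * (M * g k (j / M) i) with hG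
  set E : K → ℝ := fun k => ∑ i : Fin p, ε ^ (i : ℕ) * η k i with hE
  set H : Fin n → ℝ := fun t => ∑ i : Fin p, ε ^ (i : ℕ) * h t i with hH
  set ty : Fin (∑ t, N t) → Fin n := fun i => (finSigmaFinEquiv.symm i).1 with hty
  have hGE : ∀ (k : K) (j α : ℕ), G k j - E k * α =
      ∑ i : Fin p, ε ^ (i : ℕ) * (M * (g k (j / M) i - η k i * (α / M))) := by
    intro k j α
    simp only [hG, hE]
    rw [Finset.sum_mul, ← Finset.sum_sub_distrib]
    refine Finset.sum_congr rfl fun i _ => ?_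
    field_simp
  have hHG : ∀ (t : Fin n) (j : ℕ), H t * j + G (ph t) j =
      ∑ i : Fin p, ε ^ (i : ℕ) * (M * (h t i * (j / M) + g (ph t) (j / M) i)) := by
    intro t j
    simp only [hG, hH]
    rw [Finset.sum_mul, ← Finset.sum_add_distrib]
    refine Finset.sum_congr rfl fun i _ => ?_
    field_simp
  refine layered (∑ t, N t) d δ J m hδ (by
    rw [hJ, mul_comm]; exact Nat.lt_mul_div_succ d hδ) (fun i => ph (ty i)) G E
    (fun i => H (ty i)) fun j hj k => ?_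
  have hsum : ∑ i : Fin (∑ t, N t), (if ph (ty i) = k then m - rk J (G k) (H (ty i)) j else 0) =
      ∑ t, N t * (if ph t = k then m - rk J (G k) (H t) j else 0) := by
    rw [← Equiv.sum_comp finSigmaFinEquiv, Fintype.sum_sigma]
    refine Finset.sum_congr rfl fun t _ => ?_
    simp [hty]
  rw [hsum]
  have hjd : (j : ℝ) * δ ≤ d := by
    have : j * δ ≤ d := le_trans (Nat.mul_le_mul_right _ hj) (Nat.div_mul_le_self d δ)
    exact_mod_cast this
  have hx0 : (0 : ℝ) ≤ j / M := by positivity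
  have hxL : (j : ℝ) / M ≤ L := by
    rw [div_le_iff₀ hM]
    have : (j : ℝ) * δ ≤ (L * M) * δ := by linarith
    exact le_of_mul_le_mul_right this hδ'
  obtain ⟨ℓ, hℓ, hk⟩ := hcov _ hx0 hxL
  have hlay : ∀ α ∈ layer d δ G E k j, LayerRel ((δ : ℝ) ^ 2) L g η k (j / M) (α / M) := by
    intro α hα
    simp only [layer, Finset.mem_filter, Finset.mem_range] at hα
    obtain ⟨h1, h2, h3⟩ := hα
    refine ⟨by positivity, ?_, fun k' => LexLe.of_smul hM ?_⟩
    · have h4 : (α : ℝ) + δ * δ * j ≤ δ * d := by exact_mod_cast h2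
      rw [div_le_iff₀ hM]
      have h5 : (δ : ℝ) ^ 2 * (L - j / M) * M = δ * (δ * L * M) - δ * δ * j := by
        field_simp
      have h6 : (δ : ℝ) * d ≤ δ * (δ * L * M) := mul_le_mul_of_nonneg_left hd hδ'.le
      linarith
    · refine hε1 (k', k, ⟨j, by omega⟩, ⟨α, h1⟩) ?_
      simp only
      rw [← hGE, ← hGE]
      exact h3 k'
  have hrk : ∀ t, Cov (RankRel (g (ph t)) (h t) (j / M)) (1 - ℓ t) →
      M * ℓ t + 1 ≤ ((m - rk J (G (ph t)) (H t) j : ℕ) : ℝ) := by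
    intro t ht
    have h1 : (rk J (G (ph t)) (H t) j : ℝ) ≤ M * (1 - ℓ t) + 1 := by
      refine card_le_of_cov hM ht _ fun j' hj' => ?_
      simp only [Finset.mem_filter, Finset.mem_range] at hj'
      refine ⟨by positivity, LexLe.of_smul hM ?_⟩
      refine hε2 (t, ⟨j', hj'.1⟩, ⟨j, by omega⟩) ?_
      simp only
      rw [← hHG, ← hHG]
      exact hj'.2.2
    have h2 : (m : ℝ) - rk J (G (ph t)) (H t) j ≤ ((m - rk J (G (ph t)) (H t) j : ℕ) : ℝ) := by
      have : m ≤ (m - rk J (G (ph t)) (H t) j) + rk J (G (ph t)) (H t) j := by omega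
      have h3 : (m : ℝ) ≤ ((m - rk J (G (ph t)) (H t) j : ℕ) : ℝ) + rk J (G (ph t)) (H t) j := by
        exact_mod_cast this
      linarith
    linarith
  rcases hk k with h0 | ⟨h1, t0, ht0, hN, hc0⟩
  · have : layer d δ G E k j = ∅ :=
      Finset.eq_empty_of_forall_notMem fun α hα => h0 _ (hlay α hα)
    rw [this]
    simp
  · have h2 := card_le_of_cov hM h1 _ hlay
    have h3 : ∑ t, ((M * if ph t = k then N t * ℓ t else 0) + if t = t0 then 1 else 0) ≤
        ∑ t, ((N t * (if ph t = k then m - rk J (G k) (H t) j else 0) : ℕ) : ℝ) := by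
      refine Finset.sum_le_sum fun t _ => ?_
      have hNt : (0 : ℝ) ≤ N t := by positivity
      by_cases ht : t = t0
      · subst ht
        have h4 := hrk t hc0
        have h5 : (1 : ℝ) ≤ N t := by exact_mod_cast hN
        rw [ht0] at h4
        simp only [ht0, if_true, Nat.cast_mul]
        nlinarith [mul_le_mul_of_nonneg_left h4 hNt]
      · simp only [ht, if_false, add_zero]
        split_ifs with hp
        · rw [Nat.cast_mul]
          rcases hℓ t with h4 | h4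
          · have h5 : (0 : ℝ) ≤ ((m - rk J (G k) (H t) j : ℕ) : ℝ) := by positivity
            nlinarith [mul_nonneg hNt h5, mul_nonneg hM.le (mul_nonneg hNt (neg_nonneg.2 h4))]
          · have h5 := hrk t h4
            rw [hp] at h5
            nlinarith [mul_le_mul_of_nonneg_left h5 hNt]
        · simp
    rw [Finset.sum_add_distrib, ← Finset.mul_sum, Finset.sum_ite_eq' Finset.univ t0,
      if_pos (Finset.mem_univ _), ← Nat.cast_sum] at h3
    exact_mod_cast h2.trans h3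

end Pool.Agent.P.MP_8707bd_ag.Irr
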