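import Mathlib
import Pool.Agent.P.MP_8707bd_ag.Irr.Cont

/-!
The profiles of the points and the prices which produce them (helper file only).
-/

namespace Pool.Agent.P.MP_8707bd_ag.Irr

/-- Positive part. -/
noncomputable def pp (x : ℝ) : ℝ := max x 0

lemma pp_of_le {x c : ℝ} (h : x ≤ c) : pp (x - c) = 0 := max_eq_right (by linarith)
lemma pp_of_ge {x c : ℝ} (h : c ≤ x) : pp (x - c) = x - c := max_eq_left (by linarith)
lemma pp_nonneg (x : ℝ) : 0 ≤ pp x := le_max_right _ _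
lemma le_pp (x : ℝ) : x ≤ pp x := le_max_left _ _
lemma pp_flip (x c : ℝ) : pp (x - c) = x - c + pp (c - x) := by
  rcases le_total x c with h | h
  · rw [pp_of_le h, pp_of_ge h]; ring
  · rw [pp_of_le h, pp_of_ge h]; ring
lemma pp_mono {x y : ℝ} (h : x ≤ y) : pp x ≤ pp y := max_le_max_right _ h

/-- A price with minimum at `c`, linear on `[p, c]` and on `[c, q]`, equal at `p` and `q`. -/
def Vsh (f : ℝ → ℝ) (p c q : ℝ) : Prop := ∃ σ τ : ℝ, 0 < σ ∧ 0 < τ ∧ σ * (c - p) = τ * (q - c) ∧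
  (∀ x, x ≤ c → f c + σ * (c - x) ≤ f x) ∧ (∀ x, c ≤ x → f c + τ * (x - c) ≤ f x) ∧
  (∀ x, p ≤ x → x ≤ c → f x = f c + σ * (c - x)) ∧
  (∀ x, c ≤ x → x ≤ q → f x = f c + τ * (x - c))

lemma vsh_of (f e : ℝ → ℝ) (p c q c0 B : ℝ) (hpc : p < c) (hcq : c < q) (hB : 0 < B)
    (hf : ∀ x, f x = c0 - B * (q - c) / (q - p) * x + B * pp (x - c) + e x)
    (he : ∀ x, 0 ≤ e x) (he0 : ∀ x, p ≤ x → x ≤ q → e x = 0) : Vsh f p c q := by
  have hqp : 0 < q - p := by linarith
  have h1 : 0 < q - c := by linarith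
  have h2 : 0 < c - p := by linarith
  have hs : B * (c - p) / (q - p) = B - B * (q - c) / (q - p) := by field_simp; ring
  have hc : f c = c0 - B * (q - c) / (q - p) * c := by
    rw [hf, pp_of_le le_rfl, he0 c hpc.le hcq.le]; ring
  refine ⟨B * (q - c) / (q - p), B * (c - p) / (q - p), by positivity, by positivity,
    by ring, fun x hx => ?_, fun x hx => ?_, fun x h3 h4 => ?_, fun x h3 h4 => ?_⟩
  · rw [hc, hf x, pp_of_le hx]; linarith [he x]
  · rw [hc, hf x, pp_of_ge hx, hs]; linarith [he x]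
  · rw [hc, hf x, pp_of_le h4, he0 x h3 (by linarith)]; ring
  · rw [hc, hf x, pp_of_ge h3, he0 x (by linarith) h4, hs]; ring

lemma Vsh.left {f : ℝ → ℝ} {p c q x : ℝ} (h : Vsh f p c q) (hpc : p < c) (hcq : c < q)
    (h1 : p ≤ x) (h2 : x ≤ c) : Cov (fun y => f y ≤ f x) ((q - p) * (c - x) / (c - p)) := by
  obtain ⟨σ, τ, hσ, hτ, hr, hl, hu, el, -⟩ := h
  have h3 : 0 < c - p := by linarith
  have h4 : 0 ≤ (q - c) * (c - x) / (c - p) :=
    div_nonneg (mul_nonneg (by linarith) (by linarith)) h3.le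
  refine cov_of x (c + (q - c) * (c - x) / (c - p)) (by linarith) (by field_simp; ring)
    fun y hy => ?_
  rw [el x h1 h2] at hy
  rcases le_total y c with h5 | h5
  · have h6 := hl y h5
    refine ⟨?_, by linarith⟩
    have : σ * (c - y) ≤ σ * (c - x) := by linarith
    have := le_of_mul_le_mul_left this hσ
    linarith
  · have h6 := hu y h5
    refine ⟨by linarith, ?_⟩
    have h7 : τ * (y - c) ≤ σ * (c - x) := by linarith
    have h8 : y - c ≤ (q - c) * (c - x) / (c - p) := by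
      rw [le_div_iff₀ h3]
      refine le_of_mul_le_mul_left ?_ hτ
      have := mul_le_mul_of_nonneg_right h7 h3.le
      have h9 : τ * ((q - c) * (c - x)) = σ * (c - x) * (c - p) := by
        linear_combination (-(c - x)) * hr
      linarith
    linarith

lemma Vsh.right {f : ℝ → ℝ} {p c q x : ℝ} (h : Vsh f p c q) (hpc : p < c) (hcq : c < q)
    (h1 : c ≤ x) (h2 : x ≤ q) : Cov (fun y => f y ≤ f x) ((q - p) * (x - c) / (q - c)) := by
  obtain ⟨σ, τ, hσ, hτ, hr, hl, hu, -, er⟩ := h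
  have h3 : 0 < q - c := by linarith
  have h4 : 0 ≤ (c - p) * (x - c) / (q - c) :=
    div_nonneg (mul_nonneg (by linarith) (by linarith)) h3.le
  refine cov_of (c - (c - p) * (x - c) / (q - c)) x (by linarith) (by field_simp; ring)
    fun y hy => ?_
  rw [er x h1 h2] at hy
  rcases le_total y c with h5 | h5
  · have h6 := hl y h5
    refine ⟨?_, by linarith⟩
    have h7 : σ * (c - y) ≤ τ * (x - c) := by linarith
    have h8 : c - y ≤ (c - p) * (x - c) / (q - c) := by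
      rw [le_div_iff₀ h3]
      refine le_of_mul_le_mul_left ?_ hσ
      have := mul_le_mul_of_nonneg_right h7 h3.le
      have h9 : σ * ((c - p) * (x - c)) = τ * (x - c) * (q - c) := by
        linear_combination (x - c) * hr
      linarith
    linarith
  · have h6 := hu y h5
    refine ⟨by linarith, ?_⟩
    have : τ * (y - c) ≤ τ * (x - c) := by linarith
    have := le_of_mul_le_mul_left this hτ
    linarith

/-- Kink coefficients. -/
noncomputable def pa (c y : ℝ) : ℝ := y ^ 2 / (c * (y - c))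
/-- Kink coefficients. -/
noncomputable def pb (c y : ℝ) : ℝ := c / (y - c)

/-- Profile with peak `c` whose left arm reaches `0` when the right arm reaches `y`. -/
noncomputable def lP (c y x : ℝ) : ℝ :=
  1 - y + y / c * x - pa c y * pp (x - c) + pb c y * pp (x - y) + pp (x - 1)

/-- The mirror image with respect to the wall `θ + 1`. -/
noncomputable def lR (θ c y x : ℝ) : ℝ :=
  pp (x - θ) + pb (θ + 1 - c) (θ + 1 - y) * pp (x - y) - pa (θ + 1 - c) (θ + 1 - y) * pp (x - c)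

section P
variable {c y x : ℝ} (hc : 0 < c) (hcy : c < y) (hy : y ≤ 1)
include hc hcy hy

lemma lP1 (h : x ≤ c) : 1 - lP c y x = (y - 0) * (c - x) / (c - 0) := by
  rw [lP, pp_of_le h, pp_of_le (by linarith), pp_of_le (by linarith), sub_zero, sub_zero]
  field_simp
  ring

lemma lP2 (h : c ≤ x) (h' : x ≤ y) : 1 - lP c y x = (y - 0) * (x - c) / (y - c) := by
  have : y - c ≠ 0 := by linarith
  rw [lP, pp_of_ge h, pp_of_le h', pp_of_le (by linarith), pa]
  field_simp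
  ring

lemma lP3 (h : y ≤ x) : lP c y x = 1 - x + pp (x - 1) := by
  have : y - c ≠ 0 := by linarith
  rw [lP, pp_of_ge h, pp_of_ge (by linarith : c ≤ x), pa, pb]
  field_simp
  ring

lemma lP_nonneg (h : 0 ≤ x) : 0 ≤ lP c y x := by
  rcases le_total x c with h1 | h1
  · have h2 := lP1 hc hcy hy h1
    have h3 : (y - 0) * (c - x) / (c - 0) ≤ 1 := by
      rw [div_le_one (by linarith)]; nlinarith
    linarith
  rcases le_total x y with h4 | h4
  · have h2 := lP2 hc hcy hy h1 h4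
    have h3 : (y - 0) * (x - c) / (y - c) ≤ 1 := by
      rw [div_le_one (by linarith)]; nlinarith
    linarith
  · rw [lP3 hc hcy hy h4]; linarith [le_pp (x - 1)]

lemma lP_zero (h : 1 ≤ x) : lP c y x ≤ 0 := by
  rw [lP3 hc hcy hy (by linarith), pp_of_ge h]; linarith

lemma covP {R : ℝ → Prop} {f : ℝ → ℝ} (hV : Vsh f 0 c y) (h0 : 0 ≤ x) (h1 : x ≤ 1)
    (hR : ∀ z, R z → 0 ≤ z ∧ (x ≤ y → f z ≤ f x) ∧ (y < x → z ≤ x)) :
    Cov R (1 - lP c y x) := by
  rcases le_total x c with h2 | h2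
  · rw [lP1 hc hcy hy h2]
    exact (hV.left hc hcy h0 h2).mono fun z hz => (hR z hz).2.1 (by linarith)
  rcases le_or_gt x y with h3 | h3
  · rw [lP2 hc hcy hy h2 h3]
    exact (hV.right hc hcy h2 h3).mono fun z hz => (hR z hz).2.1 h3
  · rw [lP3 hc hcy hy h3.le, pp_of_le h1]
    exact cov_of 0 x h0 (by ring) fun z hz => ⟨(hR z hz).1, (hR z hz).2.2 h3⟩

end P

section R
variable {θ c y x : ℝ} (hy : θ ≤ y) (hyc : y < c) (hc : c < θ + 1)
include hy hyc hc

omit hc in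
lemma lR0 (h : x ≤ y) : lR θ c y x = pp (x - θ) := by
  rw [lR, pp_of_le h, pp_of_le (by linarith : x ≤ c)]
  ring

lemma lR1 (h : y ≤ x) (h' : x ≤ c) : 1 - lR θ c y x = (θ + 1 - y) * (c - x) / (c - y) := by
  have : c - y ≠ 0 := by linarith
  rw [lR, pp_of_ge h, pp_of_le h', pp_of_ge (by linarith : θ ≤ x), pb,
    show θ + 1 - y - (θ + 1 - c) = c - y by ring]
  field_simp
  ring

lemma lR2 (h : c ≤ x) : 1 - lR θ c y x = (θ + 1 - y) * (x - c) / (θ + 1 - c) := by
  have : c - y ≠ 0 := by linarith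
  have : θ + 1 - c ≠ 0 := by linarith
  rw [lR, pp_of_ge h, pp_of_ge (by linarith : y ≤ x), pp_of_ge (by linarith : θ ≤ x), pa, pb,
    show θ + 1 - y - (θ + 1 - c) = c - y by ring]
  field_simp
  ring

lemma lR_nonneg (h : x ≤ θ + 1) : 0 ≤ lR θ c y x := by
  rcases le_total x y with h1 | h1
  · rw [lR0 hy hyc h1]; exact pp_nonneg _
  rcases le_total x c with h4 | h4
  · have h2 := lR1 hy hyc hc h1 h4
    have h3 : (θ + 1 - y) * (c - x) / (c - y) ≤ 1 := by
      rw [div_le_one (by linarith)]; nlinarith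
    linarith
  · have h2 := lR2 hy hyc hc h4
    have h3 : (θ + 1 - y) * (x - c) / (θ + 1 - c) ≤ 1 := by
      rw [div_le_one (by linarith)]; nlinarith
    linarith

omit hc in
lemma lR_zero (h : x ≤ θ) : lR θ c y x ≤ 0 := by
  rw [lR0 hy hyc (by linarith), pp_of_le h]

lemma covR {R : ℝ → Prop} {f : ℝ → ℝ} (hV : Vsh f y c (θ + 1)) (h0 : θ ≤ x) (h1 : x ≤ θ + 1)
    (hR : ∀ z, R z → z ≤ θ + 1 ∧ (y ≤ x → f z ≤ f x) ∧ (x < y → x ≤ z)) :
    Cov R (1 - lR θ c y x) := by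
  rcases lt_or_ge x y with h2 | h2
  · rw [lR0 hy hyc h2.le, pp_of_ge h0]
    exact cov_of x (θ + 1) h1 (by ring) fun z hz => ⟨(hR z hz).2.2 h2, (hR z hz).1⟩
  rcases le_total x c with h3 | h3
  · rw [lR1 hy hyc hc h2 h3]
    exact (hV.left hyc hc h2 h3).mono fun z hz => (hR z hz).2.1 h2
  · rw [lR2 hy hyc hc h3]
    exact (hV.right hyc hc h3 h1).mono fun z hz => (hR z hz).2.1 h2

end R

lemma lex6 {a b : Fin 6 → ℝ} (h : LexLe a b) : a 0 ≤ b 0 ∧ (a 0 = b 0 → a 1 ≤ b 1 ∧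
    (a 1 = b 1 → a 2 ≤ b 2 ∧ (a 2 = b 2 → a 3 ≤ b 3 ∧ (a 3 = b 3 → a 4 ≤ b 4 ∧
      (a 4 = b 4 → a 5 ≤ b 5))))) := by
  refine ⟨h 0 ?_, fun h0 => ⟨h 1 ?_, fun h1 => ⟨h 2 ?_, fun h2 => ⟨h 3 ?_, fun h3 =>
    ⟨h 4 ?_, fun h4 => h 5 ?_⟩⟩⟩⟩⟩ <;> intro j hj <;> fin_cases j <;>
    first | assumption | exact absurd hj (by decide)

end Pool.Agent.P.MP_8707bd_ag.Irr
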