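import Mathlib
import Pool.Agent.P.MP_8707bd_ag.Irr.Shape

/-!
The six price levels and the profiles of the middle layer (helper file only).
-/

namespace Pool.Agent.P.MP_8707bd_ag.Irr

/-- The price vector of a layer with front `fr`. -/
noncomputable def gv (θ u v : ℝ) (fr : ℝ → ℝ) (x : ℝ) : Fin 6 → ℝ :=
  ![pp (x - (θ + 1)), 0, fr x, pp (x - u), pp (x - v), pp (x - θ) + pp (x - 1)]

section
variable {θ u v x z : ℝ} {fr : ℝ → ℝ}

lemma rk_raw {h0 h1 h2 h3 h4 h5 : ℝ}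
    (H : RankRel (gv θ u v fr) ![h0, h1, h2, h3, h4, h5] x z) :
    h0 * z + pp (z - (θ + 1)) ≤ h0 * x + pp (x - (θ + 1)) ∧
    (h0 * z + pp (z - (θ + 1)) = h0 * x + pp (x - (θ + 1)) → h1 * z + 0 ≤ h1 * x + 0 ∧
    (h1 * z + 0 = h1 * x + 0 → h2 * z + fr z ≤ h2 * x + fr x ∧
    (h2 * z + fr z = h2 * x + fr x → h3 * z + pp (z - u) ≤ h3 * x + pp (x - u) ∧
    (h3 * z + pp (z - u) = h3 * x + pp (x - u) → h4 * z + pp (z - v) ≤ h4 * x + pp (x - v) ∧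
    (h4 * z + pp (z - v) = h4 * x + pp (x - v) →
      h5 * z + (pp (z - θ) + pp (z - 1)) ≤ h5 * x + (pp (x - θ) + pp (x - 1))))))) :=
  lex6 H.2

lemma rk_wall {h1 h2 h3 h4 h5 : ℝ} (hx : x ≤ θ + 1)
    (H : RankRel (gv θ u v fr) ![0, h1, h2, h3, h4, h5] x z) :
    z ≤ θ + 1 ∧ 0 * z + pp (z - (θ + 1)) = 0 * x + pp (x - (θ + 1)) := by
  have h := (rk_raw H).1
  rw [pp_of_le hx] at h ⊢
  have h6 := le_pp (z - (θ + 1))
  have h7 := pp_nonneg (z - (θ + 1))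
  constructor <;> linarith

lemma covS (h0 : 0 ≤ x) (h1 : x ≤ 1) :
    Cov (RankRel (gv θ u v fr) ![1, 0, 0, 0, 0, 0] x) (1 - (1 - x + pp (x - 1))) := by
  refine cov_of 0 x h0 (by rw [pp_of_le h1]; ring) fun z hz => ⟨hz.1, ?_⟩
  have h := (rk_raw hz).1
  by_contra hc
  have := pp_mono (by linarith : x - (θ + 1) ≤ z - (θ + 1))
  linarith

lemma covA (h0 : θ ≤ x) (h1 : x ≤ θ + 1) :
    Cov (RankRel (gv θ u v fr) ![0, -1, 0, 0, 0, 0] x) (1 - pp (x - θ)) := by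
  refine cov_of x (θ + 1) h1 (by rw [pp_of_ge h0]; ring) fun z hz => ⟨?_, (rk_wall h1 hz).1⟩
  have h := ((rk_raw hz).2 (rk_wall h1 hz).2).1
  linarith

lemma covS' (h0 : θ + 1 ≤ x) :
    Cov (RankRel (gv θ u v fr) ![-1, 1, 0, 0, 0, 0] x) (1 - (θ + 2 - x)) := by
  refine cov_of (θ + 1) x h0 (by ring) fun z hz => ?_
  have h := rk_raw hz
  rw [pp_of_ge h0] at h
  have h1 := pp_nonneg (z - (θ + 1))
  have h2 : θ + 1 ≤ z := by linarith [h.1]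
  rw [pp_of_ge h2] at h
  have := (h.2 (by ring)).1
  exact ⟨h2, by linarith⟩

lemma rk_front {h2 : ℝ} (hx : x ≤ θ + 1)
    (H : RankRel (gv θ u v fr) ![0, 0, h2, 0, 0, 0] x z) :
    z ≤ θ + 1 ∧ h2 * z + fr z ≤ h2 * x + fr x :=
  ⟨(rk_wall hx H).1, (((rk_raw H).2 (rk_wall hx H).2).2 (by ring)).1⟩

lemma rk_mid {h3 h4 h5 : ℝ} (hx : x ≤ θ + 1)
    (H : RankRel (gv θ u v fun _ => 0) ![0, 0, 0, h3, h4, h5] x z) :
    z ≤ θ + 1 ∧ h3 * z + pp (z - u) ≤ h3 * x + pp (x - u) ∧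
    (h3 * z + pp (z - u) = h3 * x + pp (x - u) → h4 * z + pp (z - v) ≤ h4 * x + pp (x - v) ∧
    (h4 * z + pp (z - v) = h4 * x + pp (x - v) →
      h5 * z + (pp (z - θ) + pp (z - 1)) ≤ h5 * x + (pp (x - θ) + pp (x - 1)))) :=
  ⟨(rk_wall hx H).1, (((rk_raw H).2 (rk_wall hx H).2).2 (by ring)).2 (by ring)⟩

lemma vsh_pure (p c q : ℝ) (hpc : p < c) (hcq : c < q) :
    Vsh (fun z => -((q - c) / (q - p)) * z + pp (z - c)) p c q :=
  vsh_of _ (fun _ => 0) p c q 0 1 hpc hcq one_pos (fun x => by ring) (fun _ => le_rfl)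
    (fun _ _ _ => rfl)

variable (a0 : 0 < θ) (a1 : θ < u) (a2 : u < v) (a3 : v < 1)
include a0 a1 a2 a3

lemma covPu1 (h0 : 0 ≤ x) (h1 : x ≤ 1) :
    Cov (RankRel (gv θ u v fun _ => 0) ![0, 0, 0, -((1 - u) / (1 - 0)), 0, 0] x)
      (1 - lP u 1 x) :=
  covP (by linarith) (by linarith) le_rfl (vsh_pure 0 u 1 (by linarith) (by linarith)) h0 h1
    fun z hz => ⟨hz.1, fun _ => (rk_mid (by linarith) hz).2.1, fun h => by linarith⟩

lemma covRuθ (h0 : θ ≤ x) (h1 : x ≤ θ + 1) :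
    Cov (RankRel (gv θ u v fun _ => 0) ![0, 0, 0, -((θ + 1 - u) / (θ + 1 - θ)), 0, 0] x)
      (1 - lR θ u θ x) :=
  covR le_rfl a1 (by linarith) (vsh_pure θ u (θ + 1) a1 (by linarith)) h0 h1
    fun z hz => ⟨(rk_mid h1 hz).1, fun _ => (rk_mid h1 hz).2.1, fun h => by linarith⟩

lemma covPuv (h0 : 0 ≤ x) (h1 : x ≤ 1) :
    Cov (RankRel (gv θ u v fun _ => 0) ![0, 0, 0, -((v - u) / (v - 0)), 0, 0] x)
      (1 - lP u v x) := by
  refine covP (by linarith) a2 a3.le (vsh_pure 0 u v (by linarith) a2) h0 h1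
    fun z hz => ⟨hz.1, fun _ => (rk_mid (by linarith) hz).2.1, fun h => ?_⟩
  have h2 := (rk_mid (by linarith) hz).2.1
  by_contra hc
  push Not at hc
  rw [pp_of_ge (by linarith : u ≤ z), pp_of_ge (by linarith : u ≤ x)] at h2
  have h3 : (v - u) / (v - 0) < 1 := by
    rw [div_lt_one (by linarith)]; linarith
  nlinarith

lemma covRvu (h0 : θ ≤ x) (h1 : x ≤ θ + 1) :
    Cov (RankRel (gv θ u v fun _ => 0) ![0, 0, 0, -1, -((θ + 1 - v) / (θ + 1 - u)), 0] x)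
      (1 - lR θ v u x) := by
  refine covR a1.le a2 (by linarith) (vsh_pure u v (θ + 1) a2 (by linarith)) h0 h1
    fun z hz => ⟨(rk_mid h1 hz).1, fun h => ?_, fun h => ?_⟩
  · obtain ⟨-, h2, h3⟩ := rk_mid h1 hz
    rw [pp_of_ge h] at h2 h3
    exact (h3 (by linarith [le_pp (z - u)])).1
  · obtain ⟨-, h2, -⟩ := rk_mid h1 hz
    rw [pp_of_le h.le] at h2
    linarith [pp_nonneg (z - u)]

lemma covPθu (h0 : 0 ≤ x) (h1 : x ≤ 1) :
    Cov (RankRel (gv θ u v fun _ => 0) ![0, 0, 0, 0, 0, -((u - θ) / (u - 0))] x)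
      (1 - lP θ u x) := by
  refine covP a0 a1 (by linarith)
    (f := fun z => -((u - θ) / (u - 0)) * z + (pp (z - θ) + pp (z - 1)))
    (vsh_of _ (fun z => pp (z - 1)) 0 θ u 0 1 a0 a1 one_pos (fun x => by ring)
      (fun _ => pp_nonneg _) (fun _ _ h => pp_of_le (by linarith))) h0 h1
    fun z hz => ⟨hz.1, fun h => ?_, fun h => ?_⟩
  · obtain ⟨-, h2, h3⟩ := rk_mid (by linarith) hz
    rw [pp_of_le h] at h2 h3
    have h4 : z ≤ u := by linarith [le_pp (z - u)]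
    rw [pp_of_le h4] at h3
    refine (h3 (by ring)).2 ?_
    rw [pp_of_le (by linarith : z ≤ v), pp_of_le (by linarith : x ≤ v)]
    ring
  · obtain ⟨-, h2, -⟩ := rk_mid (by linarith) hz
    rw [pp_of_ge h.le] at h2
    linarith [le_pp (z - u)]

lemma covR1v (h0 : θ ≤ x) (h1 : x ≤ θ + 1) :
    Cov (RankRel (gv θ u v fun _ => 0)
      ![0, 0, 0, -1, -1, -1 - (θ + 1 - 1) / (θ + 1 - v)] x) (1 - lR θ 1 v x) := by
  refine covR (by linarith) a3 (by linarith)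
    (f := fun z => (-1 - (θ + 1 - 1) / (θ + 1 - v)) * z + (pp (z - θ) + pp (z - 1)))
    (vsh_of _ (fun z => pp (θ - z)) v 1 (θ + 1) (-θ) 1 a3 (by linarith) one_pos
      (fun x => by rw [pp_flip x θ]; ring)
      (fun _ => pp_nonneg _) (fun _ h _ => pp_of_le (by linarith))) h0 h1
    fun z hz => ⟨(rk_mid h1 hz).1, fun h => ?_, fun h => ?_⟩
  · obtain ⟨-, h2, h3⟩ := rk_mid h1 hz
    rw [pp_of_ge (by linarith : u ≤ x)] at h2 h3
    obtain ⟨h4, h5⟩ := h3 (by linarith [le_pp (z - u)])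
    rw [pp_of_ge h] at h4 h5
    exact h5 (by linarith [le_pp (z - v)])
  · obtain ⟨-, h2, h3⟩ := rk_mid h1 hz
    rcases le_total x u with h4 | h4
    · rw [pp_of_le h4] at h2
      linarith [pp_nonneg (z - u)]
    · rw [pp_of_ge h4] at h2 h3
      obtain ⟨h5, -⟩ := h3 (by linarith [le_pp (z - u)])
      rw [pp_of_le h.le] at h5
      linarith [pp_nonneg (z - v)]

end

end Pool.Agent.P.MP_8707bd_ag.Irr
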