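import Mathlib
import Pool.Agent.P.MP_8707bd_ag.Irr.Rank

/-!
The tiling with three layers and twelve groups of points (helper file only).
-/

namespace Pool.Agent.P.MP_8707bd_ag.Irr

/-- The equations and inequalities satisfied by the numbers of points in the groups. -/
structure Bal (κ θ u v s r3 a t0 t1 t2 t3 p2 r2 p1 r1 : ℝ) : Prop where
  eH : s + p2 * (1 - v) + p1 * (1 - u) = κ * (θ + 2)
  eS : -s + t0 * (1 / θ) + t2 * (1 / u) + p2 * (v / u) + p1 * (u / θ) = -κ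
  eθ : r3 + a - t0 * pa θ 1 + t1 * (1 + pb (θ + 1 - 1) (θ + 1 - θ)) +
    t3 * (1 + pb (θ + 1 - u) (θ + 1 - θ)) + r2 - p1 * pa θ u + r1 = 0
  eu : r3 * pb (θ + 1 - 1) (θ + 1 - u) - t2 * pa u 1 - t3 * pa (θ + 1 - u) (θ + 1 - θ) -
    p2 * pa u v + r2 * pb (θ + 1 - v) (θ + 1 - u) + p1 * pb θ u = 0
  ev : p2 * pb u v - r2 * pa (θ + 1 - v) (θ + 1 - u) + r1 * pb (θ + 1 - 1) (θ + 1 - v) = 0
  e1 : s - r3 * pa (θ + 1 - 1) (θ + 1 - u) + t0 * (pb θ 1 + 1) -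
    t1 * pa (θ + 1 - 1) (θ + 1 - θ) + t2 * (pb u 1 + 1) + p2 + p1 -
    r1 * pa (θ + 1 - 1) (θ + 1 - v) = 0
  iX : 0 < s - r3 * pa (θ + 1 - 1) (θ + 1 - u)
  iθ : 0 < a - t0 * pa θ 1 + t1 * (1 + pb (θ + 1 - 1) (θ + 1 - θ))
  i1 : 0 < t0 * (pb θ 1 + 1) - t1 * pa (θ + 1 - 1) (θ + 1 - θ)

/-- The bottom front. -/
noncomputable def bot (θ u s r3 x : ℝ) : ℝ := s * (1 - x + pp (x - 1)) + r3 * lR θ 1 u x

/-- The thickness of the top layer. -/
noncomputable def top (θ a t0 t1 x : ℝ) : ℝ :=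
  a * pp (x - θ) + t0 * lP θ 1 x + t1 * lR θ 1 θ x

/-- The front of the bottom layer. -/
noncomputable def frX (θ u s r3 x : ℝ) : ℝ := if x ≤ θ + 1 then bot θ u s r3 x else -1

/-- The front of the top layer. -/
noncomputable def frY (κ θ a t0 t1 x : ℝ) : ℝ :=
  if x ≤ θ + 1 then top θ a t0 t1 x - κ * (θ + 2 - x) else -(κ * (θ + 2 - x)) - 1

section
variable {κ θ u v s r3 a t0 t1 t2 t3 p2 r2 p1 r1 : ℝ}
variable (a0 : 0 < θ) (a1 : θ < u) (a2 : u < v) (a3 : v < 1)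
include a0 a1 a2 a3

lemma covR1u (hr : 0 ≤ r3) (hB : 0 < s - r3 * pa (θ + 1 - 1) (θ + 1 - u)) :
    ∃ h : ℝ, ∀ x, θ ≤ x → x ≤ θ + 1 →
      Cov (RankRel (gv θ u v (frX θ u s r3)) ![0, 0, h, 0, 0, 0] x) (1 - lR θ 1 u x) := by
  set B := s - r3 * pa (θ + 1 - 1) (θ + 1 - u) with hBd
  set β := pb (θ + 1 - 1) (θ + 1 - u) with hβ
  have hβ0 : 0 ≤ β := div_nonneg (by linarith) (by linarith)
  set σ := B * (θ + 1 - 1) / (θ + 1 - u) with hσ
  have hσ0 : 0 < σ := div_pos (mul_pos hB (by linarith)) (by linarith)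
  refine ⟨s - r3 - r3 * β - σ, fun x h0 h1 => ?_⟩
  have hf : ∀ z, (s - r3 - r3 * β - σ) * z + bot θ u s r3 z =
      (s - r3 * θ - r3 * β * u) - σ * z + B * pp (z - 1) +
        (r3 * pp (θ - z) + r3 * β * pp (u - z)) := by
    intro z
    rw [bot, lR, pp_flip z θ, pp_flip z u, hBd]
    ring
  have hle : ∀ z, RankRel (gv θ u v (frX θ u s r3)) ![0, 0, s - r3 - r3 * β - σ, 0, 0, 0] x z →
      (s - r3 - r3 * β - σ) * z + bot θ u s r3 z ≤
        (s - r3 - r3 * β - σ) * x + bot θ u s r3 x := by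
    intro z hz
    obtain ⟨h2, h3⟩ := rk_front h1 hz
    simpa only [frX, if_pos h1, if_pos h2] using h3
  refine covR a1.le (by linarith) (by linarith)
    (f := fun z => (s - r3 - r3 * β - σ) * z + bot θ u s r3 z)
    (vsh_of _ (fun z => r3 * pp (θ - z) + r3 * β * pp (u - z)) u 1 (θ + 1)
      (s - r3 * θ - r3 * β * u) B (by linarith) (by linarith) hB hf
      (fun z => add_nonneg (mul_nonneg hr (pp_nonneg _))
        (mul_nonneg (mul_nonneg hr hβ0) (pp_nonneg _)))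
      (fun z h _ => by rw [pp_of_le h, pp_of_le (by linarith : θ ≤ z)]; ring)) h0 h1
    fun z hz => ⟨(rk_front h1 hz).1, fun _ => hle z hz, fun h => ?_⟩
  have h2 := hle z hz
  rw [hf, hf] at h2
  by_contra hc
  push Not at hc
  rw [pp_of_le (by linarith : z ≤ 1), pp_of_le (by linarith : x ≤ 1)] at h2
  have h3 := mul_le_mul_of_nonneg_left (pp_mono (by linarith : θ - x ≤ θ - z)) hr
  have h4 := mul_le_mul_of_nonneg_left (pp_mono (by linarith : u - x ≤ u - z))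
    (mul_nonneg hr hβ0)
  nlinarith [mul_pos hσ0 (sub_pos.2 hc)]

omit a0 a1 a2 a3 in
lemma top_eq (z : ℝ) : top θ a t0 t1 z = t0 * (1 / θ) * z +
    (a - t0 * pa θ 1 + t1 * (1 + pb (θ + 1 - 1) (θ + 1 - θ))) * pp (z - θ) +
    (t0 * (pb θ 1 + 1) - t1 * pa (θ + 1 - 1) (θ + 1 - θ)) * pp (z - 1) := by
  rw [top, lP, lR]
  ring

lemma covPθ1 (hB : 0 < a - t0 * pa θ 1 + t1 * (1 + pb (θ + 1 - 1) (θ + 1 - θ)))
    (hC : 0 < t0 * (pb θ 1 + 1) - t1 * pa (θ + 1 - 1) (θ + 1 - θ)) :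
    ∃ h : ℝ, ∀ x, 0 ≤ x → x ≤ 1 →
      Cov (RankRel (gv θ u v (frY κ θ a t0 t1)) ![0, 0, h, 0, 0, 0] x) (1 - lP θ 1 x) := by
  set B := a - t0 * pa θ 1 + t1 * (1 + pb (θ + 1 - 1) (θ + 1 - θ)) with hBd
  set C := t0 * (pb θ 1 + 1) - t1 * pa (θ + 1 - 1) (θ + 1 - θ) with hCd
  set h := -(B * (1 - θ) / (1 - 0)) - t0 * (1 / θ) - κ with hh
  refine ⟨h, fun x h0 h1 => ?_⟩
  have hx : x ≤ θ + 1 := by linarith
  refine covP a0 (by linarith) le_rfl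
    (f := fun z => h * z + (top θ a t0 t1 z - κ * (θ + 2 - z)))
    (vsh_of _ (fun z => C * pp (z - 1)) 0 θ 1 (-(κ * (θ + 2))) B a0 (by linarith) hB
      (fun z => by rw [top_eq, ← hBd, ← hCd, hh]; ring)
      (fun z => mul_nonneg hC.le (pp_nonneg _))
      (fun z _ h => by rw [pp_of_le h]; ring)) h0 h1
    fun z hz => ⟨hz.1, fun _ => ?_, fun h => by linarith⟩
  obtain ⟨h2, h3⟩ := rk_front hx hz
  simpa only [frY, if_pos hx, if_pos h2] using h3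

lemma covR1θ (hB : 0 < a - t0 * pa θ 1 + t1 * (1 + pb (θ + 1 - 1) (θ + 1 - θ)))
    (hC : 0 < t0 * (pb θ 1 + 1) - t1 * pa (θ + 1 - 1) (θ + 1 - θ)) :
    ∃ h : ℝ, ∀ x, θ ≤ x → x ≤ θ + 1 →
      Cov (RankRel (gv θ u v (frY κ θ a t0 t1)) ![0, 0, h, 0, 0, 0] x) (1 - lR θ 1 θ x) := by
  set B := a - t0 * pa θ 1 + t1 * (1 + pb (θ + 1 - 1) (θ + 1 - θ)) with hBd
  set C := t0 * (pb θ 1 + 1) - t1 * pa (θ + 1 - 1) (θ + 1 - θ) with hCd
  set h := -(C * (θ + 1 - 1) / (θ + 1 - θ)) - t0 * (1 / θ) - κ - B with hh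
  refine ⟨h, fun x h0 hx => ?_⟩
  refine covR le_rfl (by linarith) (by linarith)
    (f := fun z => h * z + (top θ a t0 t1 z - κ * (θ + 2 - z)))
    (vsh_of _ (fun z => B * pp (θ - z)) θ 1 (θ + 1) (-(κ * (θ + 2)) - B * θ) C (by linarith)
      (by linarith) hC
      (fun z => by rw [top_eq, ← hBd, ← hCd, hh, pp_flip z θ]; ring)
      (fun z => mul_nonneg hB.le (pp_nonneg _))
      (fun z h _ => by rw [pp_of_le h]; ring)) h0 hx
    fun z hz => ⟨(rk_front hx hz).1, fun _ => ?_, fun h => by linarith⟩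
  obtain ⟨h2, h3⟩ := rk_front hx hz
  simpa only [frY, if_pos hx, if_pos h2] using h3

omit a0 a1 a2 a3 in
lemma total_eq (hb : Bal κ θ u v s r3 a t0 t1 t2 t3 p2 r2 p1 r1) (x : ℝ) :
    bot θ u s r3 x + top θ a t0 t1 x + (t2 * lP u 1 x + t3 * lR θ u θ x + p2 * lP u v x +
      r2 * lR θ v u x + p1 * lP θ u x + r1 * lR θ 1 v x) = κ * (θ + 2 - x) := by
  simp only [bot, top, lP, lR]
  linear_combination hb.eH + x * hb.eS + pp (x - θ) * hb.eθ + pp (x - u) * hb.eu +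
    pp (x - v) * hb.ev + pp (x - 1) * hb.e1

end

lemma lay {θ u v κ L x y : ℝ} {f0 f2 : ℝ → ℝ} {k : Fin 3}
    (H : LayerRel κ L ![gv θ u v f0, gv θ u v fun _ => 0, gv θ u v f2]
      ![![0, 0, 1, 0, 0, 0], ![0, 0, 0, 0, 0, 0], ![0, 0, -1, 0, 0, 0]] k x y) (k' : Fin 3) :
    (![f0 x, 0, f2 x] : Fin 3 → ℝ) k' - (![1, 0, -1] : Fin 3 → ℝ) k' * y ≤
      (![f0 x, 0, f2 x] : Fin 3 → ℝ) k - (![1, 0, -1] : Fin 3 → ℝ) k * y := by
  have h := lex6 (H.2.2 k')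
  fin_cases k <;> fin_cases k' <;> exact ((h.2 rfl).2 rfl).1

theorem tiling (δ : ℕ) (hδ : 0 < δ) (θ u v : ℝ) (a0 : 0 < θ) (a1 : θ < u) (a2 : u < v)
    (a3 : v < 1) (s r3 a t0 t1 t2 t3 p2 r2 p1 r1 : ℕ) (n1 : 1 ≤ s) (n2 : 1 ≤ r3) (n3 : 1 ≤ a)
    (n4 : 1 ≤ t0) (n5 : 1 ≤ p2) (n6 : 1 ≤ r2)
    (hb : Bal ((δ : ℝ) ^ 2) θ u v s r3 a t0 t1 t2 t3 p2 r2 p1 r1) (r : ℕ)
    (hr : r = s + r3 + a + t0 + t1 + t2 + t3 + p2 + r2 + p1 + r1 + δ ^ 2)
    (m d : ℕ) (hm : 2 < m) (hd : (d : ℝ) ≤ δ * (θ + 2) * (m - 2)) :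
    ∃ Φ : MvPolynomial (Fin r × Fin 3) ℂ, Φ ≠ 0 ∧ ∀ q : Fin r → Fin 3 → ℂ,
      MvPolynomial.eval (fun ij : Fin r × Fin 3 => q ij.1 ij.2) Φ ≠ 0 →
      fat q (fun _ => m) d = ⊥ := by
  have hr' : r = ∑ t, (![s, r3, a, t0, t1, t2, t3, p2, r2, p1, r1, δ ^ 2] : Fin 12 → ℕ) t := by
    rw [hr]
    simp only [Fin.sum_univ_succ, Matrix.cons_val_zero, Matrix.cons_val_succ, Fin.sum_univ_zero]
    ring
  subst hr'
  obtain ⟨hX, cX⟩ := covR1u (s := s) (r3 := r3) a0 a1 a2 a3 (by positivity) hb.iX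
  obtain ⟨hY, cY⟩ := covPθ1 (κ := (δ : ℝ) ^ 2) a0 a1 a2 a3 hb.iθ hb.i1
  obtain ⟨hZ, cZ⟩ := covR1θ (κ := (δ : ℝ) ^ 2) a0 a1 a2 a3 hb.iθ hb.i1
  refine cont_layered δ hδ (θ + 2) (p := 6) (K := Fin 3) _ ![0, 0, 2, 2, 2, 1, 1, 1, 1, 1, 1, 1]
    ![gv θ u v (frX θ u s r3), gv θ u v fun _ => 0, gv θ u v (frY ((δ : ℝ) ^ 2) θ a t0 t1)]
    ![![0, 0, 1, 0, 0, 0], ![0, 0, 0, 0, 0, 0], ![0, 0, -1, 0, 0, 0]]
    ![![1, 0, 0, 0, 0, 0], ![0, 0, hX, 0, 0, 0], ![0, -1, 0, 0, 0, 0], ![0, 0, hY, 0, 0, 0],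
      ![0, 0, hZ, 0, 0, 0], ![0, 0, 0, -((1 - u) / (1 - 0)), 0, 0],
      ![0, 0, 0, -((θ + 1 - u) / (θ + 1 - θ)), 0, 0], ![0, 0, 0, -((v - u) / (v - 0)), 0, 0],
      ![0, 0, 0, -1, -((θ + 1 - v) / (θ + 1 - u)), 0], ![0, 0, 0, 0, 0, -((u - θ) / (u - 0))],
      ![0, 0, 0, -1, -1, -1 - (θ + 1 - 1) / (θ + 1 - v)], ![-1, 1, 0, 0, 0, 0]]
    (fun x h0 hL => ?_) m d hm hd
  have u0 : 0 < u := by linarith
  have u1 : u < 1 := by linarith
  have θ1 : θ < 1 := by linarith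
  have w1 : 1 < θ + 1 := by linarith
  have θv : θ ≤ v := by linarith
  rcases le_or_gt x (θ + 1) with hx | hx
  · refine ⟨![1 - x + pp (x - 1), lR θ 1 u x, pp (x - θ), lP θ 1 x, lR θ 1 θ x, lP u 1 x,
      lR θ u θ x, lP u v x, lR θ v u x, lP θ u x, lR θ 1 v x, 0], fun t => ?_, fun k => ?_⟩
    · have cl : ∀ {P Q : Prop}, (1 ≤ x → P) → (x ≤ 1 → Q) → P ∨ Q :=
        fun hp hq => (le_total 1 x).imp hp hq
      have cr : ∀ {P Q : Prop}, (x ≤ θ → P) → (θ ≤ x → Q) → P ∨ Q :=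
        fun hp hq => (le_total x θ).imp hp hq
      fin_cases t
      · exact cl (fun h => by
          show 1 - x + pp (x - 1) ≤ 0
          rw [pp_of_ge h]; linarith) fun h => covS h0 h
      · exact cr (fun h => lR_zero a1.le u1 h) fun h => cX x h hx
      · exact cr (fun h => (pp_of_le h).le) fun h => covA h hx
      · exact cl (fun h => lP_zero a0 θ1 le_rfl h) fun h => cY x h0 h
      · exact cr (fun h => lR_zero le_rfl θ1 h) fun h => cZ x h hx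
      · exact cl (fun h => lP_zero u0 u1 le_rfl h) fun h => covPu1 a0 a1 a2 a3 h0 h
      · exact cr (fun h => lR_zero le_rfl a1 h) fun h => covRuθ a0 a1 a2 a3 h hx
      · exact cl (fun h => lP_zero u0 a2 a3.le h) fun h => covPuv a0 a1 a2 a3 h0 h
      · exact cr (fun h => lR_zero a1.le a2 h) fun h => covRvu a0 a1 a2 a3 h hx
      · exact cl (fun h => lP_zero a0 a1 u1.le h) fun h => covPθu a0 a1 a2 a3 h0 h
      · exact cr (fun h => lR_zero θv a3 h) fun h => covR1v a0 a1 a2 a3 h hx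
      · exact Or.inl le_rfl
    · right
      have q0 : 0 ≤ 1 - x + pp (x - 1) := by linarith [le_pp (x - 1)]
      have q1 := lR_nonneg a1.le u1 w1 hx
      have q2 := pp_nonneg (x - θ)
      have q3 := lP_nonneg a0 θ1 le_rfl h0
      have q4 := lR_nonneg le_rfl θ1 w1 hx
      have q5 := lP_nonneg u0 u1 le_rfl h0
      have q6 := lR_nonneg le_rfl a1 (by linarith) hx
      have q7 := lP_nonneg u0 a2 a3.le h0
      have q8 := lR_nonneg a1.le a2 (by linarith) hx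
      have q9 := lP_nonneg a0 a1 u1.le h0
      have q10 := lR_nonneg θv a3 w1 hx
      have hT := total_eq hb x
      have eX : frX θ u s r3 x = bot θ u s r3 x := if_pos hx
      have eY : frY ((δ : ℝ) ^ 2) θ a t0 t1 x =
        top θ a t0 t1 x - (δ : ℝ) ^ 2 * (θ + 2 - x) := if_pos hx
      fin_cases k
      · refine ⟨cov_of 0 (bot θ u s r3 x) (by rw [bot]; positivity) ?_ fun y hy => ⟨hy.1, ?_⟩, ?_⟩
        · simp [Fin.sum_univ_succ, bot]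
        · have : (0 : ℝ) - 0 * y ≤ frX θ u s r3 x - 1 * y := lay hy 1
          linarith
        · rcases le_total x 1 with h | h
          · exact ⟨0, rfl, n1, covS h0 h⟩
          · exact ⟨1, rfl, n2, cX x (by linarith) hx⟩
      · have q11 : 0 ≤ t2 * lP u 1 x + t3 * lR θ u θ x + p2 * lP u v x +
            r2 * lR θ v u x + p1 * lP θ u x + r1 * lR θ 1 v x := by positivity
        refine ⟨cov_of (bot θ u s r3 x) ((δ : ℝ) ^ 2 * (θ + 2 - x) - top θ a t0 t1 x)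
          (by linarith) ?_ fun y hy => ⟨?_, ?_⟩, ?_⟩
        · rw [← hT]
          simp [Fin.sum_univ_succ]
          ring
        · have : frX θ u s r3 x - 1 * y ≤ (0 : ℝ) - 0 * y := lay hy 0
          linarith
        · have : frY ((δ : ℝ) ^ 2) θ a t0 t1 x - (-1) * y ≤ (0 : ℝ) - 0 * y := lay hy 2
          linarith
        · rcases le_total x 1 with h | h
          · exact ⟨7, rfl, n5, covPuv a0 a1 a2 a3 h0 h⟩
          · exact ⟨8, rfl, n6, covRvu a0 a1 a2 a3 (by linarith) hx⟩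
      · have q11 : 0 ≤ top θ a t0 t1 x := by rw [top]; positivity
        refine ⟨cov_of ((δ : ℝ) ^ 2 * (θ + 2 - x) - top θ a t0 t1 x) ((δ : ℝ) ^ 2 * (θ + 2 - x))
          (by linarith) ?_ fun y hy => ⟨?_, hy.2.1⟩, ?_⟩
        · simp [Fin.sum_univ_succ, top]
          ring
        · have : (0 : ℝ) - 0 * y ≤ frY ((δ : ℝ) ^ 2) θ a t0 t1 x - (-1) * y := lay hy 1
          linarith
        · rcases le_total x 1 with h | h
          · exact ⟨3, rfl, n4, cY x h0 h⟩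
          · exact ⟨2, rfl, n3, covA (by linarith) hx⟩
  · refine ⟨![0, 0, 0, 0, 0, 0, 0, 0, 0, 0, 0, θ + 2 - x], fun t => ?_, fun k => ?_⟩
    · fin_cases t
      iterate 11 exact Or.inl le_rfl
      exact Or.inr (covS' hx.le)
    · have eX : frX θ u s r3 x = -1 := if_neg (not_le.2 hx)
      have eY : frY ((δ : ℝ) ^ 2) θ a t0 t1 x = -((δ : ℝ) ^ 2 * (θ + 2 - x)) - 1 :=
        if_neg (not_le.2 hx)
      fin_cases k
      · refine Or.inl fun y hy => ?_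
        have : (0 : ℝ) - 0 * y ≤ frX θ u s r3 x - 1 * y := lay hy 1
        linarith [hy.1]
      · refine Or.inr ⟨cov_of 0 ((δ : ℝ) ^ 2 * (θ + 2 - x))
          (mul_nonneg (by positivity) (by linarith)) ?_ fun y hy => ⟨hy.1, hy.2.1⟩,
          11, rfl, Nat.one_le_pow _ _ hδ, covS' hx.le⟩
        simp [Fin.sum_univ_succ]
      · refine Or.inl fun y hy => ?_
        have : (0 : ℝ) - 0 * y ≤ frY ((δ : ℝ) ^ 2) θ a t0 t1 x - (-1) * y := lay hy 1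
        linarith [hy.2.1]

end Pool.Agent.P.MP_8707bd_ag.Irr
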