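import Mathlib
import Pool.Agent.P.MP_8707bd_ag.Irr.Tile

/-!
Rational solutions of the balance equations for irrational widths (helper file only).
-/

namespace Pool.Agent.P.MP_8707bd_ag.Irr

open Filter Topology

/-- A polynomial of degree at most four with integer coefficients. -/
noncomputable def q4 (a b c d e : ℤ) (ρ : ℝ) : ℝ := a + b * ρ + c * ρ ^ 2 + d * ρ ^ 3 + e * ρ ^ 4

lemma q4_nat (a b c d e : ℤ) (x y : ℕ) (hy : 0 < y) (h : 0 < q4 a b c d e (x / y)) :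
    ∃ n : ℕ, 1 ≤ n ∧ (n : ℝ) = (y : ℝ) ^ 4 * q4 a b c d e (x / y) := by
  have hy' : (0 : ℝ) < y := by exact_mod_cast hy
  have h1 : ((a * y ^ 4 + b * x * y ^ 3 + c * x ^ 2 * y ^ 2 + d * x ^ 3 * y + e * x ^ 4 : ℤ) : ℝ) =
      (y : ℝ) ^ 4 * q4 a b c d e (x / y) := by
    rw [q4]
    push_cast
    field_simp
  have h2 : 0 < a * y ^ 4 + b * x * y ^ 3 + c * x ^ 2 * y ^ 2 + d * x ^ 3 * y + e * x ^ 4 := by
    have : (0 : ℝ) < (y : ℝ) ^ 4 * q4 a b c d e (x / y) := by positivity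
    rw [← h1] at this
    exact_mod_cast this
  obtain ⟨n, hn⟩ := Int.eq_ofNat_of_zero_le h2.le
  refine ⟨n, by omega, ?_⟩
  rw [← h1, hn]
  simp

/-- A group size. -/
noncomputable def cs (ρ : ℝ) : ℝ := q4 2268001120 (-1222163440) 219488506 (-13136224) 0 ρ
/-- A group size. -/
noncomputable def cr3 (ρ : ℝ) : ℝ := q4 508440240 (-277598880) 50429250 (-3048435) 0 ρ
/-- A group size. -/
noncomputable def ca (ρ : ℝ) : ℝ := q4 774636840 (-416291130) 74578842 (-4453758) 0 ρ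
/-- A group size. -/
noncomputable def ct0 (ρ : ℝ) : ℝ := q4 8873728560 (-6731592480) 1895128983 (-235075230) 10854432 ρ
/-- A group size. -/
noncomputable def ct1 (ρ : ℝ) : ℝ := q4 6455852640 (-5072221440) 1476513882 (-189149481) 9011952 ρ
/-- A group size. -/
noncomputable def ct2 (ρ : ℝ) : ℝ := q4 (-105820033440) 73827673680 (-19307190702) 2243142750 (-97689888) ρ
/-- A group size. -/
noncomputable def ct3 (ρ : ℝ) : ℝ := q4 85165632000 (-58156575120) 14884230240 (-1692104544) 72095616 ρ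
/-- A group size. -/
noncomputable def cp2 (ρ : ℝ) : ℝ := q4 158479200 (-87206040) 15970500 (-973440) 0 ρ
/-- A group size. -/
noncomputable def cr2 (ρ : ℝ) : ℝ := q4 123991560 (-68589450) 12628845 (-773955) 0 ρ
/-- A group size. -/
noncomputable def cp1 (ρ : ℝ) : ℝ := q4 84202640 (-47508800) 8897477 (-553328) 0 ρ
/-- A group size. -/
noncomputable def cr1 (ρ : ℝ) : ℝ := q4 421621200 (-230792220) 42038730 (-2548260) 0 ρ
/-- A group size. -/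
noncomputable def ck (ρ : ℝ) : ℝ := q4 985447440 (-531687240) 95598207 (-5727888) 0 ρ

lemma Bal.smul {κ θ u v s r3 a t0 t1 t2 t3 p2 r2 p1 r1 : ℝ}
    (hb : Bal κ θ u v s r3 a t0 t1 t2 t3 p2 r2 p1 r1) (c : ℝ) (hc : 0 < c) :
    Bal (c * κ) θ u v (c * s) (c * r3) (c * a) (c * t0) (c * t1) (c * t2) (c * t3) (c * p2)
      (c * r2) (c * p1) (c * r1) := by
  refine ⟨by linear_combination c * hb.eH, by linear_combination c * hb.eS,
    by linear_combination c * hb.eθ, by linear_combination c * hb.eu,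
    by linear_combination c * hb.ev, by linear_combination c * hb.e1, ?_, ?_, ?_⟩
  · exact (mul_pos hc hb.iX).trans_eq (by ring)
  · exact (mul_pos hc hb.iθ).trans_eq (by ring)
  · exact (mul_pos hc hb.i1).trans_eq (by ring)

lemma area (L : ℝ) : cs (L ^ 2) + cr3 (L ^ 2) + ca (L ^ 2) + ct0 (L ^ 2) + ct1 (L ^ 2) +
    ct2 (L ^ 2) + ct3 (L ^ 2) + cp2 (L ^ 2) + cr2 (L ^ 2) + cp1 (L ^ 2) + cr1 (L ^ 2) +
    ck (L ^ 2) = ck (L ^ 2) * L ^ 2 := by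
  simp only [cs, cr3, ca, ct0, ct1, ct2, ct3, cp2, cr2, cp1, cr1, ck, q4]
  push_cast
  ring

lemma bal_of (L θ u v : ℝ) (hθ : θ = L - 2) (hu : u = 9 * L - 21) (hv : v = 27 - 11 * L)
    (a0 : 0 < θ) (a1 : θ < u) (a2 : u < v) (a3 : v < 1)
    (iX : 0 < cs (L ^ 2) - cr3 (L ^ 2) * pa (θ + 1 - 1) (θ + 1 - u))
    (iθ : 0 < ca (L ^ 2) - ct0 (L ^ 2) * pa θ 1 + ct1 (L ^ 2) * (1 + pb (θ + 1 - 1) (θ + 1 - θ)))
    (i1 : 0 < ct0 (L ^ 2) * (pb θ 1 + 1) - ct1 (L ^ 2) * pa (θ + 1 - 1) (θ + 1 - θ)) :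
    Bal (ck (L ^ 2)) θ u v (cs (L ^ 2)) (cr3 (L ^ 2)) (ca (L ^ 2)) (ct0 (L ^ 2)) (ct1 (L ^ 2)) (ct2 (L ^ 2)) (ct3 (L ^ 2)) (cp2 (L ^ 2)) (cr2 (L ^ 2)) (cp1 (L ^ 2)) (cr1 (L ^ 2)) := by
  have n0 : θ ≠ 0 := a0.ne'
  have n1 : u ≠ 0 := by linarith
  have n2 : 1 - θ ≠ 0 := by linarith
  have n3 : 1 - u ≠ 0 := by linarith
  have n4 : 1 - v ≠ 0 := by linarith
  have n5 : u - θ ≠ 0 := by linarith
  have n6 : v - u ≠ 0 := by linarith
  have n7 : θ + 1 - u ≠ 0 := by linarith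
  have n8 : θ + 1 - v ≠ 0 := by linarith
  have e1 : θ + 1 - 1 = θ := by ring
  have e2 : θ + 1 - θ = 1 := by ring
  have e3 : θ + 1 - u - θ = 1 - u := by ring
  have e4 : θ + 1 - v - θ = 1 - v := by ring
  have e5 : 1 - (θ + 1 - u) = u - θ := by ring
  have e6 : θ + 1 - u - (θ + 1 - v) = v - u := by ring
  refine ⟨?_, ?_, ?_, ?_, ?_, ?_, iX, iθ, i1⟩ <;>
  · try simp only [pa, pb, e1, e2, e3, e4, e5, e6]
    try field_simp
    simp only [cs, cr3, ca, ct0, ct1, ct2, ct3, cp2, cr2, cp1, cr1, ck, q4, hθ, hu, hv]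
    push_cast
    ring

lemma pos_ev (f : ℝ → ℝ) (c : ℝ) (h : ContinuousAt f c) (h0 : 0 < f c) :
    ∀ᶠ L in 𝓝 c, 0 < f L := h.eventually (lt_mem_nhds h0)

lemma window : ∀ᶠ L in 𝓝 (119 / 50 : ℝ), 0 < L - 2 ∧ L - 2 < 9 * L - 21 ∧
    9 * L - 21 < 27 - 11 * L ∧ 27 - 11 * L < 1 ∧
    (0 < cs (L ^ 2) ∧ 0 < cr3 (L ^ 2) ∧ 0 < ca (L ^ 2) ∧ 0 < ct0 (L ^ 2) ∧ 0 < ct1 (L ^ 2) ∧ 0 < ct2 (L ^ 2) ∧ 0 < ct3 (L ^ 2) ∧ 0 < cp2 (L ^ 2) ∧ 0 < cr2 (L ^ 2) ∧ 0 < cp1 (L ^ 2) ∧ 0 < cr1 (L ^ 2) ∧ 0 < ck (L ^ 2)) ∧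
    Bal (ck (L ^ 2)) (L - 2) (9 * L - 21) (27 - 11 * L) (cs (L ^ 2)) (cr3 (L ^ 2)) (ca (L ^ 2)) (ct0 (L ^ 2)) (ct1 (L ^ 2)) (ct2 (L ^ 2)) (ct3 (L ^ 2)) (cp2 (L ^ 2)) (cr2 (L ^ 2)) (cp1 (L ^ 2)) (cr1 (L ^ 2)) := by
  have b0 := pos_ev (fun L => L - 2) (119 / 50) (by fun_prop) (by norm_num)
  have b1 := pos_ev (fun L => 9 * L - 21 - (L - 2)) (119 / 50) (by fun_prop) (by norm_num)
  have b2 := pos_ev (fun L => 27 - 11 * L - (9 * L - 21)) (119 / 50) (by fun_prop) (by norm_num)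
  have b3 := pos_ev (fun L => 1 - (27 - 11 * L)) (119 / 50) (by fun_prop) (by norm_num)
  have c0 := pos_ev (fun L => cs (L ^ 2)) (119 / 50) (by unfold cs q4; fun_prop)
    (by norm_num [cs, q4])
  have c1 := pos_ev (fun L => cr3 (L ^ 2)) (119 / 50) (by unfold cr3 q4; fun_prop)
    (by norm_num [cr3, q4])
  have c2 := pos_ev (fun L => ca (L ^ 2)) (119 / 50) (by unfold ca q4; fun_prop)
    (by norm_num [ca, q4])
  have c3 := pos_ev (fun L => ct0 (L ^ 2)) (119 / 50) (by unfold ct0 q4; fun_prop)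
    (by norm_num [ct0, q4])
  have c4 := pos_ev (fun L => ct1 (L ^ 2)) (119 / 50) (by unfold ct1 q4; fun_prop)
    (by norm_num [ct1, q4])
  have c5 := pos_ev (fun L => ct2 (L ^ 2)) (119 / 50) (by unfold ct2 q4; fun_prop)
    (by norm_num [ct2, q4])
  have c6 := pos_ev (fun L => ct3 (L ^ 2)) (119 / 50) (by unfold ct3 q4; fun_prop)
    (by norm_num [ct3, q4])
  have c7 := pos_ev (fun L => cp2 (L ^ 2)) (119 / 50) (by unfold cp2 q4; fun_prop)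
    (by norm_num [cp2, q4])
  have c8 := pos_ev (fun L => cr2 (L ^ 2)) (119 / 50) (by unfold cr2 q4; fun_prop)
    (by norm_num [cr2, q4])
  have c9 := pos_ev (fun L => cp1 (L ^ 2)) (119 / 50) (by unfold cp1 q4; fun_prop)
    (by norm_num [cp1, q4])
  have c10 := pos_ev (fun L => cr1 (L ^ 2)) (119 / 50) (by unfold cr1 q4; fun_prop)
    (by norm_num [cr1, q4])
  have c11 := pos_ev (fun L => ck (L ^ 2)) (119 / 50) (by unfold ck q4; fun_prop)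
    (by norm_num [ck, q4])
  have d0 := pos_ev (fun L => cs (L ^ 2) - cr3 (L ^ 2) * pa (L - 2 + 1 - 1)
      (L - 2 + 1 - (9 * L - 21))) (119 / 50)
    (by unfold cs cr3 q4 pa; fun_prop (disch := norm_num)) (by norm_num [cs, cr3, q4, pa])
  have d1 := pos_ev (fun L => ca (L ^ 2) - ct0 (L ^ 2) * pa (L - 2) 1 +
      ct1 (L ^ 2) * (1 + pb (L - 2 + 1 - 1) (L - 2 + 1 - (L - 2)))) (119 / 50)
    (by unfold ca ct0 ct1 q4 pa pb; fun_prop (disch := norm_num))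
    (by norm_num [ca, ct0, ct1, q4, pa, pb])
  have d2 := pos_ev (fun L => ct0 (L ^ 2) * (pb (L - 2) 1 + 1) -
      ct1 (L ^ 2) * pa (L - 2 + 1 - 1) (L - 2 + 1 - (L - 2))) (119 / 50)
    (by unfold ct0 ct1 q4 pa pb; fun_prop (disch := norm_num))
    (by norm_num [ct0, ct1, q4, pa, pb])
  filter_upwards [b0, b1, b2, b3, c0, c1, c2, c3, c4, c5, c6, c7, c8, c9, c10, c11, d0, d1, d2]
    with L b0 b1 b2 b3 c0 c1 c2 c3 c4 c5 c6 c7 c8 c9 c10 c11 d0 d1 d2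
  exact ⟨b0, by linarith, by linarith, by linarith,
    ⟨c0, c1, c2, c3, c4, c5, c6, c7, c8, c9, c10, c11⟩,
    bal_of L _ _ _ rfl rfl rfl b0 (by linarith) (by linarith) (by linarith) d0 d1 d2⟩

end Pool.Agent.P.MP_8707bd_ag.Irr
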