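import Mathlib
import Pool.Agent.P.MP_8707bd_ag.Irr.Arith

/-!
The inequality of Nagata for `r = D t ^ 2` (helper file only).
-/

namespace Pool.Agent.P.MP_8707bd_ag.Irr

open Filter Topology

lemma fat_pow {r : ℕ} {p : Fin r → Fin 3 → ℂ} {m d k : ℕ}
    (h : fat p (fun _ => k * m) (k * d) = ⊥) : fat p (fun _ => m) d = ⊥ := by
  rw [eq_bot_iff]
  intro F hF
  have h1 : F.IsHomogeneous d ∧ ∀ i, F ∈ ptIdeal (p i) ^ m := by simpa [fat] using hF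
  have h2 : F ^ k ∈ fat p (fun _ => k * m) (k * d) := by
    have h3 : (F ^ k).IsHomogeneous (k * d) := by
      rw [mul_comm]; exact h1.1.pow k
    have h4 : ∀ i, F ^ k ∈ ptIdeal (p i) ^ (k * m) := fun i => by
      rw [mul_comm, pow_mul]; exact Ideal.pow_mem_pow (h1.2 i) k
    simpa [fat] using And.intro h3 h4
  rw [h, Submodule.mem_bot] at h2
  rw [Submodule.mem_bot]
  exact pow_eq_zero_iff'.1 h2 |>.1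

/-- From the tiling with a fixed loss to the strict inequality. -/
lemma sharp (r : ℕ) (ρ : ℝ) (hρ : 0 ≤ ρ) (hr : (r : ℝ) = ρ ^ 2)
    (h : ∀ m d : ℕ, 2 < m → (d : ℝ) ≤ ρ * (m - 2) →
      ∃ Φ : MvPolynomial (Fin r × Fin 3) ℂ, Φ ≠ 0 ∧ ∀ q : Fin r → Fin 3 → ℂ,
        MvPolynomial.eval (fun ij : Fin r × Fin 3 => q ij.1 ij.2) Φ ≠ 0 →
        fat q (fun _ => m) d = ⊥)
    (m d : ℕ) (hd : d ^ 2 < r * m ^ 2) :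
    ∃ Φ : MvPolynomial (Fin r × Fin 3) ℂ, Φ ≠ 0 ∧ ∀ q : Fin r → Fin 3 → ℂ,
      MvPolynomial.eval (fun ij : Fin r × Fin 3 => q ij.1 ij.2) Φ ≠ 0 →
      fat q (fun _ => m) d = ⊥ := by
  have hm : 0 < m := by
    rcases Nat.eq_zero_or_pos m with h0 | h0
    · subst h0; simp at hd
    · exact h0
  have h1 : (d : ℝ) < ρ * m := by
    have h2 : (d : ℝ) ^ 2 < (ρ * m) ^ 2 := by
      rw [mul_pow, ← hr]; exact_mod_cast hd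
    exact lt_of_pow_lt_pow_left₀ 2 (by positivity) h2
  obtain ⟨k, hk⟩ := exists_nat_gt (max 2 (2 * ρ / (ρ * m - d)))
  have hk2 : 2 < k := by exact_mod_cast lt_of_le_of_lt (le_max_left _ _) hk
  have hk3 : 2 * ρ < k * (ρ * m - d) :=
    (div_lt_iff₀ (by linarith)).1 (lt_of_le_of_lt (le_max_right _ _) hk)
  obtain ⟨Φ, hΦ, h3⟩ := h (k * m) (k * d) (by nlinarith) (by push_cast; nlinarith)
  exact ⟨Φ, hΦ, fun q hq => fat_pow (h3 q hq)⟩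

theorem nagata (D : ℕ) (hD : 1 ≤ D) : ∃ t : ℕ, 1 ≤ t ∧ ∀ s : ℕ, 1 ≤ s → ∀ r : ℕ,
    r = D * (t * s) ^ 2 → ∀ m d : ℕ, d ^ 2 < r * m ^ 2 →
    ∃ Φ : MvPolynomial (Fin r × Fin 3) ℂ, Φ ≠ 0 ∧ ∀ q : Fin r → Fin 3 → ℂ,
      MvPolynomial.eval (fun ij : Fin r × Fin 3 => q ij.1 ij.2) Φ ≠ 0 →
      fat q (fun _ => m) d = ⊥ := by
  obtain ⟨l, w, ⟨hl, hw⟩, hsub⟩ := mem_nhds_iff_exists_Ioo_subset.1 window
  have hD' : (0 : ℝ) < D := by exact_mod_cast hD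
  have hs : 0 < √(D : ℝ) := Real.sqrt_pos.2 hD'
  obtain ⟨q, hq1, hq2⟩ := exists_rat_btwn
    (div_lt_div_of_pos_right (show (119 / 50 : ℝ) < w from hw) hs)
  have hq0 : (0 : ℝ) < q := lt_trans (by positivity) hq1
  have hq0' : 0 < q := by exact_mod_cast hq0
  obtain ⟨A, hA⟩ := Int.eq_ofNat_of_zero_le (Rat.num_pos.2 hq0').le
  have hA0 : 1 ≤ A := by have := Rat.num_pos.2 hq0'; omega
  set B : ℕ := q.den with hB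
  have hB0 : 0 < B := q.pos
  have hB' : (0 : ℝ) < B := by exact_mod_cast hB0
  have hqAB : (q : ℝ) = A / B := by
    rw [Rat.cast_def, hA]; simp [hB]
  set L : ℝ := q * √(D : ℝ) with hL
  have hL2 : L ^ 2 = ((A ^ 2 * D : ℕ) : ℝ) / ((B ^ 2 : ℕ) : ℝ) := by
    rw [hL, mul_pow, Real.sq_sqrt hD'.le, hqAB]
    push_cast
    field_simp
  obtain ⟨a0, a1, a2, a3, ⟨c0, c1, c2, c3, c4, c5, c6, c7, c8, c9, c10, c11⟩, hb⟩ :=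
    hsub (show L ∈ Set.Ioo l w from
      ⟨lt_trans hl ((div_lt_iff₀ hs).1 hq1), (lt_div_iff₀ hs).1 hq2⟩)
  have har := area L
  have key : ∀ a b c d e : ℤ, 0 < q4 a b c d e (L ^ 2) →
      ∃ n : ℕ, 1 ≤ n ∧ (n : ℝ) = ((B : ℝ) ^ 2) ^ 4 * q4 a b c d e (L ^ 2) := by
    intro a b c d e h
    rw [hL2] at h ⊢
    simpa using q4_nat a b c d e _ _ (by positivity) h
  obtain ⟨n0, p0, e0⟩ : ∃ n : ℕ, 1 ≤ n ∧ (n : ℝ) = ((B : ℝ) ^ 2) ^ 4 * cs (L ^ 2) := key _ _ _ _ _ c0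
  obtain ⟨n1, p1, e1⟩ : ∃ n : ℕ, 1 ≤ n ∧ (n : ℝ) = ((B : ℝ) ^ 2) ^ 4 * cr3 (L ^ 2) := key _ _ _ _ _ c1
  obtain ⟨n2, p2, e2⟩ : ∃ n : ℕ, 1 ≤ n ∧ (n : ℝ) = ((B : ℝ) ^ 2) ^ 4 * ca (L ^ 2) := key _ _ _ _ _ c2
  obtain ⟨n3, p3, e3⟩ : ∃ n : ℕ, 1 ≤ n ∧ (n : ℝ) = ((B : ℝ) ^ 2) ^ 4 * ct0 (L ^ 2) := key _ _ _ _ _ c3
  obtain ⟨n4, p4, e4⟩ : ∃ n : ℕ, 1 ≤ n ∧ (n : ℝ) = ((B : ℝ) ^ 2) ^ 4 * ct1 (L ^ 2) := key _ _ _ _ _ c4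
  obtain ⟨n5, p5, e5⟩ : ∃ n : ℕ, 1 ≤ n ∧ (n : ℝ) = ((B : ℝ) ^ 2) ^ 4 * ct2 (L ^ 2) := key _ _ _ _ _ c5
  obtain ⟨n6, p6, e6⟩ : ∃ n : ℕ, 1 ≤ n ∧ (n : ℝ) = ((B : ℝ) ^ 2) ^ 4 * ct3 (L ^ 2) := key _ _ _ _ _ c6
  obtain ⟨n7, p7, e7⟩ : ∃ n : ℕ, 1 ≤ n ∧ (n : ℝ) = ((B : ℝ) ^ 2) ^ 4 * cp2 (L ^ 2) := key _ _ _ _ _ c7
  obtain ⟨n8, p8, e8⟩ : ∃ n : ℕ, 1 ≤ n ∧ (n : ℝ) = ((B : ℝ) ^ 2) ^ 4 * cr2 (L ^ 2) := key _ _ _ _ _ c8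
  obtain ⟨n9, p9, e9⟩ : ∃ n : ℕ, 1 ≤ n ∧ (n : ℝ) = ((B : ℝ) ^ 2) ^ 4 * cp1 (L ^ 2) := key _ _ _ _ _ c9
  obtain ⟨n10, p10, e10⟩ : ∃ n : ℕ, 1 ≤ n ∧ (n : ℝ) = ((B : ℝ) ^ 2) ^ 4 * cr1 (L ^ 2) :=
    key _ _ _ _ _ c10
  obtain ⟨n11, p11, e11⟩ : ∃ n : ℕ, 1 ≤ n ∧ (n : ℝ) = ((B : ℝ) ^ 2) ^ 4 * ck (L ^ 2) :=
    key _ _ _ _ _ c11
  refine ⟨n11 * A, Nat.mul_pos p11 hA0, fun s hs1 r hr => ?_⟩
  set c : ℕ := n11 * B ^ 2 * s ^ 2 with hc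
  have hc0 : 0 < c := by positivity
  have hc' : (0 : ℝ) < c := by exact_mod_cast hc0
  have hδ : (((n11 * B * s : ℕ) : ℝ)) ^ 2 = (c * ((B : ℝ) ^ 2) ^ 4) * ck (L ^ 2) := by
    rw [mul_assoc (c : ℝ), ← e11, hc]; push_cast; ring
  have hb' := hb.smul (c * ((B : ℝ) ^ 2) ^ 4) (by positivity)
  rw [← hδ] at hb'
  simp only [mul_assoc (c : ℝ), ← e0, ← e1, ← e2, ← e3, ← e4, ← e5, ← e6, ← e7, ← e8, ← e9,
    ← e10, ← Nat.cast_mul] at hb'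
  have hr2 : (r : ℝ) = (((n11 * B * s : ℕ) : ℝ) * L) ^ 2 := by
    rw [mul_pow, hL2, hr]
    push_cast
    field_simp
  have hr3 : r = c * n0 + c * n1 + c * n2 + c * n3 + c * n4 + c * n5 + c * n6 + c * n7 +
      c * n8 + c * n9 + c * n10 + (n11 * B * s) ^ 2 := by
    have : (r : ℝ) = c * n0 + c * n1 + c * n2 + c * n3 + c * n4 + c * n5 + c * n6 + c * n7 +
        c * n8 + c * n9 + c * n10 + ((n11 * B * s : ℕ) : ℝ) ^ 2 := by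
      rw [hr2, mul_pow, hδ, e0, e1, e2, e3, e4, e5, e6, e7, e8, e9, e10]
      linear_combination (-(c * ((B : ℝ) ^ 2) ^ 4)) * har
    exact_mod_cast this
  refine sharp r (((n11 * B * s : ℕ) : ℝ) * L) (by positivity) hr2 fun m d hm hd => ?_
  exact tiling (n11 * B * s) (by positivity) (L - 2) (9 * L - 21) (27 - 11 * L) a0 a1 a2 a3
    _ _ _ _ _ _ _ _ _ _ _ (Nat.mul_pos hc0 p0) (Nat.mul_pos hc0 p1) (Nat.mul_pos hc0 p2)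
    (Nat.mul_pos hc0 p3) (Nat.mul_pos hc0 p7) (Nat.mul_pos hc0 p8) hb' r hr3 m d hm
    (by rw [sub_add_cancel]; exact hd)

lemma exp_zero (r m d : ℕ) (hr : 9 ≤ r) (hd : d ^ 2 < r * m ^ 2) :
    (d + 2).choose 2 - r * (m + 1).choose 2 = 0 := by
  have h1 : 3 * d < r * m := by
    refine lt_of_pow_lt_pow_left₀ 2 (Nat.zero_le _) ?_
    have : 9 * (r * m ^ 2) ≤ r * (r * m ^ 2) := Nat.mul_le_mul_right _ hr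
    nlinarith
  have h2 : 2 * (d + 2).choose 2 = (d + 2) * (d + 1) := by
    rw [Nat.choose_two_right]
    exact Nat.mul_div_cancel' (Nat.even_mul_pred_self (d + 2)).two_dvd
  have h3 : 2 * (m + 1).choose 2 = (m + 1) * m := by
    rw [Nat.choose_two_right]
    exact Nat.mul_div_cancel' (Nat.even_mul_pred_self (m + 1)).two_dvd
  have h4 : 2 * (d + 2).choose 2 ≤ 2 * (r * (m + 1).choose 2) := by
    rw [mul_left_comm, h2, h3]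
    nlinarith
  omega

theorem nagata_exp (D : ℕ) (hD : 1 ≤ D) : ∃ t : ℕ, 1 ≤ t ∧ ∀ s : ℕ, 1 ≤ s → ∀ r : ℕ,
    r = D * (t * s) ^ 2 → ∀ m d : ℕ, d ^ 2 < r * m ^ 2 →
    (d + 2).choose 2 - r * (m + 1).choose 2 = 0 ∧
    ∃ Φ : MvPolynomial (Fin r × Fin 3) ℂ, Φ ≠ 0 ∧ ∀ q : Fin r → Fin 3 → ℂ,
      MvPolynomial.eval (fun ij : Fin r × Fin 3 => q ij.1 ij.2) Φ ≠ 0 →
      fat q (fun _ => m) d = ⊥ := by
  obtain ⟨t, ht, h⟩ := nagata D hD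
  refine ⟨t * 3, by omega, fun s hs r hr m d hd => ⟨exp_zero r m d ?_ hd,
    h (3 * s) (by omega) r (by rw [hr]; ring) m d hd⟩⟩
  have h1 : 3 ≤ t * 3 * s := by nlinarith
  have h2 : 3 ^ 2 ≤ (t * 3 * s) ^ 2 := Nat.pow_le_pow_left h1 2
  nlinarith

end Pool.Agent.P.MP_8707bd_ag.Irr
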