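import Mathlib
import Pool.Agent.P.MP_8707bd_ag.Irr.TreeC
import Pool.Agent.P.MP_8707bd_ag.Irr.Cont

/-!
The criterion with a tree of layers, continuum form (helper file only).
-/

namespace Pool.Agent.P.MP_8707bd_ag.Irr

open Filter Topology

lemma tie_ev {p : ℕ} (a : Fin p → ℝ) (l : Fin p) (h0 : ∀ i < l, a i = 0) :
    ∀ᶠ e in 𝓝[>] (0 : ℝ),
      (0 < a l ↔ 0 < ∑ i : Fin p, (e ^ 2) ^ (i : ℕ) * a i - e ^ (2 * (l : ℕ) + 1)) := by
  set ψ : ℝ → ℝ := fun e => ∑ i : Fin p, if l < i then e ^ (2 * ((i : ℕ) - l) - 1) * a i else 0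
    with hψ
  have hc : Continuous ψ := by
    refine continuous_finsetSum _ fun j _ => ?_
    split_ifs
    · fun_prop
    · exact continuous_const
  have hψ0 : ψ 0 = 0 := by
    refine Finset.sum_eq_zero fun i _ => ?_
    split_ifs with h
    · have : (l : ℕ) < i := h
      rw [zero_pow (by omega), zero_mul]
    · rfl
  have h1 : ∀ e : ℝ, ∑ i : Fin p, (e ^ 2) ^ (i : ℕ) * a i - e ^ (2 * (l : ℕ) + 1) =
      e ^ (2 * (l : ℕ)) * (a l - e * (1 - ψ e)) := by
    intro e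
    have h2 : ∑ i : Fin p, (e ^ 2) ^ (i : ℕ) * a i =
        e ^ (2 * (l : ℕ)) * a l + e ^ (2 * (l : ℕ) + 1) * ψ e := by
      rw [hψ, Finset.mul_sum, ← Finset.sum_ite_eq_of_mem' Finset.univ l
        (fun _ => e ^ (2 * (l : ℕ)) * a l) (Finset.mem_univ _), ← Finset.sum_add_distrib]
      refine Finset.sum_congr rfl fun i _ => ?_
      rcases lt_trichotomy i l with h | h | h
      · rw [h0 i h, if_neg h.ne, if_neg (not_lt.2 h.le)]; ring
      · subst h; rw [if_pos rfl, if_neg (lt_irrefl _), ← pow_mul]; ring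
      · have h3 : (l : ℕ) < i := h
        rw [if_neg h.ne', if_pos h, ← pow_mul, zero_add, ← mul_assoc, ← pow_add]
        congr 2
        omega
    rw [h2]; ring
  have h3 : ∀ᶠ e in 𝓝 (0 : ℝ), 0 < 1 - ψ e :=
    (by fun_prop : Continuous fun e => 1 - ψ e).continuousAt.eventually
      (lt_mem_nhds (by simp [hψ0]))
  rcases lt_or_ge 0 (a l) with h | h
  · have h4 : ∀ᶠ e in 𝓝 (0 : ℝ), 0 < a l - e * (1 - ψ e) :=
      (by fun_prop : Continuous fun e => a l - e * (1 - ψ e)).continuousAt.eventually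
        (lt_mem_nhds (by simpa using h))
    filter_upwards [nhdsWithin_le_nhds h4, self_mem_nhdsWithin] with e h5 h6
    rw [h1]
    exact ⟨fun _ => mul_pos (pow_pos h6 _) h5, fun _ => h⟩
  · filter_upwards [nhdsWithin_le_nhds h3, self_mem_nhdsWithin] with e h5 h6
    rw [h1]
    have h7 : 0 < e * (1 - ψ e) := mul_pos h6 h5
    refine ⟨fun h8 => absurd h8 (not_lt.2 h), fun h8 => ?_⟩
    have h9 := (mul_pos_iff_of_pos_left (pow_pos (show (0 : ℝ) < e from h6) _)).1 h8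
    linarith

lemma exists_acc {K : Type} (rt : K) (par : K → K) (dep : K → ℕ)
    (hdep : ∀ k ≠ rt, dep (par k) < dep k) (u : K → ℝ) :
    ∃ f : K → ℝ, ∀ k ≠ rt, f k = f (par k) + u k := by
  classical
  have wf : WellFounded fun x y : K => dep x < dep y := InvImage.wf dep wellFounded_lt
  refine ⟨wf.fix fun k f => if h : k = rt then 0 else f (par k) (hdep k h) + u k, fun k hk => ?_⟩
  rw [wf.fix_eq, dif_neg hk]

/-- The group of a point. -/
def grp {n : ℕ} (N : Fin n → ℕ) (i : Fin (∑ t, N t)) : Fin n := (finSigmaFinEquiv.symm i).1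

lemma sum_grp {n : ℕ} (N : Fin n → ℕ) (f : Fin n → ℕ) :
    ∑ i, f (grp N i) = ∑ t, N t * f t := by
  rw [← Equiv.sum_comp finSigmaFinEquiv, Fintype.sum_sigma]
  refine Finset.sum_congr rfl fun t _ => ?_
  simp [grp]

/-- The continuum form of the criterion with a tree of layers: upper bound for the dimension. -/
theorem cont_tree_bound (δ : ℕ) (hδ : 0 < δ) (L : ℝ) {p n : ℕ} {K : Type} [Fintype K]
    [DecidableEq K] (rt : K) (par : K → K) (dep : K → ℕ) (hdep : ∀ k ≠ rt, dep (par k) < dep k)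
    (lv : K → Fin p) (N sz : Fin n → ℕ) (ph : Fin n → K) (g : K → ℝ → Fin p → ℝ)
    (F : K → ℝ → ℝ) (h : Fin n → Fin p → ℝ)
    (hg : ∀ k ≠ rt, ∀ x, (∀ i < lv k, g k x i = g (par k) x i) ∧
      g k x (lv k) = g (par k) x (lv k) + F k x)
    (hcov : ∀ x, 0 ≤ x → x ≤ L → ∃ ℓ : Fin n → ℝ,
      (∀ t, ℓ t ≤ 0 ∨ Cov (fun z => RankRel (g (ph t)) (h t) x z ∧ z ≤ L) (sz t - ℓ t)) ∧
      ∀ k, F k x ≤ ∑ w, (if w ≠ rt ∧ par w = k then F w x else 0) +
        ∑ t, if ph t = k then N t * ℓ t else 0)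
    (m d : ℕ) (hm : 0 < m) (hd : ((d / δ : ℕ) : ℝ) ≤ L * m) :
    ∃ Φ : MvPolynomial (Fin (∑ t, N t) × Fin 3) ℂ, Φ ≠ 0 ∧
      ∀ q : Fin (∑ t, N t) → Fin 3 → ℂ,
      MvPolynomial.eval (fun ij : Fin (∑ t, N t) × Fin 3 => q ij.1 ij.2) Φ ≠ 0 →
      Module.finrank ℂ (fat q (fun i => sz (grp N i) * m) d) ≤
        ∑ j ∈ Finset.range (d / δ + 1), (rowLen d δ j - ⌈m * F rt (j / m)⌉₊) := by
  classical
  have hM : (0 : ℝ) < m := by exact_mod_cast hm
  set J : ℕ := d / δ with hJ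
  set lo : K → ℕ → ℕ := fun k j => ⌈m * F k (j / m)⌉₊ with hlo
  set A : K → ℕ → ℕ → Fin p → ℝ := fun k j α i =>
    m * (g k (j / m) i - g (par k) (j / m) i) - if i = lv k then (α : ℝ) else 0 with hA
  have e1 : ∀ᶠ e in 𝓝[>] (0 : ℝ), ∀ k : K, ∀ j : Fin (J + 1),
      ∀ α ∈ Finset.range (δ * d + 1 + lo k j), k ≠ rt → (0 < A k j α (lv k) ↔
        0 < ∑ i : Fin p, (e ^ 2) ^ (i : ℕ) * A k j α i - e ^ (2 * (lv k : ℕ) + 1)) := by
    refine eventually_all.2 fun k => eventually_all.2 fun j =>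
      (Finset.eventually_all _).2 fun α _ => ?_
    by_cases hk : k = rt
    · exact Eventually.of_forall fun _ h => absurd hk h
    · refine (tie_ev _ _ fun i hi => ?_).mono fun _ h _ => h
      simp only [hA, (hg k hk _).1 i hi, if_neg hi.ne]
      ring
  have e2 : ∀ᶠ ε in 𝓝[>] (0 : ℝ), ∀ s : Fin n × Fin (J + 1) × Fin (J + 1),
      ∑ i : Fin p, ε ^ (i : ℕ) *
          (m * (h s.1 i * ((s.2.1 : ℕ) / m) + g (ph s.1) ((s.2.1 : ℕ) / m) i))
        ≤ ∑ i : Fin p, ε ^ (i : ℕ) *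
          (m * (h s.1 i * ((s.2.2 : ℕ) / m) + g (ph s.1) ((s.2.2 : ℕ) / m) i)) →
      LexLe (fun i => m * (h s.1 i * ((s.2.1 : ℕ) / m) + g (ph s.1) ((s.2.1 : ℕ) / m) i))
        (fun i => m * (h s.1 i * ((s.2.2 : ℕ) / m) + g (ph s.1) ((s.2.2 : ℕ) / m) i)) :=
    eventually_all.2 fun s => lex_ev _ _
  have hsq : Tendsto (fun e : ℝ => e ^ 2) (𝓝[>] 0) (𝓝[>] 0) := by
    refine tendsto_nhdsWithin_iff.2 ⟨?_, ?_⟩
    · have : Tendsto (fun e : ℝ => e ^ 2) (𝓝 0) (𝓝 (0 ^ 2)) := (continuous_pow 2).tendsto 0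
      simpa using this.mono_left nhdsWithin_le_nhds
    · filter_upwards [self_mem_nhdsWithin] with e he
      exact pow_pos (show (0 : ℝ) < e from he) 2
  obtain ⟨e, ⟨hε1, hε2⟩, he⟩ := ((e1.and (hsq.eventually e2)).and self_mem_nhdsWithin).exists
  have he0 : (0 : ℝ) < e := he
  obtain ⟨c, hc⟩ := exists_acc rt par dep hdep fun k => -e ^ (2 * (lv k : ℕ) + 1)
  obtain ⟨E, hE⟩ := exists_acc rt par dep hdep fun k => (e ^ 2) ^ (lv k : ℕ)
  set G : K → ℕ → ℝ := fun k j => ∑ i : Fin p, (e ^ 2) ^ (i : ℕ) * (m * g k (j / m) i) + c k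
    with hG
  set H : Fin n → ℝ := fun t => ∑ i : Fin p, (e ^ 2) ^ (i : ℕ) * h t i with hH
  have hHG : ∀ (t : Fin n) (j : ℕ), H t * j + G (ph t) j = ∑ i : Fin p, (e ^ 2) ^ (i : ℕ) *
      (m * (h t i * (j / m) + g (ph t) (j / m) i)) + c (ph t) := by
    intro t j
    simp only [hG, hH]
    rw [Finset.sum_mul, ← add_assoc, ← Finset.sum_add_distrib]
    congr 1
    refine Finset.sum_congr rfl fun i _ => ?_
    field_simp
  have htot : ∀ j ≤ J, ∀ k, lo k j ≤ tot J (fun i => sz (grp N i) * m) rt par G lo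
      (fun i => ph (grp N i)) (fun i => H (grp N i)) k j := by
    intro j hj k
    have hx0 : (0 : ℝ) ≤ j / m := by positivity
    have hxL : ∀ j' ≤ J, (j' : ℝ) / m ≤ L := fun j' hj' => by
      rw [div_le_iff₀ hM]
      exact le_trans (by exact_mod_cast hj') hd
    obtain ⟨ℓ, hℓ, hk⟩ := hcov _ hx0 (hxL j hj)
    have hrk : ∀ t, m * ℓ t ≤ ((sz t * m - rk J (G (ph t)) (H t) j : ℕ) : ℝ) := by
      intro t
      rcases hℓ t with ht | ht
      · exact le_trans (mul_nonpos_of_nonneg_of_nonpos hM.le ht) (by positivity)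
      have h1 := card_le_of_cov hM ht (insert j ((Finset.range (J + 1)).filter
        fun j' : ℕ => j' ≠ j ∧ H t * j' + G (ph t) j' ≤ H t * j + G (ph t) j)) (by
          intro j' hj'
          rcases Finset.mem_insert.1 hj' with rfl | hj'
          · exact ⟨⟨hx0, fun _ _ => le_rfl⟩, hxL _ hj⟩
          simp only [Finset.mem_filter, Finset.mem_range] at hj'
          refine ⟨⟨by positivity, LexLe.of_smul hM ?_⟩, hxL _ (by omega)⟩
          refine hε2 (t, ⟨j', hj'.1⟩, ⟨j, by omega⟩) ?_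
          have h2 := hj'.2.2
          rw [hHG, hHG] at h2
          simpa only [add_le_add_iff_right] using h2)
      rw [Finset.card_insert_of_notMem (by simp)] at h1
      have h2 : sz t * m ≤ (sz t * m - rk J (G (ph t)) (H t) j) + rk J (G (ph t)) (H t) j := by
        omega
      have h3 : (sz t : ℝ) * m ≤ ((sz t * m - rk J (G (ph t)) (H t) j : ℕ) : ℝ) +
          rk J (G (ph t)) (H t) j := by exact_mod_cast h2
      have h4 : (rk J (G (ph t)) (H t) j : ℝ) + 1 ≤ m * (sz t - ℓ t) + 1 := by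
        exact_mod_cast h1
      linarith
    refine Nat.ceil_le.2 ?_
    rw [tot, sum_grp N fun t => if ph t = k then sz t * m - rk J (G k) (H t) j else 0]
    refine le_trans (mul_le_mul_of_nonneg_left (hk k) hM.le) ?_
    rw [mul_add, Finset.mul_sum, Finset.mul_sum, Nat.cast_add, Nat.cast_sum, Nat.cast_sum]
    refine add_le_add (Finset.sum_le_sum fun w _ => ?_) (Finset.sum_le_sum fun t _ => ?_)
    · split_ifs
      · exact Nat.le_ceil _
      · simp
    · split_ifs with ht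
      · have h5 := mul_le_mul_of_nonneg_left (hrk t) (Nat.cast_nonneg (α := ℝ) (N t))
        rw [ht] at h5
        rw [Nat.cast_mul]
        linarith
      · simp
  obtain ⟨Φ, hΦ, h1⟩ := tree_bound (∑ t, N t) d δ J hδ (by
    rw [hJ, mul_comm]; exact Nat.lt_mul_div_succ d hδ) (fun i => sz (grp N i) * m) rt par G E lo
    (fun k hk j hj α hα => by
      have h2 := hε1 k ⟨j, by omega⟩ α (Finset.mem_range.2 (by simp only; omega)) hk
      have h3 : ∑ i : Fin p, (e ^ 2) ^ (i : ℕ) * A k j α i - e ^ (2 * (lv k : ℕ) + 1) =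
          G k j - E k * α - (G (par k) j - E (par k) * α) := by
        simp only [hA, hG, hc k hk, hE k hk, mul_sub, Finset.sum_sub_distrib, mul_ite, mul_zero,
          Finset.sum_ite_eq', Finset.mem_univ, if_true]
        ring
      have h4 : A k j α (lv k) = m * F k (j / m) - α := by
        simp only [hA, (hg k hk _).2, if_true]
        ring
      simp only at h2
      rw [h3, h4, sub_pos, sub_pos] at h2
      rw [← h2, hlo, Nat.lt_ceil])
    (fun k hk => by rw [hE k hk]; linarith [pow_pos (pow_pos he0 2) (lv k : ℕ)])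
    (fun i => ph (grp N i)) (fun i => H (grp N i)) fun j hj k _ => htot j hj k
  refine ⟨Φ, hΦ, fun q hq => (h1 q hq).trans (Finset.sum_le_sum fun j hj => ?_)⟩
  exact Nat.sub_le_sub_left (htot j (by have := Finset.mem_range.1 hj; omega) rt) _

lemma rowLen_le (d δ j : ℕ) (hj : j * δ ≤ d) : rowLen d δ j ≤ δ * (d - j * δ) + 1 := by
  have : ∀ n k : ℕ, ∑ b ∈ Finset.range k, (n + 1 - b) ≤ k * n + 1 := by
    intro n k
    induction k with
    | zero => simp
    | succ k ih =>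
      rcases Nat.eq_zero_or_pos k with rfl | hk
      · simp
      · rw [Finset.sum_range_succ, add_mul]; omega
  refine le_trans (le_of_eq ?_) (this (d - j * δ) δ)
  exact Finset.sum_congr rfl fun b _ => by omega

lemma fat_finite {r : ℕ} (p : Fin r → Fin 3 → ℂ) (μ : Fin r → ℕ) (d : ℕ) :
    Module.Finite ℂ (fat p μ d) := by
  have h5 : fat p μ d ≤
      Submodule.span ℂ (Set.range fun σ : Row.Idx d 1 d => Row.Bas d 1 σ.1 σ.2.1 σ.2.2) :=
    le_trans inf_le_left (Row.homog_le_span d 1 d one_pos (by omega))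
  have : Module.Finite ℂ (Submodule.span ℂ
      (Set.range fun σ : Row.Idx d 1 d => Row.Bas d 1 σ.1 σ.2.1 σ.2.2)) :=
    Module.Finite.span_of_finite ℂ (Set.finite_range _)
  exact Submodule.finiteDimensional_of_le h5

/-- The continuum form of the criterion with a tree of layers: the system is empty. -/
theorem cont_tree (δ : ℕ) (hδ : 0 < δ) (L : ℝ) {p n : ℕ} {K : Type} [Fintype K]
    [DecidableEq K] (rt : K) (par : K → K) (dep : K → ℕ) (hdep : ∀ k ≠ rt, dep (par k) < dep k)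
    (lv : K → Fin p) (N sz : Fin n → ℕ) (ph : Fin n → K) (g : K → ℝ → Fin p → ℝ)
    (F : K → ℝ → ℝ) (h : Fin n → Fin p → ℝ)
    (hg : ∀ k ≠ rt, ∀ x, (∀ i < lv k, g k x i = g (par k) x i) ∧
      g k x (lv k) = g (par k) x (lv k) + F k x)
    (hF : ∀ x, 0 ≤ x → x ≤ L → (δ : ℝ) ^ 2 * (L - x) ≤ F rt x)
    (hcov : ∀ x, 0 ≤ x → x ≤ L → ∃ ℓ : Fin n → ℝ,
      (∀ t, ℓ t ≤ 0 ∨ Cov (fun z => RankRel (g (ph t)) (h t) x z ∧ z ≤ L) (sz t - ℓ t)) ∧
      ∀ k, F k x ≤ ∑ w, (if w ≠ rt ∧ par w = k then F w x else 0) +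
        ∑ t, if ph t = k then N t * ℓ t else 0)
    (m d : ℕ) (hd : (d : ℝ) < δ * L * m) :
    ∃ Φ : MvPolynomial (Fin (∑ t, N t) × Fin 3) ℂ, Φ ≠ 0 ∧
      ∀ q : Fin (∑ t, N t) → Fin 3 → ℂ,
      MvPolynomial.eval (fun ij : Fin (∑ t, N t) × Fin 3 => q ij.1 ij.2) Φ ≠ 0 →
      fat q (fun i => sz (grp N i) * m) d = ⊥ := by
  have hm : 0 < m := by
    rcases Nat.eq_zero_or_pos m with rfl | h0
    · simp only [Nat.cast_zero, mul_zero] at hd
      exact absurd hd (not_lt.2 (by positivity))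
    · exact h0
  have hM : (0 : ℝ) < m := by exact_mod_cast hm
  have hδ' : (0 : ℝ) < δ := by exact_mod_cast hδ
  have hjL : ∀ j : ℕ, j * δ ≤ d → (j : ℝ) ≤ L * m := fun j hj => by
    have h1 : (j : ℝ) * δ ≤ d := by exact_mod_cast hj
    exact le_of_mul_le_mul_right (by linarith) hδ'
  obtain ⟨Φ, hΦ, h1⟩ := cont_tree_bound δ hδ L rt par dep hdep lv N sz ph g F h hg hcov m d hm
    (hjL _ (Nat.div_mul_le_self d δ))
  refine ⟨Φ, hΦ, fun q hq => ?_⟩
  have := fat_finite q (fun i => sz (grp N i) * m) d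
  refine Submodule.finrank_eq_zero.1 (Nat.le_zero.1 ((h1 q hq).trans (le_of_eq ?_)))
  refine Finset.sum_eq_zero fun j hj => Nat.sub_eq_zero_of_le ?_
  have h2 : j * δ ≤ d := le_trans (Nat.mul_le_mul_right _ (by
    have := Finset.mem_range.1 hj; omega)) (Nat.div_mul_le_self d δ)
  refine (rowLen_le d δ j h2).trans (Nat.succ_le_of_lt (Nat.lt_ceil.2 ?_))
  have h3 := hF (j / m) (by positivity) (by rw [div_le_iff₀ hM]; exact hjL j h2)
  have h4 : (m : ℝ) * ((δ : ℝ) ^ 2 * (L - j / m)) = δ * (δ * L * m - j * δ) := by field_simp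
  have h5 := mul_le_mul_of_nonneg_left h3 hM.le
  push_cast [Nat.cast_sub h2]
  nlinarith

end Pool.Agent.P.MP_8707bd_ag.Irr
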