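import Mathlib
import Pool.Agent.P.MP_8707bd_ag.Irr.TreeD

/-!
Taylor expansions at a point and collisions of points (helper file only).
-/

namespace Pool.Agent.P.MP_8707bd_ag.Irr

open MvPolynomial Row

/-- The Taylor expansion at the point `P`. -/
noncomputable def shR {L : Type*} [CommRing L] (f : ℂ →+* L) (P : Fin 3 → L) :
    R3 →+* MvPolynomial (Fin 2) L :=
  eval₂Hom (C.comp f) ![X 0 + C (P 0), X 1 + C (P 1), C (P 2)]

/-- Vanishing to order `μ` at the origin. -/
def Van {L : Type*} [CommRing L] (μ : ℕ) (G : MvPolynomial (Fin 2) L) : Prop :=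
  ∀ e : Fin 2 →₀ ℕ, e 0 + e 1 < μ → coeff e G = 0

lemma deg_two (e : Fin 2 →₀ ℕ) : e.degree = e 0 + e 1 := by
  rw [Finsupp.degree_eq_sum, Fin.sum_univ_two]

lemma mono_two {L : Type*} [CommRing L] (e : Fin 2 →₀ ℕ) (a : L) :
    monomial e a = C a * (X 0 ^ e 0 * X 1 ^ e 1) := by
  rw [monomial_eq, Finsupp.prod_fintype _ _ (by simp), Fin.prod_univ_two]

lemma map_shR {L L' : Type*} [CommRing L] [CommRing L'] (f : ℂ →+* L) (ψ : L →+* L')
    (P : Fin 3 → L) (F : R3) : map ψ (shR f P F) = shR (ψ.comp f) (fun i => ψ (P i)) F := by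
  have : (map ψ).comp (shR f P) = shR (ψ.comp f) (fun i => ψ (P i)) := by
    refine ringHom_ext (fun a => by simp [shR]) fun i => ?_
    fin_cases i <;> simp [shR]
  exact congrArg (fun φ : R3 →+* _ => φ F) this

lemma eval_shR (p : Fin 3 → ℂ) (x : Fin 2 → ℂ) (F : R3) :
    eval x (shR (RingHom.id ℂ) p F) = eval ![x 0 + p 0, x 1 + p 1, p 2] F := by
  have : (eval x).comp (shR (RingHom.id ℂ) p) = eval ![x 0 + p 0, x 1 + p 1, p 2] := by
    refine ringHom_ext (fun a => by simp [shR]) fun i => ?_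
    fin_cases i <;> simp [shR]
  exact congrArg (fun φ : R3 →+* _ => φ F) this

lemma van_of_mem (p : Fin 3 → ℂ) (μ : ℕ) (F : R3) (hF : F ∈ ptIdeal p ^ μ) :
    Van μ (shR (RingHom.id ℂ) p F) := by
  have h1 : Ideal.map (shR (RingHom.id ℂ) p) (ptIdeal p) ≤ idealOfVars (Fin 2) ℂ := by
    rw [ptIdeal, Ideal.map_span, Ideal.span_le]
    rintro _ ⟨L, hL, rfl⟩
    rw [← pow_one (idealOfVars (Fin 2) ℂ), SetLike.mem_coe, mem_pow_idealOfVars_iff']
    intro x hx
    have h2 : x = 0 := by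
      rw [deg_two] at hx
      ext i
      fin_cases i <;> simp <;> omega
    rw [h2, ← constantCoeff_eq, ← eval_zero, eval_shR, ← hL.2]
    congr 2
    ext i
    fin_cases i <;> simp
  have h2 := Ideal.mem_map_of_mem (shR (RingHom.id ℂ) p) hF
  rw [Ideal.map_pow] at h2
  have h3 := Ideal.pow_right_mono h1 μ h2
  rw [mem_pow_idealOfVars_iff'] at h3
  exact fun e he => h3 e (by rwa [deg_two])

lemma eval_smul_homog {F : R3} {d : ℕ} (hF : F.IsHomogeneous d) (t : ℂ) (v : Fin 3 → ℂ) :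
    eval (fun i => t * v i) F = t ^ d * eval v F := by
  rw [eval_eq', eval_eq', Finset.mul_sum]
  refine Finset.sum_congr rfl fun e he => ?_
  have h1 : d = ∑ i, e i := by
    rw [← Finsupp.degree_eq_sum]
    by_contra h
    exact mem_support_iff.1 he (hF.coeff_eq_zero (Ne.symm h))
  simp only [mul_pow, Finset.prod_mul_distrib, Finset.prod_pow_eq_pow_sum, h1]
  ring

/-- Homogenisation centred at a point. -/
noncomputable def hom3 (a b : ℂ) (D : ℕ) (G : MvPolynomial (Fin 2) ℂ) : R3 :=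
  ∑ e ∈ G.support, C (coeff e G) * ((X 0 - C a * X 2) ^ e 0 * (X 1 - C b * X 2) ^ e 1) *
    X 2 ^ (D - (e 0 + e 1))

lemma shR_hom3 (a b : ℂ) (D : ℕ) (G : MvPolynomial (Fin 2) ℂ) :
    shR (RingHom.id ℂ) ![a, b, 1] (hom3 a b D G) = G := by
  rw [hom3, map_sum]
  conv_rhs => rw [G.as_sum]
  refine Finset.sum_congr rfl fun e _ => ?_
  rw [mono_two]
  simp [shR]

lemma lin_homog (i : Fin 3) (a : ℂ) : (X i - C a * X 2 : R3).IsHomogeneous 1 :=
  (isHomogeneous_X ℂ i).sub (isHomogeneous_C_mul_X a 2)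

lemma hom3_homog (a b : ℂ) (D : ℕ) (G : MvPolynomial (Fin 2) ℂ)
    (h : ∀ e ∈ G.support, e 0 + e 1 ≤ D) : (hom3 a b D G).IsHomogeneous D := by
  refine IsHomogeneous.sum _ _ _ fun e he => ?_
  have h1 := ((((lin_homog 0 a).pow (e 0)).mul ((lin_homog 1 b).pow (e 1))).C_mul
    (coeff e G)).mul (isHomogeneous_X_pow (R := ℂ) (2 : Fin 3) (D - (e 0 + e 1)))
  have h2 := h e he
  convert h1 using 1
  omega

lemma mem_of_van (a b : ℂ) (μ d : ℕ) (F : R3) (hF : F.IsHomogeneous d)
    (hv : Van μ (shR (RingHom.id ℂ) ![a, b, 1] F)) : F ∈ ptIdeal ![a, b, 1] ^ μ := by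
  set G := shR (RingHom.id ℂ) ![a, b, 1] F with hG
  have hdeg : G.totalDegree ≤ d := by
    rw [hG, F.as_sum, map_sum]
    refine totalDegree_finsetSum_le fun e he => ?_
    have h1 : d = ∑ i, e i := by
      rw [← Finsupp.degree_eq_sum]
      by_contra h
      exact mem_support_iff.1 he (hF.coeff_eq_zero (Ne.symm h))
    have h2 : ∀ (i : Fin 2) (c : ℂ) (n : ℕ),
        ((X i + C c : MvPolynomial (Fin 2) ℂ) ^ n).totalDegree ≤ n := by
      intro i c n
      refine (totalDegree_pow _ _).trans ?_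
      have := totalDegree_add (X i : MvPolynomial (Fin 2) ℂ) (C c)
      rw [totalDegree_X, totalDegree_C] at this
      exact (Nat.mul_le_mul_left n this).trans (by simp)
    have h3 : shR (RingHom.id ℂ) ![a, b, 1] (monomial e (coeff e F)) =
        C (coeff e F) * ((X 0 + C a) ^ e 0 * (X 1 + C b) ^ e 1) := by
      rw [monomial_eq, Finsupp.prod_fintype _ _ (by simp), Fin.prod_univ_three]
      simp [shR]
    rw [h3, h1, Fin.sum_univ_three]
    refine (totalDegree_mul _ _).trans ?_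
    have h4 := (totalDegree_mul _ _).trans (add_le_add (h2 0 a (e 0)) (h2 1 b (e 1)))
    rw [totalDegree_C]
    omega
  have h1 : (hom3 a b d G).IsHomogeneous d := hom3_homog a b d G fun e he => by
    have := (le_totalDegree he).trans hdeg
    rwa [Finsupp.sum_fintype _ _ (by simp), Fin.sum_univ_two] at this
  have h2 : F = hom3 a b d G := by
    refine funext_set (fun _ => ({0}ᶜ : Set ℂ)) (fun _ => (Set.finite_singleton _).infinite_compl)
      fun v hv => ?_
    have h3 : v 2 ≠ 0 := hv 2 (Set.mem_univ _)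
    have h4 : v = fun i => v 2 * (![v 0 / v 2 - a + a, v 1 / v 2 - b + b, 1] : Fin 3 → ℂ) i := by
      ext i
      fin_cases i <;> simp <;> field_simp
    have h5 := eval_shR ![a, b, 1] ![v 0 / v 2 - a, v 1 / v 2 - b]
    simp only [Matrix.cons_val_zero, Matrix.cons_val_one, Matrix.cons_val] at h5
    rw [h4, eval_smul_homog hF, eval_smul_homog h1, ← h5, ← h5, shR_hom3]
  rw [h2, hom3]
  refine Ideal.sum_mem _ fun e he => Ideal.mul_mem_right _ _ (Ideal.mul_mem_left _ _ ?_)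
  have h3 : μ ≤ e 0 + e 1 := by
    by_contra h
    exact mem_support_iff.1 he (hv e (by omega))
  refine Ideal.pow_le_pow_right h3 ?_
  rw [pow_add]
  have m0 : (X 0 - C a * X 2 : R3) ∈ ptIdeal ![a, b, 1] :=
    Ideal.subset_span (And.intro (lin_homog 0 a) (by simp))
  have m1 : (X 1 - C b * X 2 : R3) ∈ ptIdeal ![a, b, 1] :=
    Ideal.subset_span (And.intro (lin_homog 1 b) (by simp))
  exact Ideal.mul_mem_mul (Ideal.pow_mem_pow m0 _) (Ideal.pow_mem_pow m1 _)

lemma exists_affine {r : ℕ} (Φ : MvPolynomial (Fin r × Fin 3) ℂ) (hΦ : Φ ≠ 0) :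
    ∃ (q : Fin r → Fin 3 → ℂ) (a b : Fin r → ℂ),
      eval (fun ij : Fin r × Fin 3 => q ij.1 ij.2) Φ ≠ 0 ∧
      ∀ μ d, fat (fun i => ![a i, b i, 1]) μ d = fat q μ d := by
  by_contra hcon
  refine hΦ (funext_set (fun _ => ({0}ᶜ : Set ℂ))
    (fun _ => (Set.finite_singleton _).infinite_compl) fun v hv => ?_)
  by_contra h0
  refine hcon ⟨fun i j => v (i, j), fun i => v (i, 0) / v (i, 2), fun i => v (i, 1) / v (i, 2),
    by simpa using h0, fun μ d => ?_⟩
  have h1 : ∀ i, ptIdeal ![v (i, 0) / v (i, 2), v (i, 1) / v (i, 2), 1] =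
      ptIdeal fun j => v (i, j) := by
    intro i
    have h3 : v (i, 2) ≠ 0 := hv _ (Set.mem_univ _)
    have h4 : (fun j => v (i, j)) = fun j => v (i, 2) *
        (![v (i, 0) / v (i, 2), v (i, 1) / v (i, 2), 1] : Fin 3 → ℂ) j := by
      ext j
      fin_cases j <;> simp <;> field_simp
    unfold ptIdeal
    congr 1
    ext L
    refine and_congr_right fun hL => ?_
    rw [h4, eval_smul_homog hL]
    simp [h3]
  simp only [fat, h1]

/-- Translation. -/
noncomputable def tr {L : Type*} [CommRing L] (a b : L) :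
    MvPolynomial (Fin 2) L →+* MvPolynomial (Fin 2) L := eval₂Hom C ![X 0 + C a, X 1 + C b]

lemma affine_empty {r m D : ℕ} (a b : Fin r → ℂ)
    (h : fat (fun i => ![a i, b i, 1]) (fun _ => m) D = ⊥) (G : MvPolynomial (Fin 2) ℂ)
    (hG : ∀ e ∈ G.support, e 0 + e 1 ≤ D) (hv : ∀ i, Van m (tr (a i) (b i) G)) : G = 0 := by
  have h1 := hom3_homog 0 0 D G hG
  have h2 : hom3 0 0 D G ∈ fat (fun i => ![a i, b i, 1]) (fun _ => m) D := by
    refine ⟨h1, (Submodule.mem_iInf _).2 fun i => mem_of_van _ _ _ D _ h1 ?_⟩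
    have h3 : (tr (a i) (b i)).comp (shR (RingHom.id ℂ) ![0, 0, 1]) =
        shR (RingHom.id ℂ) ![a i, b i, 1] := by
      refine ringHom_ext (fun a => by simp [shR, tr]) fun i => ?_
      fin_cases i <;> simp [shR, tr]
    rw [← h3, RingHom.comp_apply, shR_hom3]
    exact hv i
  rw [h, Submodule.mem_bot] at h2
  rw [← shR_hom3 0 0 D G, h2, map_zero]

/-- The coefficient of `t ^ γ` in every coefficient. -/
noncomputable def cw2 (γ : ℝ) (G : MvPolynomial (Fin 2) HL) : MvPolynomial (Fin 2) ℂ :=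
  ∑ e ∈ G.support, monomial e ((coeff e G).coeff γ)

lemma cw2_coeff (γ : ℝ) (G : MvPolynomial (Fin 2) HL) (e : Fin 2 →₀ ℕ) :
    coeff e (cw2 γ G) = (coeff e G).coeff γ := by
  classical
  rw [cw2, coeff_sum]
  simp only [coeff_monomial]
  rw [Finset.sum_ite_eq']
  split_ifs with h
  · rfl
  · rw [notMem_support_iff.1 h]; rfl

lemma cw2_mul (γ : ℝ) (p : MvPolynomial (Fin 2) ℂ) (x : HL) :
    cw2 γ (C x * map HahnSeries.C p) = C (x.coeff γ) * p := by
  ext e
  rw [cw2_coeff, coeff_C_mul, coeff_C_mul, coeff_map, mul_comm x, mul_comm _ (coeff e p)]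
  exact cf_C γ _ x

lemma cw2_sum {ι : Type*} (γ : ℝ) (s : Finset ι) (G : ι → MvPolynomial (Fin 2) HL) :
    cw2 γ (∑ i ∈ s, G i) = ∑ i ∈ s, cw2 γ (G i) := by
  ext e
  simp [cw2_coeff, coeff_sum, HahnSeries.coeff_sum]

lemma cw2_tr (γ : ℝ) (a b : ℂ) (G : MvPolynomial (Fin 2) HL) :
    cw2 γ (tr (HahnSeries.C a) (HahnSeries.C b) G) = tr a b (cw2 γ G) := by
  conv_lhs => rw [G.as_sum]
  rw [cw2.eq_1 γ G, map_sum, map_sum, cw2_sum]
  refine Finset.sum_congr rfl fun e _ => ?_
  have h1 : tr (HahnSeries.C a) (HahnSeries.C b) (monomial e (coeff e G)) =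
      C (coeff e G) * map HahnSeries.C ((X 0 + C a) ^ e 0 * (X 1 + C b) ^ e 1) := by
    rw [mono_two]; simp [tr]
  rw [h1, cw2_mul, mono_two]
  simp [tr]

/-- Scaling of the variables. -/
noncomputable def sc : MvPolynomial (Fin 2) HL →+* MvPolynomial (Fin 2) HL :=
  eval₂Hom C ![C (tp 1) * X 0, C (tp 1) * X 1]

lemma sc_coeff (G : MvPolynomial (Fin 2) HL) (e : Fin 2 →₀ ℕ) :
    coeff e (sc G) = tp ((e 0 + e 1 : ℕ) : ℝ) * coeff e G := by
  classical
  induction G using MvPolynomial.induction_on' with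
  | add p q hp hq => rw [map_add, coeff_add, coeff_add, hp, hq, mul_add]
  | monomial u a =>
    have h1 : sc (monomial u a) = monomial u (tp 1 ^ (u 0 + u 1) * a) := by
      rw [mono_two, mono_two]
      simp [sc]
      ring
    rw [h1, coeff_monomial, coeff_monomial]
    split_ifs with h
    · rw [h, tp_pow, one_mul]
    · rw [mul_zero]

/-- A collision of points of multiplicity `m` contains a point of multiplicity `D + 1`. -/
lemma collide {r n m D : ℕ} (a b : Fin r → ℂ)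
    (h : fat (fun i => ![a i, b i, 1]) (fun _ => m) D = ⊥) (x y : ℂ) (B : Fin n → R3)
    (c : Fin n → HL) (ω : ℝ) (hlow : ∀ σ, Low ω (c σ))
    (hv : ∀ i, Van m (∑ σ, C (c σ) * shR HahnSeries.C ![HahnSeries.C x + tp 1 * HahnSeries.C (a i),
      HahnSeries.C y + tp 1 * HahnSeries.C (b i), 1] (B σ))) :
    Van (D + 1) (shR (RingHom.id ℂ) ![x, y, 1] (∑ σ, C ((c σ).coeff ω) * B σ)) := by
  intro e0 he0
  set T : MvPolynomial (Fin 2) HL :=
    ∑ σ, C (c σ) * map HahnSeries.C (shR (RingHom.id ℂ) ![x, y, 1] (B σ)) with hT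
  have h1 : cw2 ω T = shR (RingHom.id ℂ) ![x, y, 1] (∑ σ, C ((c σ).coeff ω) * B σ) := by
    rw [hT, cw2_sum, map_sum]
    refine Finset.sum_congr rfl fun σ _ => ?_
    rw [cw2_mul, map_mul]
    simp [shR]
  have h2 : ∀ γ < ω, ∀ e, (coeff e T).coeff γ = 0 := by
    intro γ hγ e
    rw [← cw2_coeff, hT, cw2_sum]
    simp only [cw2_mul, hlow _ γ hγ]
    simp
  have h3 : cw2 (ω + ((e0 0 + e0 1 : ℕ) : ℝ)) (sc T) = 0 := by
    refine affine_empty a b h _ (fun e he => ?_) fun i e he => ?_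
    · by_contra hc
      refine mem_support_iff.1 he ?_
      rw [cw2_coeff, sc_coeff, coeff_tp_mul]
      refine h2 _ ?_ e
      have : ((e0 0 + e0 1 : ℕ) : ℝ) < ((e 0 + e 1 : ℕ) : ℝ) := by exact_mod_cast (by omega)
      linarith
    · have h4 : tr (HahnSeries.C (a i)) (HahnSeries.C (b i)) (sc T) = sc (∑ σ, C (c σ) *
          shR HahnSeries.C ![HahnSeries.C x + tp 1 * HahnSeries.C (a i),
            HahnSeries.C y + tp 1 * HahnSeries.C (b i), 1] (B σ)) := by
        have h5 : (tr (HahnSeries.C (a i)) (HahnSeries.C (b i))).comp (sc.comp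
            ((map HahnSeries.C).comp (shR (RingHom.id ℂ) ![x, y, 1]))) =
            sc.comp (shR HahnSeries.C ![HahnSeries.C x + tp 1 * HahnSeries.C (a i),
              HahnSeries.C y + tp 1 * HahnSeries.C (b i), 1]) := by
          refine ringHom_ext (fun a => by simp [shR, tr, sc]) fun j => ?_
          fin_cases j <;> simp [shR, tr, sc] <;> ring
        rw [hT, map_sum, map_sum, map_sum]
        refine Finset.sum_congr rfl fun σ _ => ?_
        have h6 := congrArg (fun φ : R3 →+* _ => φ (B σ)) h5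
        simp only [RingHom.comp_apply] at h6
        rw [map_mul, map_mul, map_mul, h6]
        simp [tr, sc]
      rw [← cw2_tr, cw2_coeff, h4, sc_coeff, hv i e he, mul_zero]
      rfl
  have h7 := congrArg (coeff e0) h3
  rwa [cw2_coeff, sc_coeff, coeff_tp_mul, add_sub_cancel_right, ← cw2_coeff, h1] at h7

end Pool.Agent.P.MP_8707bd_ag.Irr
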