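import Mathlib
import Pool.Agent.P.MP_8707bd_ag.Irr.GlueA

/-!
A point of multiplicity `k m` is a limit of `k ^ 2` points of multiplicity `m`
(helper file only).
-/

namespace Pool.Agent.P.MP_8707bd_ag.Irr

open MvPolynomial Row

/-- A convex price with slope `n` on `[n, n + 1]`. -/
noncomputable def stair (z : ℝ) : ℝ := ⌊z⌋ * z - ⌊z⌋ * (⌊z⌋ + 1) / 2

lemma stair_le {i : ℤ} {x z : ℝ} (h1 : (i : ℝ) ≤ x) (h2 : x ≤ i + 1)
    (h : -i * z + stair z ≤ -i * x + stair x) :
    (i : ℝ) ≤ z ∧ z ≤ i + 1 ∧ -i * z + stair z = -i * x + stair x := by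
  have key : ∀ w : ℝ, -i * w + stair w + i * (i + 1) / 2 =
      (⌊w⌋ - i) * (w - (⌊w⌋ + i + 1) / 2) := fun w => by rw [stair]; ring
  have flat : ∀ w : ℝ, (i : ℝ) ≤ w → w ≤ i + 1 → -i * w + stair w + i * (i + 1) / 2 = 0 := by
    intro w a b
    rw [key]
    rcases b.lt_or_eq with b | b
    · rw [Int.floor_eq_iff.2 ⟨a, b⟩]; ring
    · have : ⌊w⌋ = i + 1 := by rw [b]; exact_mod_cast Int.floor_intCast (i + 1)
      rw [this, b]; push_cast; ring
  have h3 := flat x h1 h2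
  have h4 := key z
  have h5 := Int.floor_le z
  have h6 := Int.lt_floor_add_one z
  have h7 : (i : ℝ) ≤ z := by
    by_contra hc
    have h8 : ⌊z⌋ + 1 ≤ i := Int.floor_lt.2 (not_le.1 hc)
    have h9 : (⌊z⌋ : ℝ) + 1 ≤ i := by exact_mod_cast h8
    nlinarith
  have h10 : z ≤ i + 1 := by
    by_contra hc
    have h8 : i + 1 ≤ ⌊z⌋ := Int.le_floor.2 (by push_cast; linarith)
    have h9 : (i : ℝ) + 1 ≤ ⌊z⌋ := by exact_mod_cast h8
    nlinarith
  exact ⟨h7, h10, by linarith [flat z h7 h10]⟩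

lemma sq_sum (k : ℕ) : ∑ i : Fin k, (k - (i : ℕ)) + ∑ i : Fin k, (k - (i : ℕ) - 1) = k ^ 2 := by
  rw [← Finset.sum_add_distrib, Fin.sum_univ_eq_sum_range (fun i => k - i + (k - i - 1)) k,
    ← Finset.sum_range_reflect]
  have h1 : ∀ n : ℕ, ∑ j ∈ Finset.range n, (2 * j + 1) = n ^ 2 := by
    intro n
    induction n with
    | zero => simp
    | succ n ih => rw [Finset.sum_range_succ, ih]; ring
  rw [← h1]
  exact Finset.sum_congr rfl fun j hj => by have := Finset.mem_range.1 hj; omega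

/-- The theorem of Nagata for a square number of points. -/
theorem square_empty (k m d : ℕ) (hd : d < k * m) :
    ∃ Φ : MvPolynomial (Fin (k ^ 2) × Fin 3) ℂ, Φ ≠ 0 ∧ ∀ q : Fin (k ^ 2) → Fin 3 → ℂ,
      eval (fun ij : Fin (k ^ 2) × Fin 3 => q ij.1 ij.2) Φ ≠ 0 → fat q (fun _ => m) d = ⊥ := by
  have hk : 0 < k := Nat.pos_of_ne_zero fun h => by simp [h] at hd
  set N : Fin (k + k) → ℕ := Fin.addCases (fun i => k - (i : ℕ)) (fun i => k - (i : ℕ) - 1)
    with hN
  have hs : ∑ t, N t = k ^ 2 := by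
    rw [Fin.sum_univ_add, ← sq_sum]
    simp only [hN, Fin.addCases_left, Fin.addCases_right]
  have main := cont_tree 1 one_pos (k : ℝ) (p := 2) (K := Unit) () id (fun _ => 0)
    (fun _ h => absurd rfl h) (fun _ => 0) N (fun _ => 1) (fun _ => ())
    (fun _ x => ![stair x, 0]) (fun _ x => k - x)
    (Fin.addCases (fun i => ![-((i : ℕ) : ℝ), 1]) (fun i => ![-((i : ℕ) : ℝ), -1]))
    (fun _ h => absurd rfl h) (fun x _ _ => by simp) (fun x h0 h1 => ?_) m d
    (by rw [Nat.cast_one, one_mul]; exact_mod_cast hd)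
  · rw [← hs]
    simpa only [one_mul] using main
  obtain ⟨i, hi1, hi2⟩ : ∃ i : Fin k, ((i : ℕ) : ℝ) ≤ x ∧ x ≤ (i : ℕ) + 1 := by
    rcases h1.lt_or_eq with h2 | h2
    · exact ⟨⟨⌊x⌋₊, (Nat.floor_lt h0).2 h2⟩, Nat.floor_le h0, (Nat.lt_floor_add_one x).le⟩
    · refine ⟨⟨k - 1, by omega⟩, ?_, ?_⟩ <;> simp only [Nat.cast_pred hk] <;> linarith
  refine ⟨Fin.addCases (fun j => if j = i then 1 - (x - (i : ℕ)) else 0)
    (fun j => if j = i then x - (i : ℕ) else 0), fun t => ?_, fun _ => ?_⟩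
  · have lex : ∀ (s z : ℝ), RankRel (fun x => ![stair x, 0]) ![-((i : ℕ) : ℝ), s] x z →
        ((i : ℕ) : ℝ) ≤ z ∧ z ≤ (i : ℕ) + 1 ∧ s * z ≤ s * x := by
      intro s z hz
      have a0 := hz.2 0 (fun j hj => absurd hj (by simp))
      obtain ⟨a1, a2, a3⟩ := stair_le (i := (i : ℕ)) (z := z) (by exact_mod_cast hi1)
        (by exact_mod_cast hi2) (by simpa using a0)
      have a4 := hz.2 1 (fun j hj => by
        fin_cases j
        · simpa using a3
        · exact absurd hj (by simp))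
      exact ⟨by exact_mod_cast a1, by exact_mod_cast a2, by simpa using a4⟩
    refine Fin.addCases (fun j => ?_) (fun j => ?_) t <;>
      simp only [Fin.addCases_left, Fin.addCases_right] <;> split_ifs with hj
    · subst hj
      refine Or.inr (cov_of (j : ℕ) x hi1 (by simp) fun z hz => ?_)
      have := lex 1 z hz.1
      exact ⟨this.1, by linarith [this.2.2]⟩
    · exact Or.inl le_rfl
    · subst hj
      refine Or.inr (cov_of x ((j : ℕ) + 1) hi2 (by push_cast; ring) fun z hz => ?_)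
      have := lex (-1) z hz.1
      exact ⟨by linarith [this.2.2], this.2.1⟩
    · exact Or.inl le_rfl
  · have hi := i.2
    rw [Fin.sum_univ_add]
    simp only [hN, Fin.addCases_left, Fin.addCases_right, if_true, mul_ite, mul_zero,
      Finset.sum_ite_eq', Finset.mem_univ, ne_eq, not_true_eq_false, false_and, if_false,
      Finset.sum_const_zero]
    rw [Nat.cast_pred (by omega), Nat.cast_sub hi.le]
    exact le_of_eq (by ring)

/-- Points of multiplicity `k i * m` may be replaced by `k i ^ 2` points of multiplicity `m`. -/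
theorem glue_bound {r' : ℕ} (k : Fin r' → ℕ) (m d B : ℕ)
    (h : ∃ Φ : MvPolynomial (Fin r' × Fin 3) ℂ, Φ ≠ 0 ∧ ∀ p : Fin r' → Fin 3 → ℂ,
      eval (fun ij : Fin r' × Fin 3 => p ij.1 ij.2) Φ ≠ 0 →
      Module.finrank ℂ (fat p (fun i => k i * m) d) ≤ B) (r : ℕ) (hr : r = ∑ i, k i ^ 2) :
    ∃ Φ : MvPolynomial (Fin r × Fin 3) ℂ, Φ ≠ 0 ∧ ∀ q : Fin r → Fin 3 → ℂ,
      eval (fun ij : Fin r × Fin 3 => q ij.1 ij.2) Φ ≠ 0 →
      Module.finrank ℂ (fat q (fun _ => m) d) ≤ B := by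
  classical
  subst hr
  obtain ⟨Φ0, hΦ0, h0⟩ := h
  obtain ⟨p, x, y, hp, hxy⟩ := exists_affine Φ0 hΦ0
  have h1 := h0 p hp
  rw [← hxy] at h1
  have hin : ∀ i, ∃ a b : Fin (k i ^ 2) → ℂ, 0 < k i * m →
      fat (fun s => ![a s, b s, 1]) (fun _ => m) (k i * m - 1) = ⊥ := by
    intro i
    by_cases hk : 0 < k i * m
    · obtain ⟨Φ, hΦ, h2⟩ := square_empty (k i) m (k i * m - 1) (by omega)
      obtain ⟨q, a, b, hq, hab⟩ := exists_affine Φ hΦ
      exact ⟨a, b, fun _ => by rw [hab]; exact h2 q hq⟩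
    · exact ⟨0, 0, fun h => absurd h hk⟩
  choose a b hab using hin
  have := fat_finite (fun i => ![x i, y i, 1]) (fun i => k i * m) d
  obtain ⟨l0, hl0⟩ : ∃ l0 : fat (fun i => ![x i, y i, 1]) (fun i => k i * m) d →ₗ[ℂ]
      (Fin B → ℂ), Function.Injective l0 :=
    finrank_le_iff_exists_linearMap.1 (by simpa using h1)
  obtain ⟨l, hl⟩ := LinearMap.exists_extend l0
  have : Module.Finite ℂ (homogeneousSubmodule (Fin 3) ℂ d) :=
    Module.Finite.iff_fg.2 (homogeneousSubmodule_fg (Fin 3) ℂ d)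
  set bs := Module.finBasis ℂ (homogeneousSubmodule (Fin 3) ℂ d) with hbs
  set n := Module.finrank ℂ (homogeneousSubmodule (Fin 3) ℂ d) with hn
  set r := ∑ i, k i ^ 2 with hr
  set M : Matrix ((Fin r × Fin m × Fin m) ⊕ Fin B) (Fin n) (MvPolynomial (Fin r × Fin 3) ℂ) :=
    Matrix.of fun ρ σ => match ρ with
      | Sum.inl t => if (t.2.1 : ℕ) + t.2.2 < m then
          coeff (Finsupp.single 0 (t.2.1 : ℕ) + Finsupp.single 1 (t.2.2 : ℕ))
            (shR C (fun j => X (t.1, j)) (bs σ)) else 0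
      | Sum.inr j => C (l (bs σ) j) with hM
  have hmul : ∀ {L : Type} [CommRing L] (f : ℂ →+* L) (P : Fin r → Fin 3 → L) (c : Fin n → L),
      (M.map (eval₂Hom f fun ij : Fin r × Fin 3 => P ij.1 ij.2)).mulVec c = 0 ↔
      (∀ i, Van m (∑ σ, C (c σ) * shR f (P i) (bs σ))) ∧ ∀ j, ∑ σ, f (l (bs σ) j) * c σ = 0 := by
    intro L _ f P c
    have e1 : ∀ (i : Fin r) (u v : Fin m), (u : ℕ) + v < m →
        (M.map (eval₂Hom f fun ij : Fin r × Fin 3 => P ij.1 ij.2)).mulVec c (Sum.inl (i, u, v)) =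
        coeff (Finsupp.single 0 (u : ℕ) + Finsupp.single 1 (v : ℕ))
          (∑ σ, C (c σ) * shR f (P i) (bs σ)) := by
      intro i u v huv
      rw [coeff_sum, Matrix.mulVec, dotProduct]
      refine Finset.sum_congr rfl fun σ _ => ?_
      simp only [hM, Matrix.map_apply, Matrix.of_apply, if_pos huv]
      rw [← coeff_map, map_shR, coeff_C_mul, mul_comm, eval₂Hom_comp_C]
      simp
    have e2 : ∀ j, (M.map (eval₂Hom f fun ij : Fin r × Fin 3 => P ij.1 ij.2)).mulVec c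
        (Sum.inr j) = ∑ σ, f (l (bs σ) j) * c σ := by
      intro j
      rw [Matrix.mulVec, dotProduct]
      refine Finset.sum_congr rfl fun σ _ => ?_
      simp [hM]
    constructor
    · intro hc
      refine ⟨fun i e he => ?_, fun j => by rw [← e2, hc]; rfl⟩
      have h2 := e1 i ⟨e 0, by omega⟩ ⟨e 1, by omega⟩ he
      have h3 : Finsupp.single 0 (e 0) + Finsupp.single 1 (e 1) = e := by
        ext j
        fin_cases j <;> simp
      rw [hc] at h2
      simp only [h3] at h2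
      exact h2.symm
    · rintro ⟨c1, c2⟩
      funext ρ
      rcases ρ with ⟨i, u, v⟩ | j
      · by_cases huv : (u : ℕ) + v < m
        · rw [e1 i u v huv]
          exact c1 i _ (by simpa using huv)
        · rw [Matrix.mulVec, dotProduct, Pi.zero_apply]
          refine Finset.sum_eq_zero fun σ _ => ?_
          simp [hM, huv]
      · rw [e2]; exact c2 j
  set P : (Σ i : Fin r', Fin (k i ^ 2)) → Fin 3 → HL := fun s =>
    ![HahnSeries.C (x s.1) + tp 1 * HahnSeries.C (a s.1 s.2),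
      HahnSeries.C (y s.1) + tp 1 * HahnSeries.C (b s.1 s.2), 1] with hP
  obtain ⟨f, hf⟩ := exists_minor (M.map (eval₂Hom HahnSeries.C
    fun ij : Fin r × Fin 3 => P (finSigmaFinEquiv.symm ij.1) ij.2)) (by
      intro c hc
      obtain ⟨c1, c2⟩ := (hmul HahnSeries.C (fun i => P (finSigmaFinEquiv.symm i)) c).1 hc
      by_contra hne
      have hex : ((Finset.univ : Finset (Fin n)).filter fun σ => c σ ≠ 0).Nonempty := by
        obtain ⟨σ, hσ⟩ := Function.ne_iff.1 hne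
        exact ⟨σ, Finset.mem_filter.2 ⟨Finset.mem_univ _, hσ⟩⟩
      obtain ⟨σ0, hσ0, hmin⟩ := Finset.exists_min_image _ (fun σ => (c σ).order) hex
      set ω := (c σ0).order with hω
      have hlow : ∀ σ, Low ω (c σ) := by
        intro σ γ hγ
        by_cases h2 : c σ = 0
        · rw [h2]; rfl
        · exact HahnSeries.coeff_eq_zero_of_lt_order
            (hγ.trans_le (hmin σ (Finset.mem_filter.2 ⟨Finset.mem_univ _, h2⟩)))
      set F : homogeneousSubmodule (Fin 3) ℂ d := ∑ σ, (c σ).coeff ω • bs σ with hF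
      have hF1 : (F : R3) = ∑ σ, C ((c σ).coeff ω) * (bs σ : R3) := by
        simp [hF, smul_eq_C_mul]
      have hF2 : (F : R3) ∈ fat (fun i => ![x i, y i, 1]) (fun i => k i * m) d := by
        refine ⟨F.2, (Submodule.mem_iInf _).2 fun i => ?_⟩
        rcases Nat.eq_zero_or_pos (k i * m) with hk | hk
        · simp [hk]
        refine mem_of_van _ _ _ d _ F.2 ?_
        have h2 := collide (a i) (b i) (hab i hk) (x i) (y i) (fun σ => (bs σ : R3)) c ω hlow
          fun s => by simpa [hP] using c1 (finSigmaFinEquiv ⟨i, s⟩)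
        rwa [← hF1, Nat.sub_add_cancel hk] at h2
      have hF3 : l F = 0 := by
        funext j
        have h2 := congrArg (cf ω) (c2 j)
        rw [map_sum, map_zero] at h2
        simp only [cf_C] at h2
        simp only [cf_apply] at h2
        simpa [hF, mul_comm] using h2
      have hF4 : (⟨F, hF2⟩ : fat (fun i => ![x i, y i, 1]) (fun i => k i * m) d) = 0 := by
        apply hl0
        rw [← hl, map_zero]
        exact hF3
      have hF5 : F = 0 := Subtype.ext ((Submodule.mk_eq_zero _ _).1 hF4)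
      exact (Finset.mem_filter.1 hσ0).2 (HahnSeries.coeff_order_eq_zero.1
        (Fintype.linearIndependent_iff.1 bs.linearIndependent _ hF5 σ0)))
  refine ⟨(M.submatrix f id).det, fun h2 => hf ?_, fun q hq => ?_⟩
  · have := RingHom.map_det (eval₂Hom HahnSeries.C
      fun ij : Fin r × Fin 3 => P (finSigmaFinEquiv.symm ij.1) ij.2) (M.submatrix f id)
    rw [h2, map_zero] at this
    exact this.symm
  · have h2 : ((M.map (eval₂Hom (RingHom.id ℂ)
        fun ij : Fin r × Fin 3 => q ij.1 ij.2)).submatrix f id).det ≠ 0 := fun h3 =>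
      hq ((RingHom.map_det (eval₂Hom (RingHom.id ℂ)
        fun ij : Fin r × Fin 3 => q ij.1 ij.2) (M.submatrix f id)).trans h3)
    have h4 : Function.Injective (l.comp (fat q (fun _ => m) d).subtype) := by
      rw [← LinearMap.ker_eq_bot, LinearMap.ker_eq_bot']
      intro F hF
      set G : homogeneousSubmodule (Fin 3) ℂ d := ⟨F, F.2.1⟩ with hG
      have h5 : (F : R3) = ∑ σ, bs.repr G σ • (bs σ : R3) := by
        have := congrArg Subtype.val (bs.sum_repr G)
        rw [Submodule.coe_sum] at this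
        exact this.symm
      have h6 := inj_of_minor _ f h2 (fun σ => bs.repr G σ)
        ((hmul (RingHom.id ℂ) q _).2 ⟨fun i => ?_, fun j => ?_⟩)
      · apply Subtype.ext
        rw [h5]
        exact Finset.sum_eq_zero fun σ _ => by rw [congrFun h6 σ]; simp
      · have h7 := van_of_mem (q i) m F ((Submodule.mem_iInf _).1 F.2.2 i)
        rw [h5, map_sum] at h7
        convert h7 using 2 with σ
        rw [smul_eq_C_mul, map_mul]
        simp [shR]
      · have h7 := congrFun hF j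
        rw [LinearMap.comp_apply, Submodule.subtype_apply, h5, map_sum] at h7
        simpa [mul_comm] using h7
    simpa using LinearMap.finrank_le_finrank_of_injective h4

/-- The same for empty systems. -/
theorem glue {r' : ℕ} (k : Fin r' → ℕ) (m d : ℕ)
    (h : ∃ Φ : MvPolynomial (Fin r' × Fin 3) ℂ, Φ ≠ 0 ∧ ∀ p : Fin r' → Fin 3 → ℂ,
      eval (fun ij : Fin r' × Fin 3 => p ij.1 ij.2) Φ ≠ 0 →
      fat p (fun i => k i * m) d = ⊥) (r : ℕ) (hr : r = ∑ i, k i ^ 2) :
    ∃ Φ : MvPolynomial (Fin r × Fin 3) ℂ, Φ ≠ 0 ∧ ∀ q : Fin r → Fin 3 → ℂ,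
      eval (fun ij : Fin r × Fin 3 => q ij.1 ij.2) Φ ≠ 0 → fat q (fun _ => m) d = ⊥ := by
  obtain ⟨Φ0, hΦ0, h0⟩ := h
  obtain ⟨Φ, hΦ, h1⟩ := glue_bound k m d 0
    ⟨Φ0, hΦ0, fun p hp => by rw [h0 p hp, finrank_bot]⟩ r hr
  refine ⟨Φ, hΦ, fun q hq => ?_⟩
  have := fat_finite q (fun _ => m) d
  exact Submodule.finrank_eq_zero.1 (Nat.le_zero.1 (h1 q hq))

/-- The tree criterion for groups of `N t` clusters of `sz t ^ 2` points. -/
theorem cont_tree_glue (δ : ℕ) (hδ : 0 < δ) (L : ℝ) {p n : ℕ} {K : Type} [Fintype K]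
    [DecidableEq K] (rt : K) (par : K → K) (dep : K → ℕ) (hdep : ∀ k ≠ rt, dep (par k) < dep k)
    (lv : K → Fin p) (N sz : Fin n → ℕ) (ph : Fin n → K) (g : K → ℝ → Fin p → ℝ)
    (F : K → ℝ → ℝ) (h : Fin n → Fin p → ℝ)
    (hg : ∀ k ≠ rt, ∀ x, (∀ i < lv k, g k x i = g (par k) x i) ∧
      g k x (lv k) = g (par k) x (lv k) + F k x)
    (hF : ∀ x, 0 ≤ x → x ≤ L → (δ : ℝ) ^ 2 * (L - x) ≤ F rt x)
    (hcov : ∀ x, 0 ≤ x → x ≤ L → ∃ ℓ : Fin n → ℝ,
      (∀ t, ℓ t ≤ 0 ∨ Cov (fun z => RankRel (g (ph t)) (h t) x z ∧ z ≤ L) (sz t - ℓ t)) ∧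
      ∀ k, F k x ≤ ∑ w, (if w ≠ rt ∧ par w = k then F w x else 0) +
        ∑ t, if ph t = k then N t * ℓ t else 0)
    (r : ℕ) (hr : r = ∑ t, N t * sz t ^ 2) (m d : ℕ) (hd : (d : ℝ) < δ * L * m) :
    ∃ Φ : MvPolynomial (Fin r × Fin 3) ℂ, Φ ≠ 0 ∧ ∀ q : Fin r → Fin 3 → ℂ,
      eval (fun ij : Fin r × Fin 3 => q ij.1 ij.2) Φ ≠ 0 → fat q (fun _ => m) d = ⊥ :=
  glue (fun i => sz (grp N i)) m d
    (cont_tree δ hδ L rt par dep hdep lv N sz ph g F h hg hF hcov m d hd) r
    (by rw [hr, sum_grp N fun t => sz t ^ 2])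

end Pool.Agent.P.MP_8707bd_ag.Irr
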