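import Mathlib
import Pool.Agent.P.MP_8707bd_ag.Irr.Nagata

open MvPolynomial

namespace Pool.Agent.P.MP_8707bd_ag.Irr.NonSquare

/-- The conjecture of Nagata for `r = D (t s) ^ 2` general points: every `D ≥ 1`, square or not,
has a `t ≥ 1` such that for all `s ≥ 1` and all `d < √r m` no curve of degree `d` has
multiplicity `m` at the points, and the SHGH statement holds for `(r, m, d)`. -/
theorem result :
    ∀ D : ℕ, 1 ≤ D → ∃ t : ℕ, 1 ≤ t ∧ ∀ s : ℕ, 1 ≤ s → ∀ r : ℕ, r = D * (t * s) ^ 2 →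
      ∀ m d : ℕ, d ^ 2 < r * m ^ 2 →
      ∃ Φ : MvPolynomial (Fin r × Fin 3) ℂ, Φ ≠ 0 ∧
      ∀ p : Fin r → Fin 3 → ℂ,
        MvPolynomial.eval (fun ij : Fin r × Fin 3 => p ij.1 ij.2) Φ ≠ 0 →
        (∀ G : MvPolynomial (Fin 3) ℂ, G.IsHomogeneous d →
          (∀ i : Fin r, G ∈ (Ideal.span {L : MvPolynomial (Fin 3) ℂ | L.IsHomogeneous 1 ∧ MvPolynomial.eval (p i) L = 0} : Ideal (MvPolynomial (Fin 3) ℂ)) ^ m) →
          G = 0) ∧
        Module.finrank ℂ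
            ↥((MvPolynomial.homogeneousSubmodule (Fin 3) ℂ d : Submodule ℂ (MvPolynomial (Fin 3) ℂ)) ⊓
              (Submodule.restrictScalars ℂ
                (⨅ i : Fin r, ((Ideal.span {L : MvPolynomial (Fin 3) ℂ | L.IsHomogeneous 1 ∧ MvPolynomial.eval (p i) L = 0} : Ideal (MvPolynomial (Fin 3) ℂ)) ^ m) : Ideal (MvPolynomial (Fin 3) ℂ))
                : Submodule ℂ (MvPolynomial (Fin 3) ℂ)))
            = (d + 2).choose 2 - r * (m + 1).choose 2 ∧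
        (Module.finrank ℂ
            ↥((MvPolynomial.homogeneousSubmodule (Fin 3) ℂ d : Submodule ℂ (MvPolynomial (Fin 3) ℂ)) ⊓
              (Submodule.restrictScalars ℂ
                (⨅ i : Fin r, ((Ideal.span {L : MvPolynomial (Fin 3) ℂ | L.IsHomogeneous 1 ∧ MvPolynomial.eval (p i) L = 0} : Ideal (MvPolynomial (Fin 3) ℂ)) ^ m) : Ideal (MvPolynomial (Fin 3) ℂ))
                : Submodule ℂ (MvPolynomial (Fin 3) ℂ)))
            ≠ (d + 2).choose 2 - r * (m + 1).choose 2 ↔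
          ((∃ G : MvPolynomial (Fin 3) ℂ, G ≠ 0 ∧ G.IsHomogeneous d ∧
              ∀ i : Fin r, G ∈ (Ideal.span {L : MvPolynomial (Fin 3) ℂ | L.IsHomogeneous 1 ∧ MvPolynomial.eval (p i) L = 0} : Ideal (MvPolynomial (Fin 3) ℂ)) ^ m) ∧
            ∃ F : MvPolynomial (Fin 3) ℂ, ∃ e : ℕ, Irreducible F ∧ F.IsHomogeneous e ∧
              (∃ n : Fin r → ℕ,
                (∀ i : Fin r,
                  F ∈ (Ideal.span {L : MvPolynomial (Fin 3) ℂ | L.IsHomogeneous 1 ∧ MvPolynomial.eval (p i) L = 0} : Ideal (MvPolynomial (Fin 3) ℂ)) ^ (n i) ∧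
                  F ∉ (Ideal.span {L : MvPolynomial (Fin 3) ℂ | L.IsHomogeneous 1 ∧ MvPolynomial.eval (p i) L = 0} : Ideal (MvPolynomial (Fin 3) ℂ)) ^ (n i + 1)) ∧
                (e : ℤ) ^ 2 - ∑ i : Fin r, ((n i : ℕ) : ℤ) ^ 2 = -1 ∧
                -3 * (e : ℤ) + ∑ i : Fin r, ((n i : ℕ) : ℤ) = -1) ∧
              ∃ s : ℕ, 1 < s ∧
                ∀ G : MvPolynomial (Fin 3) ℂ, G.IsHomogeneous d →
                  (∀ i : Fin r, G ∈ (Ideal.span {L : MvPolynomial (Fin 3) ℂ | L.IsHomogeneous 1 ∧ MvPolynomial.eval (p i) L = 0} : Ideal (MvPolynomial (Fin 3) ℂ)) ^ m) →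
                  F ^ s ∣ G)) := by
  intro D hD
  obtain ⟨t, ht, h⟩ := Pool.Agent.P.MP_8707bd_ag.Irr.nagata_exp D hD
  refine ⟨t, ht, fun s hs r hr m d hd => ?_⟩
  obtain ⟨hexp, Φ, hΦ, h1⟩ := h s hs r hr m d hd
  refine ⟨Φ, hΦ, fun p hp => ?_⟩
  have hbot := h1 p hp
  have hz : ∀ G : MvPolynomial (Fin 3) ℂ, G.IsHomogeneous d →
      (∀ i : Fin r, G ∈ Pool.Agent.P.MP_8707bd_ag.ptIdeal (p i) ^ m) → G = 0 := by
    intro G h2 h3
    have : G ∈ Pool.Agent.P.MP_8707bd_ag.fat p (fun _ => m) d := by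
      simpa [Pool.Agent.P.MP_8707bd_ag.fat] using And.intro h2 h3
    rw [hbot] at this
    exact this
  have hf : Module.finrank ℂ (Pool.Agent.P.MP_8707bd_ag.fat p (fun _ => m) d) =
      (d + 2).choose 2 - r * (m + 1).choose 2 := by
    rw [hbot, hexp, finrank_bot]
  refine ⟨hz, hf, fun hne => absurd hf hne, ?_⟩
  rintro ⟨⟨G, hG0, hG1, hG2⟩, -⟩
  exact absurd (hz G hG1 hG2) hG0

end Pool.Agent.P.MP_8707bd_ag.Irr.NonSquare
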